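import Pool.Agent.N842.ST.Glob

/-!
# The number of the points and the power sums
-/

set_option autoImplicit false

namespace Pool.Agent.N842.ST

open Finset Polynomial

attribute [local instance] gfFin

lemma card_curve (l p : ℕ) [hp : Fact p.Prime] (k : ℕ) (hk : k ≠ 0) (f : GaloisField p k → GaloisField p k) :
    (Nat.card {P : GaloisField p k × GaloisField p k // P.2 ^ l = f P.1} : ℝ) = (p : ℝ) ^ k + ∑ x : GaloisField p k, nu l (f x) := by
  classical
  have h1 : Nat.card {P : GaloisField p k × GaloisField p k // P.2 ^ l = f P.1} =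
      ∑ x : GaloisField p k, Nat.card {y : GaloisField p k // y ^ l = f x} := by
    rw [← Nat.card_sigma]
    refine Nat.card_congr ⟨fun P => ⟨P.1.1, ⟨P.1.2, P.2⟩⟩, fun P => ⟨(P.1, P.2.1), P.2.2⟩, fun _ => rfl, fun _ => rfl⟩
  rw [h1]
  push_cast
  have h3 : ∀ x : GaloisField p k, ((Nat.card {y : GaloisField p k // y ^ l = f x} : ℕ) : ℝ) = nu l (f x) + 1 := by
    intro x
    unfold nu
    ring
  rw [sum_congr rfl (fun x _ => h3 x), sum_add_distrib, sum_const, card_univ, nsmul_eq_mul, mul_one, card_gf p k hk]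
  push_cast
  ring

lemma aeval_fp (p : ℕ) [hp : Fact p.Prime] (k : ℕ) {D : ℕ} (m : Fin D → ℕ) (x : GaloisField p k) :
    aeval x (fp p (fun i => ((m i : ℕ) : ZMod p))) = x ^ D + ∑ i, (m i : GaloisField p k) * x ^ (i : ℕ) := by
  unfold fp low
  simp

/-- the number of the points of the affine curve -/
lemma card_points (l p : ℕ) [hp : Fact p.Prime] (k : ℕ) (hk : k ≠ 0) {D : ℕ} (m : Fin D → ℕ) :
    (Nat.card {P : GaloisField p k × GaloisField p k // P.2 ^ l = P.1 ^ D + ∑ i, (m i : GaloisField p k) * P.1 ^ (i : ℕ)} : ℝ) =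
      (p : ℝ) ^ k + S p l k (fp p (fun i => ((m i : ℕ) : ZMod p))) := by
  rw [card_curve l p k hk (fun x => x ^ D + ∑ i, (m i : GaloisField p k) * x ^ (i : ℕ))]
  congr 1
  unfold S
  refine sum_congr rfl fun x _ => ?_
  rw [aeval_fp]

end Pool.Agent.N842.ST
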