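import Pool.Agent.N842.ST.Prod

/-!
# The moments of normal variables
-/

set_option autoImplicit false

namespace Pool.Agent.N842.ST

open Finset MeasureTheory ProbabilityTheory
open Pool.Agent.Y57.FD.Mom (normal)
open scoped NNReal

/-- the powers are integrable -/
lemma gauss_integrable (μ : ℝ) (v : ℝ≥0) (n : ℕ) : Integrable (fun x : ℝ => x ^ n) (gaussianReal μ v) := by
  rcases Nat.eq_zero_or_pos n with h | h
  · rw [h]
    simp only [pow_zero]
    exact integrable_const 1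
  · have h1 := memLp_id_gaussianReal (μ := μ) (v := v) (n : ℝ≥0)
    have h2 := h1.integrable_norm_pow (by omega)
    rw [← integrable_norm_iff (by fun_prop)]
    refine h2.congr (ae_of_all _ fun x => ?_)
    simp

lemma gauss_odd (n : ℕ) (hn : Odd n) : ∫ x, x ^ n ∂(gaussianReal 0 1) = 0 := by
  have h1 : (gaussianReal 0 1).map (fun x : ℝ => -x) = gaussianReal 0 1 := by
    rw [gaussianReal_map_neg, neg_zero]
  have h2 : ∫ x, x ^ n ∂(gaussianReal 0 1) = ∫ x, (-x) ^ n ∂(gaussianReal 0 1) := by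
    conv_lhs => rw [← h1]
    rw [integral_map (by fun_prop) (by fun_prop)]
  have h3 : ∫ x, (-x) ^ n ∂(gaussianReal 0 1) = - ∫ x, x ^ n ∂(gaussianReal 0 1) := by
    rw [← integral_neg]
    congr 1
    funext x
    rw [hn.neg_pow]
  linarith

lemma gauss_even (n : ℕ) : ∫ x, x ^ (2 * n) ∂(gaussianReal 0 1) = (Nat.doubleFactorial (2 * n - 1) : ℝ) := by
  rw [integral_gaussianReal_eq_integral_smul one_ne_zero]
  have h1 : (fun x : ℝ => gaussianPDFReal 0 1 x • x ^ (2 * n)) =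
      fun x : ℝ => (fun y : ℝ => (Real.sqrt (2 * Real.pi))⁻¹ * (y ^ ((2 * n : ℕ) : ℝ) * Real.exp (-(1 / 2) * y ^ (2 : ℝ)))) |x| := by
    funext x
    rw [gaussianPDFReal_def]
    simp only [smul_eq_mul, NNReal.coe_one, mul_one, sub_zero]
    have e1 : |x| ^ ((2 * n : ℕ) : ℝ) = x ^ (2 * n) := by
      rw [Real.rpow_natCast, pow_mul, sq_abs, ← pow_mul]
    have e2 : |x| ^ (2 : ℝ) = x ^ 2 := by
      rw [Real.rpow_two, sq_abs]
    rw [e1, e2]
    have e3 : -x ^ 2 / 2 = -(1 / 2) * x ^ 2 := by ring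
    rw [e3]
    ring
  rw [h1, integral_comp_abs (f := fun y : ℝ => (Real.sqrt (2 * Real.pi))⁻¹ * (y ^ ((2 * n : ℕ) : ℝ) * Real.exp (-(1 / 2) * y ^ (2 : ℝ)))),
    integral_const_mul,
    integral_rpow_mul_exp_neg_mul_rpow (by norm_num : (0 : ℝ) < 2) (by
      have : (0 : ℝ) ≤ ((2 * n : ℕ) : ℝ) := by positivity
      linarith) (by norm_num : (0 : ℝ) < 1 / 2)]
  have h2 : (((2 * n : ℕ) : ℝ) + 1) / 2 = (n : ℝ) + 1 / 2 := by
    push_cast
    ring
  rw [h2, Real.Gamma_nat_add_half]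
  have h3 : (1 / 2 : ℝ) ^ (-(((2 * n : ℕ) : ℝ) + 1) / 2) = 2 ^ n * Real.sqrt 2 := by
    have e1 : -(((2 * n : ℕ) : ℝ) + 1) / 2 = -((n : ℝ) + 1 / 2) := by
      push_cast
      ring
    rw [e1, one_div, Real.inv_rpow (by norm_num), Real.rpow_neg (by norm_num), inv_inv, Real.rpow_add (by norm_num), Real.rpow_natCast,
      Real.sqrt_eq_rpow, one_div]
  rw [h3, Real.sqrt_mul (by norm_num)]
  have hs2 : Real.sqrt 2 ≠ 0 := by positivity
  have hsp : Real.sqrt Real.pi ≠ 0 := by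
    have := Real.pi_pos
    positivity
  field_simp

/-- the moments of a standard normal variable -/
theorem gauss_std (n : ℕ) : ∫ x, x ^ n ∂(gaussianReal 0 1) = normal n := by
  unfold Pool.Agent.Y57.FD.Mom.normal
  rcases Nat.even_or_odd n with h | h
  · rw [if_pos h]
    obtain ⟨k, hk⟩ := h
    rw [show n = 2 * k by omega]
    exact gauss_even k
  · rw [if_neg (Nat.not_even_iff_odd.2 h)]
    exact gauss_odd n h

/-- **the moments of a normal variable** -/
theorem gauss_mom (η : ℝ) (v : ℝ≥0) (r : ℕ) : ∫ x, x ^ r ∂(gaussianReal η v) =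
    ∑ i ∈ range (r + 1), (r.choose i : ℝ) * η ^ (r - i) * (normal i * (v : ℝ) ^ (i / 2)) := by
  have h1 : gaussianReal η v = (gaussianReal 0 1).map (fun x => Real.sqrt v * x + η) := by
    have e1 := gaussianReal_map_const_mul (μ := 0) (v := 1) (Real.sqrt v)
    have e2 := gaussianReal_map_add_const (μ := Real.sqrt v * 0) (v := NNReal.mk (Real.sqrt v ^ 2) (sq_nonneg _) * 1) η
    rw [← e1, Measure.map_map (by fun_prop) (by fun_prop)] at e2
    rw [Function.comp_def] at e2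
    rw [e2, mul_zero, zero_add, mul_one]
    congr 1
    apply NNReal.eq
    show (v : ℝ) = Real.sqrt v ^ 2
    rw [Real.sq_sqrt (NNReal.coe_nonneg v)]
  rw [h1, integral_map (by fun_prop) (by fun_prop)]
  have h2 : (fun x : ℝ => (Real.sqrt v * x + η) ^ r) = fun x => ∑ i ∈ range (r + 1), ((r.choose i : ℝ) * η ^ (r - i) * Real.sqrt v ^ i) * x ^ i := by
    funext x
    rw [add_pow]
    refine sum_congr rfl fun i _ => ?_
    rw [mul_pow]
    ring
  rw [h2, integral_finsetSum _ (fun i _ => (gauss_integrable 0 1 i).const_mul _)]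
  refine sum_congr rfl fun i _ => ?_
  rw [integral_const_mul, gauss_std, mul_assoc]
  congr 1
  unfold Pool.Agent.Y57.FD.Mom.normal
  split_ifs with h
  · obtain ⟨k, hk⟩ := h
    rw [show i / 2 = k by omega, show i = 2 * k by omega, pow_mul, Real.sq_sqrt (NNReal.coe_nonneg v)]
    ring
  · ring

/-- the variance -/
def vr (l k p : ℕ) : ℕ := k * (if l ∣ p ^ k - 1 then l - 1 else 0)

open Classical in
/-- the mean -/
noncomputable def sh (l k p : ℕ) : ℕ := if Even k ∧ l ∣ p ^ (k / 2) + 1 then l - 1 else 0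

theorem mu_gauss (l : ℕ) (hl : l.Prime) (k p r : ℕ) : mu k (kap p l k) (eta p l k) r =
    ∫ x, x ^ r ∂(gaussianReal (sh l k p : ℝ) (vr l k p : ℝ≥0)) := by
  rw [gauss_mom]
  have hl1 : ((l - 1 : ℕ) : ℝ) = (l : ℝ) - 1 := by
    rw [Nat.cast_sub hl.one_lt.le, Nat.cast_one]
  have h1 : ((vr l k p : ℝ≥0) : ℝ) = (k : ℝ) * kap p l k := by
    unfold vr kap
    rw [NNReal.coe_natCast, Nat.cast_mul]
    split_ifs
    · rw [hl1]
    · rw [Nat.cast_zero]
  have h2 : (sh l k p : ℝ) = eta p l k := by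
    unfold sh eta
    split_ifs
    · rw [hl1]
    · rw [Nat.cast_zero]
  rw [h1, h2]
  rfl

theorem mk_gauss (l : ℕ) (hl : l.Prime) (N k p : ℕ) (β : Finset (Fin N) → ℝ) (q : ℕ) : mk l N k p β q =
    ∫ x : Fin N → ℝ, (∑ S : Finset (Fin N), β S * ∏ c ∈ S, -x c) ^ q
      ∂(Measure.pi (fun _ => gaussianReal (sh l k p : ℝ) (vr l k p : ℝ≥0))) := by
  classical
  have h1 : (fun x : Fin N → ℝ => (∑ S : Finset (Fin N), β S * ∏ c ∈ S, -x c) ^ q) =
      fun x => ∑ T : Fin q → Finset (Fin N), (∏ j, β (T j)) * ∏ c, (-x c) ^ cnt T c := by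
    funext x
    exact pow_expand q β (fun c => -x c)
  have hint : ∀ n : ℕ, Integrable (fun y : ℝ => (-y) ^ n) (gaussianReal (sh l k p : ℝ) (vr l k p : ℝ≥0)) := by
    intro n
    have e1 : (fun y : ℝ => (-y) ^ n) = fun y => (-1) ^ n * y ^ n := by
      funext y
      rw [← mul_pow, neg_one_mul]
    rw [e1]
    exact (gauss_integrable _ _ n).const_mul _
  rw [h1, integral_finsetSum _ (fun T _ => (Integrable.fintype_prod (f := fun (c : Fin N) (y : ℝ) => (-y) ^ cnt T c)
    (fun c => hint _)).const_mul _)]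
  unfold mk
  refine sum_congr rfl fun T _ => ?_
  rw [integral_const_mul, integral_fintype_prod_eq_prod (fun (c : Fin N) (y : ℝ) => (-y) ^ cnt T c)]
  congr 1
  refine prod_congr rfl fun c _ => ?_
  have e1 : (fun y : ℝ => (-y) ^ cnt T c) = fun y => (-1) ^ cnt T c * y ^ cnt T c := by
    funext y
    rw [← mul_pow, neg_one_mul]
  rw [e1, integral_const_mul, mu_gauss l hl]

end Pool.Agent.N842.ST
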