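import Pool.Agent.N842.ST.Sep
import Pool.Agent.Y57.FD.Tup0

/-!
# Products of arbitrary local functions at several consecutive primes, for almost all vectors obtained by changing few digits
-/

set_option autoImplicit false

namespace Pool.Agent.N842.ST

open Finset
open Pool.Agent.TH894.NE (mean box mem_box)
open Pool.Agent.TH894.NF (pr pr_prime)
open Pool.Agent.Y57.FD (digit exceptions)

open Classical in
/-- **Products of local functions at several consecutive primes.** -/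
theorem gen (b d s : ℕ) (hb : 2 ≤ b) (hd : 1 ≤ d) (hs : 1 ≤ s) (δ : ℝ) (hδ : 0 < δ) (A B : ℕ) {Θ : Type} (Q : Finset Θ)
    (F : Θ → ℕ → (Fin d → ℕ) → ℝ) (M : Θ → ℕ → ℝ)
    (hper : ∀ θ ∈ Q, ∀ p, p.Prime → ∀ m, F θ p m = F θ p (fun j => m j % p))
    (hbd : ∀ θ ∈ Q, ∃ C : ℝ, ∀ p, p.Prime → (∀ m, |F θ p m| ≤ C) ∧ |M θ p| ≤ C)
    (hmean : ∀ θ ∈ Q, ∃ C : ℝ, 0 ≤ C ∧ ∀ p, p.Prime → |mean d p (F θ p) - M θ p| ≤ C / Real.sqrt p) :
    ∃ c : ℝ, 0 < c ∧ ∃ y₀ : ℕ, ∀ (K r : Fin d → ℕ) (y : ℕ), (∀ i, 2 * r i ≤ K i) → y₀ ≤ y →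
    ∀ N' : Fin d → ℕ, (∀ i, N' i < b ^ K i) →
    ∀ f : Fin d → ℕ → ℕ, (∀ i j, f i j < b ∧ f i j ≠ digit b j (N' i)) →
    ∀ W : ℕ → Set (ℕ → ℝ), (∀ x, (W x).Finite ∧ (W x).ncard ≤ x ^ B) → (∀ x, ∀ w ∈ W x, ∀ k, |w k| ≤ 1) →
    ∀ E : (Fin d → ℕ) → Prop,
    (∀ m : Fin d → ℕ, (∀ x : ℕ, y ≤ x → (∀ i, (x : ℝ) ≤ Real.exp (c * r i)) → ∀ w ∈ W x, ∀ q : Fin s → Θ, (∀ e, q e ∈ Q) →
      |∑ k ∈ range x, w k * ∏ e : Fin s, F (q e) (pr (k + e)) m - ∑ k ∈ range x, w k * ∏ e : Fin s, M (q e) (pr (k + e))| ≤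
        Real.sqrt (max 1 (∑ k ∈ range x, w k ^ 2)) * (x : ℝ) ^ δ) → E m) →
    (exceptions b K r N' f E : ℝ) ≤ 1 / (y : ℝ) ^ A * ∏ i, ((K i).choose (r i) : ℝ) := by
  -- the constants
  have hch : ∀ θ : Θ, ∃ C : ℝ, 0 ≤ C ∧ (θ ∈ Q → ∀ p : ℕ, p.Prime → |mean d p (F θ p) - M θ p| ≤ C / Real.sqrt p) := by
    intro θ
    by_cases hq : θ ∈ Q
    · obtain ⟨C, hC0, hC⟩ := hmean θ hq
      exact ⟨C, hC0, fun _ => hC⟩
    · exact ⟨0, le_rfl, fun h => absurd h hq⟩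
  choose C hC0 hC using hch
  have hch2 : ∀ θ : Θ, ∃ C : ℝ, 0 ≤ C ∧ (θ ∈ Q → ∀ p : ℕ, p.Prime → (∀ m, |F θ p m| ≤ C) ∧ |M θ p| ≤ C) := by
    intro θ
    by_cases hq : θ ∈ Q
    · obtain ⟨C, hC⟩ := hbd θ hq
      exact ⟨C, (abs_nonneg _).trans (hC 2 Nat.prime_two).2, fun _ => hC⟩
    · exact ⟨0, le_rfl, fun h => absurd h hq⟩
  choose β hβ0 hβ using hch2
  obtain ⟨C', hC'⟩ : ∃ C' : ℝ, C' = ∑ θ ∈ Q, C θ := ⟨_, rfl⟩
  have hC'0 : 0 ≤ C' := by
    rw [hC']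
    exact sum_nonneg fun θ _ => hC0 θ
  have hCC' : ∀ θ ∈ Q, C θ ≤ C' := by
    intro θ hθ
    rw [hC']
    exact single_le_sum (f := C) (fun θ _ => hC0 θ) hθ
  obtain ⟨B', hB'⟩ : ∃ B' : ℝ, B' = 1 + 2 * ∑ θ ∈ Q, β θ := ⟨_, rfl⟩
  have hS0 : 0 ≤ ∑ θ ∈ Q, β θ := sum_nonneg fun θ _ => hβ0 θ
  have hB'1 : 1 ≤ B' := by
    rw [hB']
    linarith
  have hβB : ∀ θ ∈ Q, 2 * β θ ≤ B' := by
    intro θ hθ
    have h1 := single_le_sum (f := β) (fun θ _ => hβ0 θ) hθ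
    rw [hB']
    linarith
  -- the set of the tuples
  obtain ⟨QQ, hQQ⟩ : ∃ QQ : Finset (Fin s → Θ), QQ = Fintype.piFinset (fun _ : Fin s => Q) := ⟨_, rfl⟩
  have hQm : ∀ q : Fin s → Θ, q ∈ QQ ↔ ∀ e, q e ∈ Q := by
    intro q
    rw [hQQ, Fintype.mem_piFinset]
  obtain ⟨c, hc, y₁, h⟩ := Pool.Agent.Y57.FD.tuples0 b d s hb hd hs (δ / 2) (by positivity) A (B + (QQ.card + 2 ^ s)) B' C' hB'1 hC'0
  -- the threshold
  have hev : ∀ᶠ x : ℕ in Filter.atTop, (2 : ℝ) ^ s ≤ (x : ℝ) ^ (δ / 2) :=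
    ((tendsto_rpow_atTop (by positivity : 0 < δ / 2)).comp tendsto_natCast_atTop_atTop).eventually (Filter.eventually_ge_atTop _)
  obtain ⟨x₀, hx₀⟩ := Filter.eventually_atTop.1 hev
  refine ⟨c, hc, y₁ + x₀ + 2, fun K r y hrK hy N' hN' f hf W hW hW1 E hE => ?_⟩
  have hWf : ∀ x, (W x).Finite := fun x => (hW x).1
  obtain ⟨P, hP⟩ : ∃ P : Finset (Finset (Fin s)), P = univ.filter (fun T => T.Nonempty) := ⟨_, rfl⟩
  have hPc : P.card ≤ 2 ^ s := by
    rw [hP]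
    refine (card_filter_le _ _).trans ?_
    rw [card_univ, Fintype.card_finset, Fintype.card_fin]
  refine h K r y hrK (by omega) N' hN' f hf
    ((ℕ → ℝ) × ((Fin s → Θ) × Finset (Fin s))) (fun x => (hWf x).toFinset ×ˢ (QQ ×ˢ P)) ?_ (fun z => z.1) ?_
    (fun z i p m => if z.2.1 ∈ QQ then (if i ∈ z.2.2 then F (z.2.1 i) p m - M (z.2.1 i) p else M (z.2.1 i) p) else 0)
    ?_ ?_ ?_ _ ?_
  · intro x hx
    rw [card_product, card_product, ← Set.ncard_eq_toFinset_card _ (hWf x), pow_add, pow_add]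
    apply Nat.mul_le_mul (hW x).2
    have e1 : QQ.card ≤ x ^ QQ.card := (Nat.lt_pow_self (by omega)).le
    have e2 : P.card ≤ x ^ (2 ^ s) := hPc.trans (Nat.lt_pow_self (by omega)).le
    exact Nat.mul_le_mul e1 e2
  · intro x z hz k
    rw [mem_product, Set.Finite.mem_toFinset] at hz
    exact hW1 x z.1 hz.1 k
  · intro z i p hp m
    show (if z.2.1 ∈ QQ then (if i ∈ z.2.2 then F (z.2.1 i) p m - M (z.2.1 i) p else M (z.2.1 i) p) else 0) =
      (if z.2.1 ∈ QQ then (if i ∈ z.2.2 then F (z.2.1 i) p (fun j => m j % p) - M (z.2.1 i) p else M (z.2.1 i) p) else 0)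
    by_cases h1 : z.2.1 ∈ QQ
    · rw [if_pos h1, if_pos h1, ← hper _ ((hQm _).1 h1 i) p hp m]
    · rw [if_neg h1, if_neg h1]
  · intro z i p hp m
    show |(if z.2.1 ∈ QQ then (if i ∈ z.2.2 then F (z.2.1 i) p m - M (z.2.1 i) p else M (z.2.1 i) p) else 0)| ≤ B'
    split_ifs with h1 h2
    · have e1 := hβ _ ((hQm _).1 h1 i) p hp
      have e3 := hβB _ ((hQm _).1 h1 i)
      refine (abs_sub _ _).trans ?_
      have e4 := e1.1 m
      have e5 := e1.2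
      linarith
    · have e1 := (hβ _ ((hQm _).1 h1 i) p hp).2
      have e3 := hβB _ ((hQm _).1 h1 i)
      have e4 := hβ0 (z.2.1 i)
      linarith
    · rw [abs_zero]
      linarith
  · intro x z hz
    rw [mem_product, mem_product] at hz
    have hq : z.2.1 ∈ QQ := hz.2.1
    have hT : z.2.2.Nonempty := by
      have := hz.2.2
      rw [hP, mem_filter] at this
      exact this.2
    obtain ⟨i, hi⟩ := hT
    refine ⟨i, fun p hp => ?_⟩
    have h2 : (fun m : Fin d → ℕ => if z.2.1 ∈ QQ then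
        (if i ∈ z.2.2 then F (z.2.1 i) p m - M (z.2.1 i) p else M (z.2.1 i) p) else 0) =
        fun m : Fin d → ℕ => (F (z.2.1 i) p) m + (fun _ => - M (z.2.1 i) p) m := by
      funext m
      rw [if_pos hq, if_pos hi]
      ring
    show |mean d p (fun m : Fin d → ℕ => if z.2.1 ∈ QQ then
        (if i ∈ z.2.2 then F (z.2.1 i) p m - M (z.2.1 i) p else M (z.2.1 i) p) else 0)| ≤ _
    rw [h2, Pool.Agent.TH894.NE.mean_add, Pool.Agent.TH894.NE.mean_const d p hp.pos, ← sub_eq_add_neg]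
    refine (hC (z.2.1 i) ((hQm _).1 hq i) p hp).trans ?_
    exact div_le_div_of_nonneg_right (hCC' _ ((hQm _).1 hq i)) (Real.sqrt_nonneg _)
  · intro m hm
    refine hE m fun x hyx hxr w hw q hq => ?_
    have hqQ : q ∈ QQ := (hQm q).2 hq
    have h1 : ∀ T ∈ P, |∑ k ∈ range x, w k * ∏ i : Fin s, (if i ∈ T then F (q i) (pr (k + i)) m - M (q i) (pr (k + i))
        else M (q i) (pr (k + i)))| ≤ Real.sqrt (max 1 (∑ k ∈ range x, w k ^ 2)) * (x : ℝ) ^ (δ / 2) := by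
      intro T hT
      have h2 := hm x (by omega) (by omega) hxr (w, (q, T)) (by
        rw [mem_product, mem_product, Set.Finite.mem_toFinset]
        exact ⟨hw, hqQ, hT⟩)
      simp only [if_pos hqQ] at h2
      exact h2
    have h3 : ∑ k ∈ range x, w k * ∏ e : Fin s, F (q e) (pr (k + e)) m - ∑ k ∈ range x, w k * ∏ e : Fin s, M (q e) (pr (k + e)) =
        ∑ T ∈ P, ∑ k ∈ range x, w k * ∏ i : Fin s, (if i ∈ T then F (q i) (pr (k + i)) m - M (q i) (pr (k + i))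
        else M (q i) (pr (k + i))) := by
      rw [sum_comm, ← sum_sub_distrib]
      refine sum_congr rfl fun k _ => ?_
      rw [← mul_sub, ← mul_sum]
      congr 1
      have e1 : ∏ e : Fin s, F (q e) (pr (k + e)) m = ∑ T : Finset (Fin s), ∏ i : Fin s,
          (if i ∈ T then F (q i) (pr (k + i)) m - M (q i) (pr (k + i)) else M (q i) (pr (k + i))) := by
        have e2 : ∏ e : Fin s, F (q e) (pr (k + e)) m =
            ∏ e : Fin s, ((F (q e) (pr (k + e)) m - M (q e) (pr (k + e))) + M (q e) (pr (k + e))) :=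
          prod_congr rfl fun e _ => by ring
        rw [e2, prod_add, powerset_univ]
        refine sum_congr rfl fun T _ => ?_
        rw [prod_ite, filter_mem_eq_inter, univ_inter]
        congr 1
        refine prod_congr ?_ fun _ _ => rfl
        ext i
        simp
      rw [e1, hP]
      have e3 : (univ : Finset (Finset (Fin s))) = insert ∅ (univ.filter (fun T => T.Nonempty)) := by
        ext T
        simp only [mem_univ, mem_insert, mem_filter, true_and, true_iff]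
        exact T.eq_empty_or_nonempty
      rw [e3, sum_insert (by simp)]
      have e4 : ∏ i : Fin s, (if i ∈ (∅ : Finset (Fin s)) then F (q i) (pr (k + i)) m - M (q i) (pr (k + i))
          else M (q i) (pr (k + i))) = ∏ e : Fin s, M (q e) (pr (k + e)) :=
        prod_congr rfl fun i _ => if_neg (notMem_empty i)
      rw [e4, ← e3]
      ring
    rw [h3]
    refine (abs_sum_le_sum_abs _ _).trans ((sum_le_sum h1).trans ?_)
    rw [sum_const, nsmul_eq_mul]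
    have hx0 : (0 : ℝ) < x := by exact_mod_cast (by omega : 0 < x)
    have e5 : (x : ℝ) ^ δ = (x : ℝ) ^ (δ / 2) * (x : ℝ) ^ (δ / 2) := by
      rw [← Real.rpow_add hx0]
      congr 1
      ring
    have e6 : (P.card : ℝ) ≤ (x : ℝ) ^ (δ / 2) := by
      refine le_trans ?_ (hx₀ x (by omega))
      exact_mod_cast hPc
    rw [e5]
    calc (P.card : ℝ) * (Real.sqrt (max 1 (∑ k ∈ range x, w k ^ 2)) * (x : ℝ) ^ (δ / 2)) ≤
        (x : ℝ) ^ (δ / 2) * (Real.sqrt (max 1 (∑ k ∈ range x, w k ^ 2)) * (x : ℝ) ^ (δ / 2)) :=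
          mul_le_mul_of_nonneg_right e6 (by positivity)
      _ = _ := by ring

end Pool.Agent.N842.ST
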