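import Pool.Agent.Y57.FD.Mom

/-!
# The moments of the sums of independent values of a function with small mean
-/

set_option autoImplicit false

namespace Pool.Agent.N842.ST

open Finset
open Pool.Agent.Y57.FD.Mom (normal pow_err choose_dfac)

/-- the main terms -/
noncomputable def mn (m : ℕ) (κ : ℝ) (N : ℝ) : ℝ := normal m * (κ * N) ^ (m / 2)

lemma normal_zero : normal 0 = 1 := by
  unfold normal
  simp

lemma normal_nonneg (m : ℕ) : 0 ≤ normal m := by
  unfold normal
  split_ifs <;> positivity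

lemma mn_odd (m : ℕ) (hm : Odd m) (κ N : ℝ) : mn m κ N = 0 := by
  unfold mn normal
  rw [if_neg (Nat.not_even_iff_odd.2 hm), zero_mul]

lemma mn_even (k : ℕ) (κ N : ℝ) : mn (2 * k) κ N = (Nat.doubleFactorial (2 * k - 1) : ℝ) * (κ * N) ^ k := by
  unfold mn normal
  rw [if_pos (even_two_mul k), Nat.mul_div_cancel_left k (by norm_num)]

lemma mn_step (m : ℕ) (L : ℝ) (hL : 0 ≤ L) : ∃ B : ℝ, 0 ≤ B ∧ ∀ s : ℝ, 1 ≤ s → ∀ κ : ℝ, 0 ≤ κ → κ ≤ L → ∀ N : ℝ, 0 ≤ N → N ≤ s ^ 2 →
    |((m + 2).choose 2 : ℝ) * κ * mn m κ N - (mn (m + 2) κ (N + 1) - mn (m + 2) κ N)| ≤ B * (s ^ (m + 2) / s ^ 4) := by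
  rcases Nat.even_or_odd m with hm | hm
  · obtain ⟨k, hk⟩ := hm
    obtain ⟨B, hB, hBe⟩ := pow_err k
    refine ⟨(Nat.doubleFactorial (2 * (k + 1) - 1) : ℝ) * L ^ (k + 1) * B, by positivity, fun s hs κ hκ0 hκ N hN0 hN => ?_⟩
    have hs0 : 0 < s := by linarith
    have hm2 : m = 2 * k := by omega
    have h1 := hBe (s ^ 2) (by nlinarith) N hN0 hN
    rw [hm2, show 2 * k + 2 = 2 * (k + 1) by ring, mn_even, mn_even, mn_even]
    have h8 := choose_dfac k
    have h2 : ((2 * (k + 1)).choose 2 : ℝ) * κ * ((Nat.doubleFactorial (2 * k - 1) : ℝ) * (κ * N) ^ k) -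
        ((Nat.doubleFactorial (2 * (k + 1) - 1) : ℝ) * (κ * (N + 1)) ^ (k + 1) - (Nat.doubleFactorial (2 * (k + 1) - 1) : ℝ) * (κ * N) ^ (k + 1)) =
        - ((Nat.doubleFactorial (2 * (k + 1) - 1) : ℝ) * κ ^ (k + 1) * ((N + 1) ^ (k + 1) - N ^ (k + 1) - (k + 1) * N ^ k)) := by
      rw [mul_pow, mul_pow, mul_pow]
      linear_combination (κ ^ (k + 1) * N ^ k) * h8
    rw [h2, abs_neg, abs_mul, abs_of_nonneg (by positivity : (0 : ℝ) ≤ (Nat.doubleFactorial (2 * (k + 1) - 1) : ℝ) * κ ^ (k + 1))]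
    have h3 : κ ^ (k + 1) ≤ L ^ (k + 1) := pow_le_pow_left₀ hκ0 hκ _
    have h4 : B * (s ^ 2) ^ (k + 1) / (s ^ 2) ^ 2 = B * (s ^ (2 * (k + 1)) / s ^ 4) := by
      rw [← pow_mul, ← pow_mul]
      ring
    rw [h4] at h1
    calc (Nat.doubleFactorial (2 * (k + 1) - 1) : ℝ) * κ ^ (k + 1) * |(N + 1) ^ (k + 1) - N ^ (k + 1) - (k + 1) * N ^ k| ≤
        (Nat.doubleFactorial (2 * (k + 1) - 1) : ℝ) * L ^ (k + 1) * (B * (s ^ (2 * (k + 1)) / s ^ 4)) := by
          apply mul_le_mul _ h1 (abs_nonneg _) (by positivity)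
          exact mul_le_mul_of_nonneg_left h3 (by positivity)
      _ = _ := by ring
  · refine ⟨0, le_rfl, fun s hs κ hκ0 hκ N hN0 hN => ?_⟩
    rw [mn_odd m hm, mn_odd (m + 2) (by
      obtain ⟨k, hk⟩ := hm
      exact ⟨k + 1, by omega⟩), mn_odd (m + 2) (by
      obtain ⟨k, hk⟩ := hm
      exact ⟨k + 1, by omega⟩)]
    simp

/-- the moments are asymptotically the moments of a normal variable -/
theorem grow (L : ℝ) (hL : 1 ≤ L) (m : ℕ) : ∃ C : ℝ, 0 ≤ C ∧ ∀ s : ℝ, 1 ≤ s → ∀ κ : ℝ, 0 ≤ κ → κ ≤ L →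
    ∀ (A : ℕ → ℕ → ℝ) (e : ℕ → ℝ), (∀ N, A 0 N = 1) → (∀ m, 1 ≤ m → A m 0 = 0) →
    (∀ m N, A m (N + 1) = ∑ j ∈ range (m + 1), (m.choose j : ℝ) * e j * A (m - j) N) →
    e 0 = 1 → e 1 = 0 → e 2 = κ * (1 - 1 / s ^ 2) → (∀ j, |e j| ≤ L ^ j) →
    ∀ N : ℕ, (N : ℝ) ≤ s ^ 2 → |A m N - mn m κ N| ≤ C * (s ^ m / s) := by
  induction m using Nat.strong_induction_on with
  | _ m ih =>
    have hL0 : 0 ≤ L := by linarith
    rcases (by omega : m = 0 ∨ m = 1 ∨ 2 ≤ m) with h0 | h1 | h2
    · refine ⟨0, le_rfl, fun s hs κ hκ0 hκ A e hA0 _ _ _ _ _ _ N _ => ?_⟩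
      rw [h0, hA0]
      unfold mn
      rw [normal_zero]
      simp
    · refine ⟨0, le_rfl, fun s hs κ hκ0 hκ A e hA0 hA00 hrec he0 he1 _ _ N _ => ?_⟩
      have h2 : ∀ N, A 1 N = 0 := by
        intro N
        induction N with
        | zero => exact hA00 1 le_rfl
        | succ N ihN =>
          rw [hrec, sum_range_succ, sum_range_succ, range_zero, sum_empty, he1, he0]
          simp [ihN]
      rw [h1, h2, mn_odd 1 (by decide)]
      simp
    · obtain ⟨m, rfl⟩ : ∃ j, m = j + 2 := ⟨m - 2, by omega⟩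
      have hch : ∀ j : ℕ, ∃ C : ℝ, 0 ≤ C ∧ (j < m + 2 → ∀ s : ℝ, 1 ≤ s → ∀ κ : ℝ, 0 ≤ κ → κ ≤ L →
          ∀ (A : ℕ → ℕ → ℝ) (e : ℕ → ℝ), (∀ N, A 0 N = 1) → (∀ m, 1 ≤ m → A m 0 = 0) →
          (∀ m N, A m (N + 1) = ∑ j ∈ range (m + 1), (m.choose j : ℝ) * e j * A (m - j) N) →
          e 0 = 1 → e 1 = 0 → e 2 = κ * (1 - 1 / s ^ 2) → (∀ j, |e j| ≤ L ^ j) →
          ∀ N : ℕ, (N : ℝ) ≤ s ^ 2 → |A j N - mn j κ N| ≤ C * (s ^ j / s)) := by
        intro j
        by_cases hj : j < m + 2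
        · obtain ⟨C, hC, h⟩ := ih j hj
          exact ⟨C, hC, fun _ => h⟩
        · exact ⟨0, le_rfl, fun h => absurd h hj⟩
      choose C hC0 hC using hch
      obtain ⟨B, hB0, hB⟩ := mn_step m L hL0
      obtain ⟨D, hD⟩ : ∃ D : ℕ → ℝ, D = fun j => normal j * L ^ (j / 2) + C j := ⟨_, rfl⟩
      have hD0 : ∀ j, 0 ≤ D j := by
        intro j
        rw [hD]
        have := hC0 j
        have := normal_nonneg j
        positivity
      obtain ⟨E, hE⟩ : ∃ E : ℝ, E = ∑ i ∈ range m, ((m + 2).choose (i + 3) : ℝ) * L ^ (i + 3) * D (m + 2 - (i + 3)) +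
        ((m + 2).choose 2 : ℝ) * L * C m + ((m + 2).choose 2 : ℝ) * L * D m + B := ⟨_, rfl⟩
      have hS0 : 0 ≤ ∑ i ∈ range m, ((m + 2).choose (i + 3) : ℝ) * L ^ (i + 3) * D (m + 2 - (i + 3)) :=
        sum_nonneg fun i _ => mul_nonneg (by positivity) (hD0 _)
      have hE0 : 0 ≤ E := by
        rw [hE]
        have h1 := hC0 m
        have h2 := hD0 m
        positivity
      refine ⟨E, hE0, fun s hs κ hκ0 hκ A e hA0 hA00 hrec he0 he1 he2 heb => ?_⟩
      have hs0 : 0 < s := by linarith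
      have hs1 : 1 ≤ s ^ 2 := by nlinarith
      have hAb : ∀ j, j < m + 2 → ∀ N : ℕ, (N : ℝ) ≤ s ^ 2 → |A j N| ≤ D j * s ^ j := by
        intro j hj N hN
        have h1 := hC j hj s hs κ hκ0 hκ A e hA0 hA00 hrec he0 he1 he2 heb N hN
        have h2 : |mn j κ N| ≤ normal j * L ^ (j / 2) * s ^ j := by
          have hn := normal_nonneg j
          unfold mn
          rw [abs_of_nonneg (by positivity), mul_assoc]
          apply mul_le_mul_of_nonneg_left _ hn
          calc (κ * (N : ℝ)) ^ (j / 2) ≤ (L * s ^ 2) ^ (j / 2) := by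
                apply pow_le_pow_left₀ (by positivity)
                exact mul_le_mul hκ hN (by positivity) hL0
            _ = L ^ (j / 2) * s ^ (2 * (j / 2)) := by rw [mul_pow, ← pow_mul]
            _ ≤ L ^ (j / 2) * s ^ j := by
                apply mul_le_mul_of_nonneg_left _ (by positivity)
                exact pow_le_pow_right₀ hs (by omega)
        have h3 : C j * (s ^ j / s) ≤ C j * s ^ j := by
          apply mul_le_mul_of_nonneg_left _ (hC0 j)
          exact div_le_self (by positivity) hs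
        have h4 : |A j N| ≤ |A j N - mn j κ N| + |mn j κ N| := by
          have := abs_add_le (A j N - mn j κ N) (mn j κ N)
          rwa [sub_add_cancel] at this
        rw [hD]
        show |A j N| ≤ (normal j * L ^ (j / 2) + C j) * s ^ j
        rw [add_mul]
        linarith
      -- the increments
      have hinc : ∀ N : ℕ, (N : ℝ) ≤ s ^ 2 → |A (m + 2) (N + 1) - A (m + 2) N - (mn (m + 2) κ (N + 1) - mn (m + 2) κ N)| ≤
          E * (s ^ (m + 2) / s ^ 3) := by
        intro N hN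
        have h1 : A (m + 2) (N + 1) - A (m + 2) N - (mn (m + 2) κ (N + 1) - mn (m + 2) κ N) =
            ∑ i ∈ range m, ((m + 2).choose (i + 3) : ℝ) * e (i + 3) * A (m + 2 - (i + 3)) N +
            ((m + 2).choose 2 : ℝ) * κ * (A m N - mn m κ N) - ((m + 2).choose 2 : ℝ) * κ * (A m N / s ^ 2) +
            (((m + 2).choose 2 : ℝ) * κ * mn m κ N - (mn (m + 2) κ (N + 1) - mn (m + 2) κ N)) := by
          rw [hrec, sum_range_succ', sum_range_succ', sum_range_succ']
          simp only [zero_add, Nat.choose_zero_right, Nat.cast_one, he0, he1, he2, mul_zero, zero_mul, add_zero, Nat.sub_zero, one_mul,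
            Nat.reduceAdd, Nat.add_sub_cancel]
          ring
        have h2 : |∑ i ∈ range m, ((m + 2).choose (i + 3) : ℝ) * e (i + 3) * A (m + 2 - (i + 3)) N| ≤
            (∑ i ∈ range m, ((m + 2).choose (i + 3) : ℝ) * L ^ (i + 3) * D (m + 2 - (i + 3))) * (s ^ (m + 2) / s ^ 3) := by
          rw [sum_mul]
          refine (abs_sum_le_sum_abs _ _).trans (sum_le_sum fun i hi => ?_)
          rw [mem_range] at hi
          rw [abs_mul, abs_mul, Nat.abs_cast]
          have e1 := heb (i + 3)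
          have hstep : s ^ (m + 2 - (i + 3)) ≤ s ^ (m + 2) / s ^ 3 := by
            rw [le_div_iff₀ (by positivity), ← pow_add]
            exact pow_le_pow_right₀ hs (by omega)
          have e2 : |A (m + 2 - (i + 3)) N| ≤ D (m + 2 - (i + 3)) * (s ^ (m + 2) / s ^ 3) := by
            refine (hAb (m + 2 - (i + 3)) (by omega) N hN).trans ?_
            exact mul_le_mul_of_nonneg_left hstep (hD0 _)
          calc ((m + 2).choose (i + 3) : ℝ) * |e (i + 3)| * |A (m + 2 - (i + 3)) N| ≤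
              ((m + 2).choose (i + 3) : ℝ) * L ^ (i + 3) * (D (m + 2 - (i + 3)) * (s ^ (m + 2) / s ^ 3)) := by
                apply mul_le_mul _ e2 (abs_nonneg _) (by positivity)
                exact mul_le_mul_of_nonneg_left e1 (by positivity)
            _ = _ := by ring
        have h3 : |((m + 2).choose 2 : ℝ) * κ * (A m N - mn m κ N)| ≤ ((m + 2).choose 2 : ℝ) * L * C m * (s ^ (m + 2) / s ^ 3) := by
          rw [abs_mul, abs_of_nonneg (by positivity : (0 : ℝ) ≤ ((m + 2).choose 2 : ℝ) * κ), mul_assoc (((m + 2).choose 2 : ℝ) * L)]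
          apply mul_le_mul
          · exact mul_le_mul_of_nonneg_left hκ (by positivity)
          · refine (hC m (by omega) s hs κ hκ0 hκ A e hA0 hA00 hrec he0 he1 he2 heb N hN).trans (le_of_eq ?_)
            field_simp
            ring
          · exact abs_nonneg _
          · positivity
        have h4 : |((m + 2).choose 2 : ℝ) * κ * (A m N / s ^ 2)| ≤ ((m + 2).choose 2 : ℝ) * L * D m * (s ^ (m + 2) / s ^ 3) := by
          rw [abs_mul, abs_of_nonneg (by positivity : (0 : ℝ) ≤ ((m + 2).choose 2 : ℝ) * κ), mul_assoc (((m + 2).choose 2 : ℝ) * L)]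
          apply mul_le_mul
          · exact mul_le_mul_of_nonneg_left hκ (by positivity)
          · rw [abs_div, abs_of_pos (by positivity : 0 < s ^ 2), div_le_iff₀ (by positivity)]
            refine (hAb m (by omega) N hN).trans ?_
            rw [mul_assoc]
            apply mul_le_mul_of_nonneg_left _ (hD0 m)
            rw [div_mul_eq_mul_div, le_div_iff₀ (by positivity), ← pow_add, ← pow_add]
            exact pow_le_pow_right₀ hs (by omega)
          · exact abs_nonneg _
          · positivity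
        have h5 : |((m + 2).choose 2 : ℝ) * κ * mn m κ N - (mn (m + 2) κ (N + 1) - mn (m + 2) κ N)| ≤ B * (s ^ (m + 2) / s ^ 3) := by
          refine (hB s hs κ hκ0 hκ N (Nat.cast_nonneg N) hN).trans ?_
          apply mul_le_mul_of_nonneg_left _ hB0
          apply div_le_div_of_nonneg_left (by positivity) (by positivity)
          exact pow_le_pow_right₀ hs (by norm_num)
        rw [h1, hE]
        obtain ⟨T, hT⟩ : ∃ T : ℝ, T = s ^ (m + 2) / s ^ 3 := ⟨_, rfl⟩
        rw [← hT] at h2 h3 h4 h5 ⊢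
        refine (abs_add_le _ _).trans ?_
        refine (add_le_add (abs_sub _ _) le_rfl).trans ?_
        refine (add_le_add (add_le_add (abs_add_le _ _) le_rfl) le_rfl).trans ?_
        rw [add_mul, add_mul, add_mul]
        linarith
      -- sum up
      have hsum : ∀ N : ℕ, (N : ℝ) ≤ s ^ 2 → |A (m + 2) N - mn (m + 2) κ N| ≤ N * (E * (s ^ (m + 2) / s ^ 3)) := by
        intro N
        induction N with
        | zero =>
          intro _
          rw [hA00 _ (by omega)]
          unfold mn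
          rw [Nat.cast_zero, mul_zero, zero_pow (by omega)]
          simp
        | succ N ihN =>
          intro hN
          push_cast at hN ⊢
          have h1 := ihN (by linarith)
          have h2 := hinc N (by linarith)
          have h3 : A (m + 2) (N + 1) - mn (m + 2) κ (N + 1) =
              (A (m + 2) N - mn (m + 2) κ N) + (A (m + 2) (N + 1) - A (m + 2) N - (mn (m + 2) κ (N + 1) - mn (m + 2) κ N)) := by ring
          rw [h3]
          refine (abs_add_le _ _).trans ((add_le_add h1 h2).trans (le_of_eq ?_))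
          ring
      intro N hN
      refine (hsum N hN).trans ?_
      calc (N : ℝ) * (E * (s ^ (m + 2) / s ^ 3)) ≤ s ^ 2 * (E * (s ^ (m + 2) / s ^ 3)) :=
            mul_le_mul_of_nonneg_right hN (by positivity)
        _ = E * (s ^ (m + 2) / s) := by
            field_simp

end Pool.Agent.N842.ST
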