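import Pool.Agent.N842.ST.Ind
import Pool.Agent.N842.ST.Grow

/-!
# The joint moments of the normalised sums over the closed points
-/

set_option autoImplicit false

namespace Pool.Agent.N842.ST

open Finset Polynomial
open Pool.Agent.Y57.FD.Mom (normal)

attribute [local instance] gfFin

section
variable (E : Type) [Fintype E] [Nonempty E] (ν : E → ℝ)

/-- the mean of `ν ^ j` -/
noncomputable def eg (j : ℕ) : ℝ := (∑ c : E, ν c ^ j) / (Fintype.card E : ℝ)

omit [Nonempty E] in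
theorem Mg_N_zero (m : ℕ) (hm : 1 ≤ m) : Mg E ν m 0 = 0 := by
  unfold Mg
  simp [show m ≠ 0 by omega]

theorem Mg_zero (N : ℕ) : Mg E ν 0 N = 1 := by
  unfold Mg
  have hq : (0 : ℝ) < Fintype.card E := by exact_mod_cast Fintype.card_pos
  simp only [pow_zero, sum_const, card_univ, nsmul_eq_mul, mul_one, Fintype.card_pi_const]
  push_cast
  exact div_self (by positivity)

theorem eg_zero : eg E ν 0 = 1 := by
  unfold eg
  have hq : (0 : ℝ) < Fintype.card E := by exact_mod_cast Fintype.card_pos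
  simp only [pow_zero, sum_const, card_univ, nsmul_eq_mul, mul_one]
  exact div_self hq.ne'

theorem Mg_succ (m N : ℕ) : Mg E ν m (N + 1) = ∑ j ∈ range (m + 1), (m.choose j : ℝ) * eg E ν j * Mg E ν (m - j) N := by
  have hq : (0 : ℝ) < Fintype.card E := by exact_mod_cast Fintype.card_pos
  unfold Mg eg
  have h1 : (∑ w : Fin (N + 1) → E, (∑ i, ν (w i)) ^ m) = ∑ c : E, ∑ w : Fin N → E, (ν c + ∑ i, ν (w i)) ^ m := by
    rw [← Fintype.sum_prod_type' (f := fun (c : E) (w : Fin N → E) => (ν c + ∑ i, ν (w i)) ^ m)]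
    refine (Fintype.sum_equiv (Fin.consEquiv (fun _ : Fin (N + 1) => E)) _ _ ?_).symm
    intro x
    rw [Fin.sum_univ_succ]
    simp [Fin.consEquiv]
  rw [h1]
  have h2 : ∀ (c : E) (w : Fin N → E), (ν c + ∑ i, ν (w i)) ^ m =
      ∑ j ∈ range (m + 1), ν c ^ j * (∑ i, ν (w i)) ^ (m - j) * (m.choose j : ℝ) := by
    intro c w
    rw [add_pow]
  simp only [h2]
  have h3 : ∑ c : E, ∑ w : Fin N → E, ∑ j ∈ range (m + 1), ν c ^ j * (∑ i, ν (w i)) ^ (m - j) * (m.choose j : ℝ) =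
      ∑ j ∈ range (m + 1), (m.choose j : ℝ) * (∑ c : E, ν c ^ j) * (∑ w : Fin N → E, (∑ i, ν (w i)) ^ (m - j)) := by
    rw [sum_congr rfl (fun c _ => sum_comm), sum_comm]
    apply sum_congr rfl
    intro j _
    rw [mul_assoc, sum_mul_sum, mul_sum]
    apply sum_congr rfl
    intro c _
    rw [mul_sum]
    apply sum_congr rfl
    intro w _
    ring
  rw [h3, sum_div]
  apply sum_congr rfl
  intro j _
  rw [pow_succ]
  field_simp

end

/-- the variance -/
noncomputable def kap (p l k : ℕ) : ℝ := if l ∣ p ^ k - 1 then (l : ℝ) - 1 else 0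

lemma kap_nonneg (p : ℕ) {l : ℕ} (hl : l.Prime) (k : ℕ) : 0 ≤ kap p l k := by
  unfold kap
  have : (2 : ℝ) ≤ l := by exact_mod_cast hl.two_le
  split_ifs <;> linarith

lemma kap_le (p : ℕ) {l : ℕ} (hl : l.Prime) (k : ℕ) : kap p l k ≤ l := by
  unfold kap
  have : (2 : ℝ) ≤ l := by exact_mod_cast hl.two_le
  split_ifs <;> linarith

lemma eg_one (p : ℕ) [hp : Fact p.Prime] (l k : ℕ) : eg (GaloisField p k) (nu l) 1 = 0 := by
  unfold eg
  simp only [pow_one]
  rw [sum_nu, zero_div]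

lemma eg_two (p : ℕ) [hp : Fact p.Prime] (l : ℕ) (hl : l.Prime) (k : ℕ) (hk : k ≠ 0) :
    eg (GaloisField p k) (nu l) 2 = kap p l k * (1 - 1 / (p : ℝ) ^ k) := by
  classical
  have hpk : (0 : ℝ) < (p : ℝ) ^ k := by
    have := hp.out.pos
    positivity
  unfold eg kap
  by_cases h : l ∣ p ^ k - 1
  · rw [if_pos h]
    have h1 : ∀ z : GaloisField p k, nu l z ^ 2 = ((l : ℝ) - 2) * nu l z + ((l : ℝ) - 1) * (1 - if z = 0 then 1 else 0) := by
      intro z
      by_cases hz : z = 0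
      · rw [hz, nu_zero hl.ne_zero, if_pos rfl]
        ring
      · rw [if_neg hz]
        rcases nu_of_dvd (l := l) hl (by rw [card_gf p k hk]; exact h) z hz with ⟨_, h1⟩ | ⟨_, h1⟩
        · rw [h1]
          ring
        · rw [h1]
          ring
    rw [sum_congr rfl (fun z _ => h1 z), sum_add_distrib, ← mul_sum, ← mul_sum, sum_nu, sum_sub_distrib,
      sum_ite_eq' univ (0 : GaloisField p k) (fun _ => (1 : ℝ)), if_pos (mem_univ _), sum_const, card_univ, nsmul_eq_mul, mul_one,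
      card_gf p k hk]
    push_cast
    field_simp
    ring
  · rw [if_neg h]
    have h1 : ∀ z : GaloisField p k, nu l z ^ 2 = 0 := by
      intro z
      rw [cop_of p hl k hk h z]
      norm_num
    rw [sum_congr rfl (fun z _ => h1 z)]
    simp

lemma eg_le (p : ℕ) [hp : Fact p.Prime] (l : ℕ) (hl : l.Prime) (k j : ℕ) : |eg (GaloisField p k) (nu l) j| ≤ (l : ℝ) ^ j := by
  have hq : (0 : ℝ) < Fintype.card (GaloisField p k) := by exact_mod_cast Fintype.card_pos
  unfold eg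
  rw [abs_div, abs_of_pos hq, div_le_iff₀ hq]
  refine (abs_sum_le_sum_abs _ _).trans ((sum_le_sum (g := fun _ => (l : ℝ) ^ j) fun c _ => ?_).trans (le_of_eq ?_))
  · rw [abs_pow]
    exact pow_le_pow_left₀ (abs_nonneg _) (abs_nu_le hl c) j
  · rw [sum_const, card_univ, nsmul_eq_mul, mul_comm]

/-- the moments of the sum over the closed points -/
theorem Mg_growth (l : ℕ) (hl : l.Prime) (m : ℕ) : ∃ C : ℝ, 0 ≤ C ∧ ∀ (p : ℕ) [hp : Fact p.Prime] (k : ℕ), k ≠ 0 →
    |Mg (GaloisField p k) (nu l) m (Irr p k).card - mn m (kap p l k) (Irr p k).card| ≤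
      C * ((Real.sqrt p ^ k) ^ m / Real.sqrt p ^ k) := by
  obtain ⟨C, hC0, hC⟩ := grow l (by exact_mod_cast hl.one_lt.le) m
  refine ⟨C, hC0, fun p hp k hk => ?_⟩
  have hs : 1 ≤ Real.sqrt p ^ k := one_le_pow₀ (one_le_s p)
  have hsq : (Real.sqrt p ^ k) ^ 2 = (p : ℝ) ^ k := by
    rw [← pow_mul, mul_comm, ← s_pow]
  refine hC (Real.sqrt p ^ k) hs (kap p l k) (kap_nonneg p hl k) (kap_le p hl k) (Mg (GaloisField p k) (nu l))
    (eg (GaloisField p k) (nu l)) (Mg_zero _ _) (Mg_N_zero _ _) (Mg_succ _ _) (eg_zero _ _) (eg_one p l k) ?_ (eg_le p l hl k) _ ?_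
  · rw [hsq]
    exact eg_two p l hl k hk
  · rw [hsq]
    exact_mod_cast card_Irr_le' p k hk

/-- the main terms of the normalised moments -/
noncomputable def m0 (k : ℕ) (κ : ℝ) (m : ℕ) : ℝ := normal m * ((k : ℝ) * κ) ^ (m / 2)

lemma m0_nonneg (k : ℕ) (κ : ℝ) (hκ : 0 ≤ κ) (m : ℕ) : 0 ≤ m0 k κ m := by
  unfold m0
  have := normal_nonneg m
  positivity

lemma m0_le (k : ℕ) (κ L : ℝ) (hκ : 0 ≤ κ) (hL : κ ≤ L) (m : ℕ) : m0 k κ m ≤ m0 k L m := by
  unfold m0
  apply mul_le_mul_of_nonneg_left _ (normal_nonneg m)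
  apply pow_le_pow_left₀ (by positivity)
  exact mul_le_mul_of_nonneg_left hL (by positivity)

theorem fac (l : ℕ) (hl : l.Prime) (k : ℕ) (hk : k ≠ 0) (m : ℕ) : ∃ C : ℝ, 0 ≤ C ∧ ∀ (p : ℕ) [hp : Fact p.Prime],
    |((k : ℝ) / Real.sqrt p ^ k) ^ m * Mg (GaloisField p k) (nu l) m (Irr p k).card - m0 k (kap p l k) m| ≤ C / Real.sqrt p := by
  obtain ⟨C, hC0, hC⟩ := Mg_growth l hl m
  have hl2 : (2 : ℝ) ≤ l := by exact_mod_cast hl.two_le
  have hm0 : 0 ≤ m0 k l m := m0_nonneg k l (by linarith) m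
  refine ⟨(k : ℝ) ^ m * C + m0 k l m * (m * k), by positivity, fun p hp => ?_⟩
  have hs := one_le_s p
  have hs0 : 0 < Real.sqrt p := by linarith
  have hκ0 := kap_nonneg p hl k
  have hκ := kap_le p hl k
  have hsk : Real.sqrt p ≤ Real.sqrt p ^ k := le_self_pow₀ hs hk
  have hsq : (Real.sqrt p ^ k) ^ 2 = (p : ℝ) ^ k := by
    rw [← pow_mul, mul_comm, ← s_pow]
  obtain ⟨t, ht⟩ : ∃ t : ℝ, t = Real.sqrt p ^ k := ⟨_, rfl⟩
  have h1 := hC p k hk
  rw [← ht] at h1 hsk hsq ⊢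
  have ht0 : 0 < t := by linarith
  obtain ⟨N, hN⟩ : ∃ N : ℝ, N = ((Irr p k).card : ℝ) := ⟨_, rfl⟩
  have hN0 : 0 ≤ N := by rw [hN]; positivity
  have hNle := card_Irr_le p k hk
  have hNerr := card_Irr_err p k hk
  rw [← hN] at h1 hNle hNerr
  rw [← ht] at hNerr
  -- the first difference
  have h2 : |((k : ℝ) / t) ^ m * Mg (GaloisField p k) (nu l) m (Irr p k).card - ((k : ℝ) / t) ^ m * mn m (kap p l k) N| ≤
      (k : ℝ) ^ m * C / Real.sqrt p := by
    rw [← mul_sub, abs_mul, abs_of_nonneg (by positivity : 0 ≤ ((k : ℝ) / t) ^ m), div_pow]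
    calc (k : ℝ) ^ m / t ^ m * |Mg (GaloisField p k) (nu l) m (Irr p k).card - mn m (kap p l k) N| ≤
        (k : ℝ) ^ m / t ^ m * (C * (t ^ m / t)) := mul_le_mul_of_nonneg_left h1 (by positivity)
      _ = (k : ℝ) ^ m * C / t := by field_simp
      _ ≤ (k : ℝ) ^ m * C / Real.sqrt p := div_le_div_of_nonneg_left (by positivity) hs0 hsk
  -- the second difference
  have h3 : |((k : ℝ) / t) ^ m * mn m (kap p l k) N - m0 k (kap p l k) m| ≤ m0 k l m * (m * k) / Real.sqrt p := by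
    rcases Nat.even_or_odd m with hm | hm
    · obtain ⟨i, hi⟩ := hm
      have hi2 : m / 2 = i := by omega
      have hpk : (0 : ℝ) < (p : ℝ) ^ k := by
        have := hp.out.pos
        positivity
      obtain ⟨x, hx⟩ : ∃ x : ℝ, x = (k : ℝ) * N / (p : ℝ) ^ k := ⟨_, rfl⟩
      have hx0 : 0 ≤ x := by rw [hx]; positivity
      have hx1 : x ≤ 1 := by
        rw [hx, div_le_one hpk]
        exact hNle
      have hx2 : 1 - x ≤ k / Real.sqrt p := by
        have e1 : 1 - x = -((k : ℝ) * N - (p : ℝ) ^ k) / (p : ℝ) ^ k := by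
          rw [hx]
          field_simp
          ring
        have e2 : -((k : ℝ) * N - (p : ℝ) ^ k) ≤ k * t := (neg_le_abs _).trans hNerr
        rw [e1, div_le_div_iff₀ hpk hs0, ← hsq]
        rw [← hsq] at e2
        calc -((k : ℝ) * N - t ^ 2) * Real.sqrt p ≤ (k * t) * Real.sqrt p := mul_le_mul_of_nonneg_right e2 hs0.le
          _ ≤ (k * t) * t := mul_le_mul_of_nonneg_left hsk (by positivity)
          _ = k * t ^ 2 := by ring
      have h4 : ((k : ℝ) / t) ^ m * mn m (kap p l k) N - m0 k (kap p l k) m = - (m0 k (kap p l k) m * (1 - x ^ i)) := by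
        unfold mn m0
        rw [hi2, hx, ← hsq]
        have e3 : ((k : ℝ) / t) ^ m = ((k : ℝ) / t) ^ i * ((k : ℝ) / t) ^ i := by rw [← pow_add, ← hi]
        rw [e3]
        have e4 : ((k : ℝ) / t) ^ i * ((k : ℝ) / t) ^ i * (normal m * (kap p l k * N) ^ i) =
            normal m * (k * kap p l k) ^ i * (k * N / t ^ 2) ^ i := by
          have e5 : ((k : ℝ) / t) ^ i * ((k : ℝ) / t) ^ i * (kap p l k * N) ^ i = (k * kap p l k) ^ i * (k * N / t ^ 2) ^ i := by
            rw [← mul_pow, ← mul_pow, ← mul_pow]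
            congr 1
            field_simp
          linear_combination (normal m) * e5
        rw [e4]
        ring
      have h5 : 1 - x ^ i ≤ i * (1 - x) := by
        have e5 := one_add_mul_le_pow (a := x - 1) (by linarith) i
        rw [add_sub_cancel] at e5
        linarith
      have h6 : 0 ≤ 1 - x ^ i := by
        have := pow_le_one₀ hx0 hx1 (n := i)
        linarith
      have hm1 := m0_nonneg k (kap p l k) hκ0 m
      have hm2 := m0_le k (kap p l k) l hκ0 hκ m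
      rw [h4, abs_neg, abs_of_nonneg (by positivity)]
      calc m0 k (kap p l k) m * (1 - x ^ i) ≤ m0 k l m * (m * (k / Real.sqrt p)) := by
            apply mul_le_mul hm2 _ h6 hm0
            refine h5.trans ?_
            apply mul_le_mul _ hx2 (by linarith) (by positivity)
            exact_mod_cast (by omega : i ≤ m)
        _ = _ := by ring
    · have e1 : normal m = 0 := by
        unfold Pool.Agent.Y57.FD.Mom.normal
        rw [if_neg (Nat.not_even_iff_odd.2 hm)]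
      unfold mn m0
      rw [e1]
      simp
  have h7 : ((k : ℝ) ^ m * C + m0 k l m * (m * k)) / Real.sqrt p = (k : ℝ) ^ m * C / Real.sqrt p + m0 k l m * (m * k) / Real.sqrt p := by
    ring
  rw [h7]
  have h8 := abs_add_le (((k : ℝ) / t) ^ m * Mg (GaloisField p k) (nu l) m (Irr p k).card - ((k : ℝ) / t) ^ m * mn m (kap p l k) N)
    (((k : ℝ) / t) ^ m * mn m (kap p l k) N - m0 k (kap p l k) m)
  rw [sub_add_sub_cancel] at h8
  linarith

/-- products of numbers which are close to each other -/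
lemma prod_diff {ι : Type} (s : Finset ι) (x y : ι → ℝ) (M : ℝ) (hM : 1 ≤ M) (hx : ∀ i ∈ s, |x i| ≤ M) (hy : ∀ i ∈ s, |y i| ≤ M) :
    |∏ i ∈ s, x i - ∏ i ∈ s, y i| ≤ M ^ s.card * ∑ i ∈ s, |x i - y i| := by
  classical
  induction s using Finset.induction_on with
  | empty => simp
  | insert a s ha ih =>
    have hM0 : 0 < M := by linarith
    rw [prod_insert ha, prod_insert ha, sum_insert ha, card_insert_of_notMem ha]
    have h1 := ih (fun i hi => hx i (mem_insert_of_mem hi)) (fun i hi => hy i (mem_insert_of_mem hi))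
    have h2 : |∏ i ∈ s, x i| ≤ M ^ s.card := by
      rw [abs_prod]
      refine (prod_le_prod (fun i _ => abs_nonneg _) (fun i hi => hx i (mem_insert_of_mem hi))).trans (le_of_eq ?_)
      rw [prod_const]
    have h3 : x a * ∏ i ∈ s, x i - y a * ∏ i ∈ s, y i = (x a - y a) * ∏ i ∈ s, x i + y a * (∏ i ∈ s, x i - ∏ i ∈ s, y i) := by ring
    rw [h3]
    refine (abs_add_le _ _).trans ?_
    rw [abs_mul, abs_mul]
    have h4 : |x a - y a| * |∏ i ∈ s, x i| ≤ |x a - y a| * M ^ (s.card + 1) := by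
      apply mul_le_mul_of_nonneg_left _ (abs_nonneg _)
      refine h2.trans ?_
      exact pow_le_pow_right₀ hM (by omega)
    have h5 : |y a| * |∏ i ∈ s, x i - ∏ i ∈ s, y i| ≤ M * (M ^ s.card * ∑ i ∈ s, |x i - y i|) := by
      exact mul_le_mul (hy a (mem_insert_self a s)) h1 (abs_nonneg _) hM0.le
    have h6 : M ^ (s.card + 1) * (|x a - y a| + ∑ i ∈ s, |x i - y i|) = |x a - y a| * M ^ (s.card + 1) +
        M * (M ^ s.card * ∑ i ∈ s, |x i - y i|) := by
      rw [pow_succ]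
      ring
    rw [h6]
    linarith

lemma pow_diff (x y M : ℝ) (r : ℕ) (hM : 1 ≤ M) (hx : |x| ≤ M) (hy : |y| ≤ M) : |x ^ r - y ^ r| ≤ M ^ r * (r * |x - y|) := by
  have h := prod_diff (univ : Finset (Fin r)) (fun _ => x) (fun _ => y) M hM (fun _ _ => hx) (fun _ _ => hy)
  simpa using h

/-- **the joint moments of the normalised sums over the closed points** -/
theorem bmom (l : ℕ) (hl : l.Prime) {n : ℕ} (r : Fin n → ℕ) (D : ℕ) (hD : ∑ j : Fin n, (j + 1 : ℕ) * r j ≤ D) :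
    ∃ C : ℝ, 0 ≤ C ∧ ∀ (p : ℕ) [hp : Fact p.Prime],
      |(∑ u : Fin D → ZMod p, ∏ j : Fin n, (((j + 1 : ℕ) : ℝ) * G p l (j + 1) (fp p u) / Real.sqrt p ^ ((j : ℕ) + 1)) ^ r j) / (p : ℝ) ^ D -
        ∏ j : Fin n, m0 (j + 1) (kap p l (j + 1)) (r j)| ≤ C / Real.sqrt p := by
  have hch : ∀ j : Fin n, ∃ C : ℝ, 0 ≤ C ∧ ∀ (p : ℕ) [hp : Fact p.Prime],
    |(((j + 1 : ℕ) : ℝ) / Real.sqrt p ^ ((j : ℕ) + 1)) ^ r j * Mg (GaloisField p (j + 1)) (nu l) (r j) (Irr p (j + 1)).card -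
      m0 (j + 1) (kap p l (j + 1)) (r j)| ≤ C / Real.sqrt p := fun j => fac l hl (j + 1) (by omega) (r j)
  choose C hC0 hC using hch
  have hl2 : (2 : ℝ) ≤ l := by exact_mod_cast hl.two_le
  obtain ⟨M, hM⟩ : ∃ M : ℝ, M = 1 + ∑ j : Fin n, (m0 (j + 1) l (r j) + C j) := ⟨_, rfl⟩
  have hpos : ∀ j : Fin n, 0 ≤ m0 (j + 1) l (r j) + C j := by
    intro j
    have h1 := m0_nonneg (j + 1) l (by linarith) (r j)
    have h2 := hC0 j
    linarith
  have hM1 : 1 ≤ M := by
    rw [hM]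
    have := sum_nonneg (fun j (_ : j ∈ (univ : Finset (Fin n))) => hpos j)
    linarith
  refine ⟨M ^ n * ∑ j : Fin n, C j, mul_nonneg (by positivity) (sum_nonneg fun j _ => hC0 j), fun p hp => ?_⟩
  have hs := one_le_s p
  have hs0 : 0 < Real.sqrt p := by linarith
  have h1 : (∑ u : Fin D → ZMod p, ∏ j : Fin n, (((j + 1 : ℕ) : ℝ) * G p l (j + 1) (fp p u) / Real.sqrt p ^ ((j : ℕ) + 1)) ^ r j) / (p : ℝ) ^ D =
      ∏ j : Fin n, ((((j + 1 : ℕ) : ℝ) / Real.sqrt p ^ ((j : ℕ) + 1)) ^ r j * Mg (GaloisField p (j + 1)) (nu l) (r j) (Irr p (j + 1)).card) := by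
    rw [prod_mul_distrib, ← joint p l r hD, mul_div_assoc', mul_sum]
    congr 1
    refine sum_congr rfl fun u _ => ?_
    rw [← prod_mul_distrib]
    refine prod_congr rfl fun j _ => ?_
    rw [← mul_pow]
    congr 1
    ring
  rw [h1]
  have h2 : ∀ j : Fin n, |m0 (j + 1) (kap p l (j + 1)) (r j)| ≤ m0 (j + 1) l (r j) := by
    intro j
    rw [abs_of_nonneg (m0_nonneg _ _ (kap_nonneg p hl _) _)]
    exact m0_le _ _ _ (kap_nonneg p hl _) (kap_le p hl _) _
  have h3 : ∀ j : Fin n, m0 (j + 1) l (r j) + C j ≤ M := by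
    intro j
    rw [hM]
    have := single_le_sum (f := fun j : Fin n => m0 (j + 1) l (r j) + C j) (fun j _ => hpos j) (mem_univ j)
    linarith
  have h4 := prod_diff univ (fun j : Fin n => (((j + 1 : ℕ) : ℝ) / Real.sqrt p ^ ((j : ℕ) + 1)) ^ r j *
    Mg (GaloisField p (j + 1)) (nu l) (r j) (Irr p (j + 1)).card) (fun j : Fin n => m0 (j + 1) (kap p l (j + 1)) (r j)) M hM1 (by
      intro j _
      have e1 := hC j p
      have e2 : C j / Real.sqrt p ≤ C j := div_le_self (hC0 j) hs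
      have e3 := abs_add_le ((((j + 1 : ℕ) : ℝ) / Real.sqrt p ^ ((j : ℕ) + 1)) ^ r j *
        Mg (GaloisField p (j + 1)) (nu l) (r j) (Irr p (j + 1)).card - m0 (j + 1) (kap p l (j + 1)) (r j))
        (m0 (j + 1) (kap p l (j + 1)) (r j))
      rw [sub_add_cancel] at e3
      have e4 := h2 j
      have e5 := h3 j
      linarith) (by
      intro j _
      have e4 := h2 j
      have e5 := h3 j
      have e6 := hC0 j
      show |m0 (j + 1) (kap p l (j + 1)) (r j)| ≤ M
      linarith)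
  refine h4.trans ?_
  rw [card_univ, Fintype.card_fin, mul_div_assoc, sum_div]
  apply mul_le_mul_of_nonneg_left _ (by positivity)
  exact sum_le_sum fun j _ => hC j p

end Pool.Agent.N842.ST
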