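import Pool.Agent.N842.ST.Weilb
import Pool.Agent.Y57.FD.HypM

/-!
# The polynomials which are not separable, and the local means
-/

set_option autoImplicit false

namespace Pool.Agent.N842.ST

open Finset Polynomial
open Pool.Agent.TH894.NE (mean box mem_box)

section
variable (p : ℕ) [hp : Fact p.Prime]

/-- there are few polynomials which are not separable -/
lemma bad_fiber {d : ℕ} (hpd : d + 1 < p) (w : Fin d → ZMod p) :
    {z : ZMod p | ¬ (fp p (D := d + 1) (Fin.cons z w)).Separable}.ncard ≤ d + 1 := by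
  classical
  obtain ⟨h, hh⟩ : ∃ h : (ZMod p)[X], h = fp p (D := d + 1) (Fin.cons 0 w) := ⟨_, rfl⟩
  have hz : ∀ z : ZMod p, fp p (D := d + 1) (Fin.cons z w) = h + C z := by
    intro z
    rw [hh]
    unfold fp low
    rw [Fin.sum_univ_succ, Fin.sum_univ_succ (f := fun i => C ((Fin.cons 0 w : Fin (d + 1) → ZMod p) i) * X ^ (i : ℕ))]
    simp only [Fin.cons_zero, Fin.cons_succ, Fin.val_zero, pow_zero, mul_one, C_0, zero_add]
    ring
  have hd : ∀ z : ZMod p, (fp p (D := d + 1) (Fin.cons z w)).derivative = h.derivative := by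
    intro z
    rw [hz, derivative_add, derivative_C, add_zero]
  have hd0 : h.derivative ≠ 0 := by
    intro h0
    have h1 := congrArg (fun f => f.coeff d) h0
    simp only [coeff_derivative, coeff_zero] at h1
    have h2 : h.coeff (d + 1) = 1 := by
      have h3 := fp_monic p (D := d + 1) (Fin.cons 0 w)
      rw [← hh] at h3
      have h4 := h3.coeff_natDegree
      have h5 := fp_natDegree p (D := d + 1) (Fin.cons 0 w)
      rw [← hh] at h5
      rwa [h5] at h4
    rw [h2, one_mul] at h1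
    have h6 : (((d + 1 : ℕ)) : ZMod p) = 0 := by
      push_cast
      exact h1
    rw [ZMod.natCast_eq_zero_iff] at h6
    have := Nat.le_of_dvd (by omega) h6
    omega
  have hdeg : h.derivative.natDegree ≤ d + 1 := by
    have h1 := natDegree_derivative_le h
    have h5 := fp_natDegree p (D := d + 1) (Fin.cons 0 w)
    rw [← hh] at h5
    omega
  obtain ⟨R, hR⟩ : ∃ R : Finset (AlgebraicClosure (ZMod p)), R = (h.derivative.aroots (AlgebraicClosure (ZMod p))).toFinset := ⟨_, rfl⟩
  have hRc : R.card ≤ d + 1 := by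
    rw [hR]
    refine (Multiset.toFinset_card_le _).trans ?_
    refine (card_roots' _).trans ?_
    refine (natDegree_map_le).trans hdeg
  have hsub : (algebraMap (ZMod p) (AlgebraicClosure (ZMod p))) '' {z : ZMod p | ¬ (fp p (D := d + 1) (Fin.cons z w)).Separable} ⊆
      ((R.image (fun β => -(aeval β h)) : Finset (AlgebraicClosure (ZMod p))) : Set (AlgebraicClosure (ZMod p))) := by
    rintro _ ⟨z, hz1, rfl⟩
    rw [Set.mem_ofPred_eq] at hz1
    unfold Separable at hz1
    rw [isCoprime_iff_aeval_ne_zero_of_isAlgClosed (ZMod p) (AlgebraicClosure (ZMod p))] at hz1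
    push Not at hz1
    obtain ⟨β, h1, h2⟩ := hz1
    rw [hd] at h2
    rw [hz, map_add, aeval_C] at h1
    rw [coe_image]
    refine ⟨β, ?_, ?_⟩
    · rw [hR, mem_coe, Multiset.mem_toFinset, mem_aroots]
      exact ⟨hd0, h2⟩
    · exact (eq_neg_of_add_eq_zero_right h1).symm
  rw [← Set.ncard_image_of_injective _ (algebraMap (ZMod p) (AlgebraicClosure (ZMod p))).injective]
  refine (Set.ncard_le_ncard hsub (finite_toSet _)).trans ?_
  rw [Set.ncard_coe_finset]
  exact card_image_le.trans hRc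

open Classical in
lemma bad_card {d : ℕ} (hpd : d + 1 < p) :
    ((univ : Finset (Fin (d + 1) → ZMod p)).filter (fun u => ¬ (fp p u).Separable)).card ≤ (d + 1) * p ^ d := by
  have h1 : ((univ : Finset (Fin (d + 1) → ZMod p)).filter (fun u => ¬ (fp p u).Separable)).card =
      ∑ w : Fin d → ZMod p, ((univ : Finset (ZMod p)).filter (fun z => ¬ (fp p (D := d + 1) (Fin.cons z w)).Separable)).card := by
    rw [card_filter]
    simp only [card_filter]
    rw [sum_comm, ← Fintype.sum_prod_type' (f := fun (z : ZMod p) (w : Fin d → ZMod p) =>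
      if ¬ (fp p (D := d + 1) (Fin.cons z w)).Separable then 1 else 0)]
    refine (Fintype.sum_equiv (Fin.consEquiv (fun _ : Fin (d + 1) => ZMod p)) _ _ ?_).symm
    intro x
    rfl
  rw [h1]
  have h2 : ∀ w : Fin d → ZMod p,
      ((univ : Finset (ZMod p)).filter (fun z => ¬ (fp p (D := d + 1) (Fin.cons z w)).Separable)).card ≤ d + 1 := by
    intro w
    refine le_trans (le_of_eq ?_) (bad_fiber p hpd w)
    rw [← Set.ncard_coe_finset]
    congr 1
    ext z
    simp
  refine (sum_le_sum fun w _ => h2 w).trans (le_of_eq ?_)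
  rw [sum_const, card_univ, Fintype.card_pi_const, ZMod.card, smul_eq_mul]
  ring

/-- the box and the vectors of residues -/
lemma mean_eq_av {D : ℕ} (F : (Fin D → ZMod p) → ℝ) : mean D p (fun n => F (fun i => (n i : ZMod p))) = av p F := by
  unfold mean av
  rw [Pool.Agent.Y57.FD.HM.sum_box p F, one_div, inv_mul_eq_div]

end

lemma mean_abs_le' {d q : ℕ} (hq : 1 ≤ q) (M : ℝ) (F : (Fin d → ℕ) → ℝ) (hF : ∀ n, |F n| ≤ M) : |mean d q F| ≤ M := by
  have hq0 : (0 : ℝ) < q := by exact_mod_cast hq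
  unfold mean
  rw [abs_mul, abs_of_pos (by positivity : (0 : ℝ) < 1 / (q : ℝ) ^ d), div_mul_eq_mul_div, one_mul, div_le_iff₀ (by positivity)]
  refine (abs_sum_le_sum_abs _ _).trans ((sum_le_sum (g := fun _ => M) fun n _ => hF n).trans (le_of_eq ?_))
  rw [sum_const, Pool.Agent.TH894.NE.card_box, nsmul_eq_mul]
  push_cast
  rw [mul_comm]

open Classical in
/-- the normalised power sums; `0` if the curve is not smooth -/
noncomputable def A (l D k p : ℕ) (m : Fin D → ℕ) : ℝ :=
  if h : p.Prime ∧ p ≠ l then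
    haveI : Fact p.Prime := ⟨h.1⟩
    if (fp p (fun i => (m i : ZMod p))).Separable then S p l k (fp p (fun i => (m i : ZMod p))) / Real.sqrt p ^ k else 0
  else 0

lemma A_mod (l D k p : ℕ) (m : Fin D → ℕ) : A l D k p m = A l D k p (fun i => m i % p) := by
  unfold A
  by_cases h : p.Prime ∧ p ≠ l
  · rw [dif_pos h, dif_pos h]
    have e : (fun i => ((m i % p : ℕ) : ZMod p)) = fun i => ((m i : ℕ) : ZMod p) := by
      funext i
      rw [ZMod.natCast_mod]
    rw [e]
  · rw [dif_neg h, dif_neg h]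

lemma A_le (l : ℕ) (hl : l.Prime) (D : ℕ) (hD : Nat.Coprime D l) (k : ℕ) (hk : k ≠ 0) (p : ℕ) (m : Fin D → ℕ) :
    |A l D k p m| ≤ ((l * (D + l + 1) : ℕ) : ℝ) := by
  unfold A
  split_ifs with h h1
  · have : Fact p.Prime := ⟨h.1⟩
    have hs := one_le_s p
    have h2 := weilS l hl D hD p (fun i => (m i : ZMod p)) k hk
    have hpos : (0 : ℝ) < Real.sqrt p ^ k := by positivity
    rw [abs_div, abs_of_pos hpos, div_le_iff₀ hpos]
    exact h2
  · rw [abs_zero]
    positivity
  · rw [abs_zero]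
    positivity

/-- the products of the powers of the normalised power sums -/
noncomputable def PA (l D p : ℕ) {n : ℕ} (r : Fin n → ℕ) (m : Fin D → ℕ) : ℝ := ∏ j : Fin n, A l D (j + 1) p m ^ r j

/-- the products of the main terms -/
noncomputable def PM (l p : ℕ) {n : ℕ} (r : Fin n → ℕ) : ℝ := ∏ j : Fin n, mu (j + 1) (kap p l (j + 1)) (eta p l (j + 1)) (r j)

lemma PA_mod (l D p : ℕ) {n : ℕ} (r : Fin n → ℕ) (m : Fin D → ℕ) : PA l D p r m = PA l D p r (fun i => m i % p) := by
  unfold PA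
  exact prod_congr rfl fun j _ => by rw [A_mod]

lemma PA_le (l : ℕ) (hl : l.Prime) (D : ℕ) (hD : Nat.Coprime D l) (p : ℕ) {n : ℕ} (r : Fin n → ℕ) (m : Fin D → ℕ) :
    |PA l D p r m| ≤ ((l * (D + l + 1) : ℕ) : ℝ) ^ (∑ j, r j) := by
  unfold PA
  rw [abs_prod, ← prod_pow_eq_pow_sum]
  apply prod_le_prod (fun j _ => abs_nonneg _)
  intro j _
  rw [abs_pow]
  exact pow_le_pow_left₀ (abs_nonneg _) (A_le l hl D hD (j + 1) (by omega) p m) _

lemma mu_nonneg (k : ℕ) (κ η : ℝ) (hκ : 0 ≤ κ) (hη : 0 ≤ η) (r : ℕ) : 0 ≤ mu k κ η r := by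
  unfold mu
  exact sum_nonneg fun i _ => mul_nonneg (by positivity) (m0_nonneg k κ hκ i)

lemma mu_le (k : ℕ) (κ η L : ℝ) (hκ : 0 ≤ κ) (hη : 0 ≤ η) (hκL : κ ≤ L) (hηL : η ≤ L) (r : ℕ) : mu k κ η r ≤ mu k L L r := by
  unfold mu
  have hL : 0 ≤ L := hκ.trans hκL
  refine sum_le_sum fun i _ => ?_
  apply mul_le_mul
  · exact mul_le_mul_of_nonneg_left (pow_le_pow_left₀ hη hηL _) (by positivity)
  · exact m0_le k κ L hκ hκL i
  · exact m0_nonneg k κ hκ i
  · positivity

lemma mu_zero (k : ℕ) (κ η : ℝ) : mu k κ η 0 = 1 := by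
  unfold mu m0
  simp [normal_zero]

lemma PM_le (l : ℕ) (hl : l.Prime) (p : ℕ) {n : ℕ} (r : Fin n → ℕ) : |PM l p r| ≤ ∏ j : Fin n, mu (j + 1) l l (r j) := by
  unfold PM
  rw [abs_of_nonneg (prod_nonneg fun j _ => mu_nonneg _ _ _ (kap_nonneg p hl _) (eta_nonneg p hl _) _)]
  exact prod_le_prod (fun j _ => mu_nonneg _ _ _ (kap_nonneg p hl _) (eta_nonneg p hl _) _)
    fun j _ => mu_le _ _ _ _ (kap_nonneg p hl _) (eta_nonneg p hl _) (kap_le p hl _) (eta_le p hl _) _

/-- **the local means** -/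
theorem local_mean (l : ℕ) (hl : l.Prime) (D : ℕ) (hD : Nat.Coprime D l) {n : ℕ} (r : Fin n → ℕ)
    (hr : ∑ j : Fin n, (j + 1 : ℕ) * r j ≤ D) : ∃ C : ℝ, 0 ≤ C ∧ ∀ p : ℕ, p.Prime →
      |mean D p (PA l D p r) - PM l p r| ≤ C / Real.sqrt p := by
  classical
  obtain ⟨B, hB⟩ : ∃ B : ℝ, B = ((l * (D + l + 1) : ℕ) : ℝ) := ⟨_, rfl⟩
  have hB0 : 0 ≤ B := by rw [hB]; positivity
  obtain ⟨C, hC0, hC⟩ := amom l hl r D hr B hB0 (fun p _ u k hk => by rw [hB]; exact weilS l hl D hD p u k hk)
  obtain ⟨R, hR⟩ : ∃ R : ℕ, R = ∑ j, r j := ⟨_, rfl⟩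
  obtain ⟨L, hL⟩ : ∃ L : ℝ, L = ∏ j : Fin n, mu (j + 1) l l (r j) := ⟨_, rfl⟩
  have hL0 : 0 ≤ L := by
    rw [hL]
    exact prod_nonneg fun j _ => mu_nonneg _ _ _ (by positivity) (by positivity) _
  have hD0 : D ≠ 0 := by
    rintro rfl
    rw [Nat.coprime_zero_left] at hD
    exact hl.one_lt.ne' hD
  obtain ⟨d, rfl⟩ : ∃ d, D = d + 1 := ⟨D - 1, by omega⟩
  refine ⟨C + (d + 1) * B ^ R + (B ^ R + L) * (d + 1 + l + 1), by positivity, fun p hp => ?_⟩
  have : Fact p.Prime := ⟨hp⟩
  have hs := one_le_s p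
  have hs0 : 0 < Real.sqrt p := by linarith
  have hp0 : (0 : ℝ) < p := by exact_mod_cast hp.pos
  have hp1 : (1 : ℝ) ≤ p := by exact_mod_cast hp.one_lt.le
  have hsp : Real.sqrt p ≤ p := by
    rw [Real.sqrt_le_left hp0.le]
    nlinarith
  by_cases h0 : ∀ j, r j = 0
  · have e1 : PM l p r = 1 := by
      unfold PM
      exact prod_eq_one fun j _ => by rw [h0 j, mu_zero]
    have e2 : mean (d + 1) p (PA l (d + 1) p r) = 1 := by
      have e3 : PA l (d + 1) p r = fun _ => 1 := by
        funext m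
        unfold PA
        exact prod_eq_one fun j _ => by rw [h0 j, pow_zero]
      rw [e3]
      exact Pool.Agent.TH894.NE.mean_const (d + 1) p hp.pos 1
    rw [e1, e2, sub_self, abs_zero]
    positivity
  · by_cases hbig : d + 1 < p ∧ p ≠ l
    · obtain ⟨hpd, hpl⟩ := hbig
      obtain ⟨Φ, hΦ⟩ : ∃ Φ : (Fin (d + 1) → ZMod p) → ℝ, Φ = fun u => ∏ j : Fin n, (S p l (j + 1) (fp p u) / Real.sqrt p ^ ((j : ℕ) + 1)) ^ r j :=
        ⟨_, rfl⟩
      have h1 := hC p
      rw [← hΦ] at h1
      have hΦB : ∀ u, |Φ u| ≤ B ^ R := by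
        intro u
        rw [hΦ, hR]
        show |∏ j : Fin n, (S p l (j + 1) (fp p u) / Real.sqrt p ^ ((j : ℕ) + 1)) ^ r j| ≤ _
        rw [abs_prod, ← prod_pow_eq_pow_sum]
        apply prod_le_prod (fun j _ => abs_nonneg _)
        intro j _
        rw [abs_pow]
        apply pow_le_pow_left₀ (abs_nonneg _)
        have hpos : (0 : ℝ) < Real.sqrt p ^ ((j : ℕ) + 1) := by positivity
        rw [abs_div, abs_of_pos hpos, div_le_iff₀ hpos, hB]
        exact weilS l hl (d + 1) hD p u (j + 1) (by omega)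
      have h2 : mean (d + 1) p (PA l (d + 1) p r) = av p (fun u => if (fp p u).Separable then Φ u else 0) := by
        rw [← mean_eq_av]
        congr 1
        funext m
        unfold PA A
        simp only [dif_pos (show p.Prime ∧ p ≠ l from ⟨hp, hpl⟩)]
        by_cases h3 : (fp p (fun i => (m i : ZMod p))).Separable
        · simp only [if_pos h3]
          rw [hΦ]
        · simp only [if_neg h3]
          push Not at h0
          obtain ⟨j, hj⟩ := h0
          exact prod_eq_zero (mem_univ j) (zero_pow hj)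
      have h3 : av p (fun u => if (fp p u).Separable then Φ u else 0) =
          av p Φ - (∑ u ∈ (univ : Finset (Fin (d + 1) → ZMod p)).filter (fun u => ¬ (fp p u).Separable), Φ u) / (p : ℝ) ^ (d + 1) := by
        unfold av
        rw [← sub_div]
        congr 1
        rw [← sum_filter_add_sum_filter_not univ (fun u => (fp p u).Separable) Φ, add_sub_cancel_right, sum_filter]
      have h4 : |(∑ u ∈ (univ : Finset (Fin (d + 1) → ZMod p)).filter (fun u => ¬ (fp p u).Separable), Φ u) / (p : ℝ) ^ (d + 1)| ≤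
          (d + 1) * B ^ R / Real.sqrt p := by
        rw [abs_div, abs_of_pos (by positivity : (0 : ℝ) < (p : ℝ) ^ (d + 1)), div_le_div_iff₀ (by positivity) hs0]
        have h5 : |∑ u ∈ (univ : Finset (Fin (d + 1) → ZMod p)).filter (fun u => ¬ (fp p u).Separable), Φ u| ≤
            ((d + 1) * (p : ℝ) ^ d) * B ^ R := by
          refine (abs_sum_le_sum_abs _ _).trans ((sum_le_sum fun u _ => hΦB u).trans ?_)
          rw [sum_const, nsmul_eq_mul]
          apply mul_le_mul_of_nonneg_right _ (by positivity)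
          exact_mod_cast bad_card p hpd
        calc |∑ u ∈ (univ : Finset (Fin (d + 1) → ZMod p)).filter (fun u => ¬ (fp p u).Separable), Φ u| * Real.sqrt p ≤
            (((d + 1) * (p : ℝ) ^ d) * B ^ R) * p := mul_le_mul h5 hsp hs0.le (by positivity)
          _ = (d + 1) * B ^ R * (p : ℝ) ^ (d + 1) := by
              rw [pow_succ]
              ring
      rw [h2, h3]
      obtain ⟨Y, hY⟩ : ∃ Y : ℝ, Y = (∑ u ∈ (univ : Finset (Fin (d + 1) → ZMod p)).filter (fun u => ¬ (fp p u).Separable), Φ u) / (p : ℝ) ^ (d + 1) :=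
        ⟨_, rfl⟩
      rw [← hY] at h4 ⊢
      have h5 : |av p Φ - Y - PM l p r| ≤ |av p Φ - PM l p r| + |Y| := by
        have := abs_sub (av p Φ - PM l p r) Y
        rwa [show av p Φ - PM l p r - Y = av p Φ - Y - PM l p r by ring] at this
      have h6 : |av p Φ - PM l p r| ≤ C / Real.sqrt p := h1
      have h7 : (C + (d + 1) * B ^ R + (B ^ R + L) * (d + 1 + l + 1)) / Real.sqrt p = C / Real.sqrt p + (d + 1) * B ^ R / Real.sqrt p +
          (B ^ R + L) * (d + 1 + l + 1) / Real.sqrt p := by ring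
      have h8 : 0 ≤ (B ^ R + L) * (d + 1 + l + 1) / Real.sqrt p := by positivity
      rw [h7]
      linarith
    · have hsmall : (p : ℝ) ≤ d + 1 + l + 1 := by
        have : p ≤ d + 1 + l + 1 := by
          by_contra hcon
          apply hbig
          omega
        exact_mod_cast this
      have h1 : |mean (d + 1) p (PA l (d + 1) p r)| ≤ B ^ R := by
        apply mean_abs_le' hp.one_lt.le
        intro m
        rw [hB, hR]
        exact PA_le l hl (d + 1) hD p r m
      have h2 : |PM l p r| ≤ L := by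
        rw [hL]
        exact PM_le l hl p r
      have h3 : |mean (d + 1) p (PA l (d + 1) p r) - PM l p r| ≤ B ^ R + L := (abs_sub _ _).trans (add_le_add h1 h2)
      refine h3.trans ?_
      rw [le_div_iff₀ hs0]
      have h4 : (B ^ R + L) * Real.sqrt p ≤ (B ^ R + L) * (d + 1 + l + 1) :=
        mul_le_mul_of_nonneg_left (hsp.trans hsmall) (by positivity)
      have h5 : 0 ≤ C + (d + 1) * B ^ R := by positivity
      linarith

end Pool.Agent.N842.ST
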