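import Mathlib

/-!
# The number of the `l`-th roots of an element of a finite field, minus one

`nu l z` is the number of the solutions `w` of `w ^ l = z` minus one, `l` a prime number.
-/

set_option autoImplicit false

namespace Pool.Agent.N842.ST

open Finset Polynomial

section
variable (l : ℕ) {E : Type} [Field E]

/-- the number of the `w` with `w ^ l = z`, minus one -/
noncomputable def nu (z : E) : ℝ := (Nat.card {w : E // w ^ l = z} : ℝ) - 1

variable {l}

lemma card_eq [Fintype E] [DecidableEq E] (z : E) :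
    Nat.card {w : E // w ^ l = z} = (univ.filter (fun w : E => w ^ l = z)).card := by
  rw [Nat.card_eq_fintype_card, Fintype.card_subtype]

lemma sum_nu [Fintype E] : ∑ z : E, nu l z = 0 := by
  classical
  unfold nu
  rw [sum_sub_distrib, sum_const, card_univ, nsmul_eq_mul, mul_one]
  have h1 : (Fintype.card E : ℝ) = ∑ z : E, ((univ.filter (fun w : E => w ^ l = z)).card : ℝ) := by
    have := card_eq_sum_card_fiberwise (s := (univ : Finset E)) (t := (univ : Finset E)) (f := fun w : E => w ^ l)
      (fun _ _ => mem_coe.2 (mem_univ _))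
    rw [card_univ] at this
    exact_mod_cast this
  rw [h1]
  simp only [card_eq, sub_self]

lemma nu_zero (hl : l ≠ 0) : nu l (0 : E) = 0 := by
  unfold nu
  have : Nat.card {w : E // w ^ l = 0} = 1 := by
    rw [Nat.card_eq_one_iff_unique]
    refine ⟨⟨fun a b => ?_⟩, ⟨⟨0, zero_pow hl⟩⟩⟩
    apply Subtype.ext
    have h1 := pow_eq_zero_iff hl |>.1 a.2
    have h2 := pow_eq_zero_iff hl |>.1 b.2
    rw [h1, h2]
  rw [this]
  norm_num

/-- if `l` is prime to the order of the unit group then `nu` vanishes -/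
lemma nu_of_coprime [Fintype E] (hl : l ≠ 0) (h : Nat.Coprime (Fintype.card E - 1) l) (z : E) : nu l z = 0 := by
  classical
  by_cases hz : z = 0
  · rw [hz]
    exact nu_zero hl
  · unfold nu
    have hc : Nat.Coprime (Nat.card Eˣ) l := by
      rw [Nat.card_eq_fintype_card, Fintype.card_units]
      exact h
    have : Nat.card {w : E // w ^ l = z} = 1 := by
      rw [Nat.card_eq_one_iff_unique]
      constructor
      · refine ⟨fun a b => ?_⟩
        apply Subtype.ext
        have ha : (a : E) ≠ 0 := by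
          intro h0
          have := a.2
          rw [h0, zero_pow hl] at this
          exact hz this.symm
        have hb : (b : E) ≠ 0 := by
          intro h0
          have := b.2
          rw [h0, zero_pow hl] at this
          exact hz this.symm
        have h1 : (powCoprime hc) (Units.mk0 (a : E) ha) = (powCoprime hc) (Units.mk0 (b : E) hb) := by
          apply Units.ext
          simp only [powCoprime_apply, Units.val_pow_eq_pow_val, Units.val_mk0]
          rw [a.2, b.2]
        have h2 := (powCoprime hc).injective h1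
        have h3 := congrArg Units.val h2
        simpa using h3
      · obtain ⟨w, hw⟩ := (powCoprime hc).surjective (Units.mk0 z hz)
        refine ⟨⟨(w : E), ?_⟩⟩
        have := congrArg Units.val hw
        simpa using this
    rw [this]
    norm_num

/-- the values of `nu` at the elements different from zero, if `l` divides the order of the unit group -/
lemma nu_of_dvd [Fintype E] (hl : l.Prime) (h : l ∣ Fintype.card E - 1) (z : E) (hz : z ≠ 0) :
    (z ^ ((Fintype.card E - 1) / l) = 1 ∧ nu l z = l - 1) ∨ (z ^ ((Fintype.card E - 1) / l) ≠ 1 ∧ nu l z = -1) := by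
  classical
  obtain ⟨Q, hQ⟩ : ∃ Q : ℕ, Q = Fintype.card E - 1 := ⟨_, rfl⟩
  have hE : 1 < Fintype.card E := Fintype.one_lt_card
  have hQ0 : 0 < Q := by omega
  have hcu : Fintype.card Eˣ = Q := by rw [Fintype.card_units, hQ]
  rw [← hQ] at h ⊢
  obtain ⟨m, hm⟩ := h
  have hml : Q / l = m := by
    rw [hm]
    exact Nat.mul_div_cancel_left m hl.pos
  have hm0 : 0 < m := by
    rcases Nat.eq_zero_or_pos m with h0 | h0
    · rw [h0, mul_zero] at hm
      omega
    · exact h0
  obtain ⟨g, hg⟩ := IsCyclic.exists_generator (α := Eˣ)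
  have hgo : orderOf g = Q := by
    rw [← hcu, ← Nat.card_eq_fintype_card]
    exact orderOf_eq_card_of_forall_mem_zpowers hg
  -- the criterion
  have hcrit : (∃ w : E, w ^ l = z) ↔ z ^ m = 1 := by
    constructor
    · rintro ⟨w, hw⟩
      have hw0 : w ≠ 0 := by
        intro h0
        rw [h0, zero_pow hl.ne_zero] at hw
        exact hz hw.symm
      rw [← hw, ← pow_mul, ← hm, hQ]
      exact FiniteField.pow_card_sub_one_eq_one w hw0
    · intro h1
      obtain ⟨a, ha⟩ := (mem_powers_iff_mem_zpowers (x := g) (y := Units.mk0 z hz)).2 (hg _)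
      have h2 : g ^ (a * m) = 1 := by
        rw [pow_mul]
        apply Units.ext
        have := congrArg Units.val ha
        simp only [Units.val_pow_eq_pow_val, Units.val_mk0] at this
        simp only [Units.val_pow_eq_pow_val, Units.val_one]
        rw [this, h1]
      have h3 := orderOf_dvd_of_pow_eq_one h2
      rw [hgo, hm] at h3
      obtain ⟨b, hb⟩ := Nat.dvd_of_mul_dvd_mul_right hm0 h3
      refine ⟨((g ^ b : Eˣ) : E), ?_⟩
      have := congrArg Units.val ha
      simp only [Units.val_pow_eq_pow_val, Units.val_mk0] at this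
      rw [← this, hb, Units.val_pow_eq_pow_val, ← pow_mul, mul_comm]
  -- a primitive root of unity
  have hprim : IsPrimitiveRoot (g : E) Q := by
    rw [← hgo, IsPrimitiveRoot.coe_units_iff]
    exact IsPrimitiveRoot.orderOf g
  have hprim' : IsPrimitiveRoot ((g : E) ^ m) l := hprim.pow hQ0 (by rw [hm, mul_comm])
  have hcard : Nat.card {w : E // w ^ l = z} = if ∃ w : E, w ^ l = z then l else 0 := by
    have e1 := hprim'.card_nthRoots z
    have hnd : (nthRoots l z).Nodup := hprim'.nthRoots_nodup hz
    rw [card_eq]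
    have e3 : (univ.filter (fun w : E => w ^ l = z)).card = Multiset.card (nthRoots l z) := by
      rw [← Multiset.toFinset_card_of_nodup hnd]
      congr 1
      ext w
      rw [mem_filter, Multiset.mem_toFinset, mem_nthRoots hl.pos]
      simp
    rw [e3, e1]
    split_ifs <;> rfl
  rw [hml]
  unfold nu
  rw [hcard]
  by_cases h1 : z ^ m = 1
  · left
    refine ⟨h1, ?_⟩
    rw [if_pos (hcrit.2 h1)]
  · right
    refine ⟨h1, ?_⟩
    rw [if_neg (fun h2 => h1 (hcrit.1 h2))]
    norm_num

lemma geom_mul (Q r : ℕ) (hQ : 1 ≤ Q) : (Q - 1) * ∑ i ∈ range r, Q ^ i = Q ^ r - 1 := by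
  have h := Nat.geomSum_eq (m := Q) (n := r)
  rcases Nat.lt_or_ge 1 Q with h1 | h1
  · rw [h h1, Nat.mul_div_cancel' ?_]
    simpa using Nat.sub_dvd_pow_sub_pow Q 1 r
  · have : Q = 1 := by omega
    rw [this]
    simp

/-- `nu` in an extension, first case -/
lemma nu_map_two {E' : Type} [Field E'] [Fintype E] [Fintype E'] (hl : l.Prime) (φ : E →+* E') (r : ℕ)
    (hcard : Fintype.card E' = Fintype.card E ^ r) (hM : l ∣ ∑ i ∈ range r, Fintype.card E ^ i) (z : E) (hz : z ≠ 0) :
    nu l (φ z) = l - 1 := by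
  classical
  obtain ⟨Q, hQ⟩ : ∃ Q : ℕ, Q = Fintype.card E := ⟨_, rfl⟩
  have hE : 1 < Fintype.card E := Fintype.one_lt_card
  rw [← hQ] at hM hcard hE
  have hg := geom_mul Q r (by omega)
  obtain ⟨M', hM'⟩ := hM
  have hdvd : l ∣ Fintype.card E' - 1 := by
    rw [hcard, ← hg, hM']
    exact ⟨(Q - 1) * M', by ring⟩
  have hq : (Fintype.card E' - 1) / l = (Q - 1) * M' := by
    rw [hcard, ← hg, hM']
    rw [show (Q - 1) * (l * M') = l * ((Q - 1) * M') by ring]
    exact Nat.mul_div_cancel_left _ hl.pos
  have hz' : φ z ≠ 0 := by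
    rw [Ne, map_eq_zero]
    exact hz
  rcases nu_of_dvd hl hdvd (φ z) hz' with h | h
  · exact h.2
  · exfalso
    apply h.1
    rw [hq, pow_mul, ← map_pow, hQ, FiniteField.pow_card_sub_one_eq_one z hz, map_one, one_pow]

/-- `nu` in an extension, second case -/
lemma nu_map_one {E' : Type} [Field E'] [Fintype E] [Fintype E'] (hl : l.Prime) (φ : E →+* E') (r : ℕ)
    (hcard : Fintype.card E' = Fintype.card E ^ r) (hdvd : l ∣ Fintype.card E' - 1)
    (hM : ¬ l ∣ ∑ i ∈ range r, Fintype.card E ^ i) (z : E) :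
    nu l (φ z) = nu l z := by
  classical
  by_cases hz : z = 0
  · rw [hz, map_zero, nu_zero hl.ne_zero, nu_zero hl.ne_zero]
  obtain ⟨Q, hQ⟩ : ∃ Q : ℕ, Q = Fintype.card E := ⟨_, rfl⟩
  have hE : 1 < Fintype.card E := Fintype.one_lt_card
  rw [← hQ] at hM hcard hE
  obtain ⟨M, hMM⟩ : ∃ M : ℕ, M = ∑ i ∈ range r, Q ^ i := ⟨_, rfl⟩
  rw [← hMM] at hM
  have hg := geom_mul Q r (by omega)
  rw [← hMM] at hg
  have hdQ : l ∣ Q - 1 := by
    rw [hcard, ← hg] at hdvd
    exact (hl.dvd_mul.1 hdvd).resolve_right hM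
  obtain ⟨m, hm⟩ := hdQ
  have hq1 : (Q - 1) / l = m := by
    rw [hm]
    exact Nat.mul_div_cancel_left _ hl.pos
  have hq : (Fintype.card E' - 1) / l = m * M := by
    rw [hcard, ← hg, hm, mul_assoc]
    exact Nat.mul_div_cancel_left _ hl.pos
  have hz' : φ z ≠ 0 := by
    rw [Ne, map_eq_zero]
    exact hz
  have h1 := nu_of_dvd hl hdvd (φ z) hz'
  have h2 := nu_of_dvd (l := l) hl (by rw [← hQ, hm]; exact ⟨m, rfl⟩) z hz
  rw [← hQ, hq1] at h2
  rw [hq] at h1
  have h3 : (φ z) ^ (m * M) = φ ((z ^ m) ^ M) := by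
    rw [pow_mul, map_pow, map_pow]
  rw [h3] at h1
  rcases h2 with h2 | h2
  · rcases h1 with h1 | h1
    · rw [h1.2, h2.2]
    · exfalso
      apply h1.1
      rw [h2.1, one_pow, map_one]
  · rcases h1 with h1 | h1
    · exfalso
      have h4 : (z ^ m) ^ M = 1 := by
        apply φ.injective
        rw [h1.1, map_one]
      have h5 : (z ^ m) ^ l = 1 := by
        rw [← pow_mul, mul_comm, ← hm, hQ]
        exact FiniteField.pow_card_sub_one_eq_one z hz
      have h6 := orderOf_dvd_of_pow_eq_one h4
      have h7 := orderOf_dvd_of_pow_eq_one h5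
      rcases (Nat.dvd_prime hl).1 h7 with h8 | h8
      · exact h2.1 (orderOf_eq_one_iff.1 h8)
      · rw [h8] at h6
        exact hM h6
    · rw [h1.2, h2.2]

end

end Pool.Agent.N842.ST
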