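import Pool.Agent.N842.ST.Pts

/-!
# The sums over the points and over the closed points
-/

set_option autoImplicit false

namespace Pool.Agent.N842.ST

open Finset Polynomial

attribute [local instance] gfFin

section
variable (p : ℕ) [hp : Fact p.Prime] (l : ℕ)

/-- the sum over the points -/
noncomputable def S (k : ℕ) (f : (ZMod p)[X]) : ℝ := ∑ y : GaloisField p k, nu l (aeval y f)

/-- the sum over the closed points of degree `k` -/
noncomputable def G (k : ℕ) (f : (ZMod p)[X]) : ℝ := ∑ P ∈ Irr p k, nu l (aeval (rt p k P) f)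

open Classical in
/-- the shift of the mean -/
noncomputable def eta (k : ℕ) : ℝ := if Even k ∧ l ∣ p ^ (k / 2) + 1 then (l : ℝ) - 1 else 0

variable {l}

omit hp in
lemma eta_nonneg (hl : l.Prime) (k : ℕ) : 0 ≤ eta p l k := by
  unfold eta
  have : (2 : ℝ) ≤ l := by exact_mod_cast hl.two_le
  split_ifs <;> linarith

omit hp in
lemma eta_le (hl : l.Prime) (k : ℕ) : eta p l k ≤ l := by
  unfold eta
  have : (2 : ℝ) ≤ l := by exact_mod_cast hl.two_le
  split_ifs <;> linarith

lemma abs_nu_le {E : Type} [Field E] [Finite E] (hl : l.Prime) (z : E) : |nu l z| ≤ l := by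
  classical
  let _ : Fintype E := Fintype.ofFinite E
  have h2 : (2 : ℝ) ≤ l := by exact_mod_cast hl.two_le
  by_cases hz : z = 0
  · rw [hz, nu_zero hl.ne_zero, abs_zero]
    linarith
  · by_cases h : l ∣ Fintype.card E - 1
    · rcases nu_of_dvd hl h z hz with ⟨_, h1⟩ | ⟨_, h1⟩
      · rw [h1, abs_of_nonneg (by linarith)]
        linarith
      · rw [h1, abs_neg, abs_one]
        linarith
    · rw [nu_of_coprime hl.ne_zero (Nat.Coprime.symm ((Nat.Prime.coprime_iff_not_dvd hl).2 h)) z, abs_zero]
      linarith

lemma cop_of (hl : l.Prime) (k : ℕ) (hk : k ≠ 0) (h : ¬ l ∣ p ^ k - 1) (z : GaloisField p k) : nu l z = 0 := by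
  apply nu_of_coprime hl.ne_zero
  rw [card_gf p k hk]
  exact Nat.Coprime.symm ((Nat.Prime.coprime_iff_not_dvd hl).2 h)

lemma S_zero (hl : l.Prime) (k : ℕ) (hk : k ≠ 0) (h : ¬ l ∣ p ^ k - 1) (f : (ZMod p)[X]) : S p l k f = 0 :=
  sum_eq_zero fun _ _ => cop_of p hl k hk h _

lemma G_zero (hl : l.Prime) (k : ℕ) (hk : k ≠ 0) (h : ¬ l ∣ p ^ k - 1) (f : (ZMod p)[X]) : G p l k f = 0 :=
  sum_eq_zero fun _ _ => cop_of p hl k hk h _

omit hp in
lemma eta_zero (k : ℕ) (h : ¬ l ∣ p ^ k - 1) : eta p l k = 0 := by
  unfold eta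
  rw [if_neg]
  rintro ⟨⟨j, hj⟩, h1⟩
  apply h
  have h2 : k / 2 = j := by omega
  rw [h2] at h1
  have h3 : p ^ k - 1 = (p ^ j + 1) * (p ^ j - 1) := by
    have h4 := Nat.sq_sub_sq (p ^ j) 1
    rw [one_pow, ← pow_mul, show j * 2 = k by omega] at h4
    exact h4
  rw [h3]
  exact h1.mul_right _

open Classical in
/-- the value at a closed point -/
noncomputable def vl (l k d : ℕ) (f : (ZMod p)[X]) (P : (ZMod p)[X]) : ℝ :=
  if l ∣ ∑ i ∈ range (k / d), (p ^ d) ^ i then (if aeval (rt p d P) f = 0 then 0 else (l : ℝ) - 1) else nu l (aeval (rt p d P) f)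

lemma S_eq (hl : l.Prime) (k : ℕ) (hk : k ≠ 0) (h : l ∣ p ^ k - 1) (f : (ZMod p)[X]) :
    S p l k f = ∑ d ∈ k.divisors, (d : ℝ) * ∑ P ∈ Irr p d, vl p l k d f P := by
  classical
  unfold S
  refine sum_points p k hk (fun y => nu l (aeval y f)) (fun d P => vl p l k d f P) fun d hd P hP y hy => ?_
  have hd' := (Nat.mem_divisors.1 hd).1
  have hd0 : d ≠ 0 := fun h => hk (by rw [h] at hd'; exact Nat.eq_zero_of_zero_dvd hd')
  obtain ⟨φ, hφ⟩ := exists_hom p k d hk hd' P hP y hy
  have hcard : Fintype.card (GaloisField p k) = Fintype.card (GaloisField p d) ^ (k / d) := by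
    rw [card_gf p k hk, card_gf p d hd0, ← pow_mul, Nat.mul_div_cancel' hd']
  have h1 : aeval y f = (φ : GaloisField p d →+* GaloisField p k) (aeval (rt p d P) f) := by
    rw [← hφ, aeval_algHom_apply]
    rfl
  show nu l (aeval y f) = vl p l k d f P
  unfold vl
  rw [h1]
  by_cases hM : l ∣ ∑ i ∈ range (k / d), (p ^ d) ^ i
  · rw [if_pos hM]
    by_cases hz : aeval (rt p d P) f = 0
    · rw [if_pos hz, hz, map_zero, nu_zero hl.ne_zero]
    · rw [if_neg hz]
      refine nu_map_two hl _ (k / d) hcard ?_ _ hz
      rw [card_gf p d hd0]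
      exact hM
  · rw [if_neg hM]
    refine nu_map_one hl _ (k / d) hcard ?_ ?_ _
    · rw [card_gf p k hk]
      exact h
    · rw [card_gf p d hd0]
      exact hM

lemma abs_vl_le (hl : l.Prime) (k d : ℕ) (f P : (ZMod p)[X]) : |vl p l k d f P| ≤ l := by
  classical
  have h2 : (2 : ℝ) ≤ l := by exact_mod_cast hl.two_le
  unfold vl
  split_ifs
  · rw [abs_zero]
    linarith
  · rw [abs_of_nonneg (by linarith)]
    linarith
  · exact abs_nu_le hl _

open Classical in
/-- few closed points are zeros of `f` -/
lemma card_zeros (d : ℕ) (f : (ZMod p)[X]) (hf : f ≠ 0) :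
    ((Irr p d).filter (fun P => aeval (rt p d P) f = 0)).card ≤ f.natDegree := by
  have h1 : ((Irr p d).filter (fun P => aeval (rt p d P) f = 0)).card ≤ (f.aroots (GaloisField p d)).toFinset.card := by
    refine card_le_card_of_injOn (fun P => rt p d P) ?_ ?_
    · intro P hP
      have hP' := (mem_filter.1 hP).2
      rw [mem_coe, Multiset.mem_toFinset, mem_aroots]
      exact ⟨hf, hP'⟩
    · intro P hP Q hQ hPQ
      have hP' := (mem_filter.1 hP).1
      have hQ' := (mem_filter.1 hQ).1
      have h2 := congrArg (minpoly (ZMod p)) hPQ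
      simp only at h2
      rwa [minpoly_rt p d P hP', minpoly_rt p d Q hQ'] at h2
  refine h1.trans ((Multiset.toFinset_card_le _).trans ((card_roots' _).trans ?_))
  exact natDegree_map_le

end

lemma one_le_s (p : ℕ) [hp : Fact p.Prime] : (1 : ℝ) ≤ Real.sqrt p := by
  rw [Real.one_le_sqrt]
  exact_mod_cast hp.out.one_lt.le

lemma s_sq (p : ℕ) : Real.sqrt p ^ 2 = (p : ℝ) := Real.sq_sqrt (Nat.cast_nonneg p)

lemma s_pow (p d : ℕ) : (p : ℝ) ^ d = Real.sqrt p ^ (2 * d) := by
  rw [pow_mul, s_sq]

/-- the number of the closed points of degree `d` -/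
lemma card_Irr_err (p : ℕ) [hp : Fact p.Prime] (d : ℕ) (hd : d ≠ 0) :
    |(d : ℝ) * ((Irr p d).card : ℝ) - (p : ℝ) ^ d| ≤ d * Real.sqrt p ^ d := by
  have h1 := sum_card p d hd
  rw [← Nat.insert_self_properDivisors hd, sum_insert (by simp)] at h1
  have h2 : (d : ℝ) * ((Irr p d).card : ℝ) - (p : ℝ) ^ d = - ∑ e ∈ d.properDivisors, (e : ℝ) * ((Irr p e).card : ℝ) := by
    linarith
  rw [h2, abs_neg, abs_of_nonneg (sum_nonneg fun e _ => by positivity)]
  have h3 : ∀ e ∈ d.properDivisors, (e : ℝ) * ((Irr p e).card : ℝ) ≤ Real.sqrt p ^ d := by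
    intro e he
    rw [Nat.mem_properDivisors] at he
    have he0 : e ≠ 0 := fun h => hd (by rw [h] at he; exact Nat.eq_zero_of_zero_dvd he.1)
    refine (card_Irr_le p e he0).trans ?_
    rw [s_pow]
    apply pow_le_pow_right₀ (one_le_s p)
    obtain ⟨c, hc⟩ := he.1
    have hc2 : 2 ≤ c := by
      by_contra hcon
      have : c ≤ 1 := by omega
      have : e * c ≤ e * 1 := Nat.mul_le_mul_left e this
      omega
    calc 2 * e = e * 2 := mul_comm _ _
      _ ≤ e * c := Nat.mul_le_mul_left e hc2
      _ = d := hc.symm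
  refine (sum_le_sum h3).trans ?_
  rw [sum_const, nsmul_eq_mul]
  apply mul_le_mul_of_nonneg_right _ (by positivity)
  have h4 : d.properDivisors.card ≤ d := by
    calc d.properDivisors.card ≤ (Finset.Ico 1 d).card := by
          apply card_le_card
          exact filter_subset _ _
      _ ≤ d := by rw [Nat.card_Ico]; omega
  exact_mod_cast h4

/-- **the comparison of the two sums** -/
theorem geo (l D : ℕ) (hl : l.Prime) (B : ℝ) (hB : 0 ≤ B) (k : ℕ) (hk : k ≠ 0) : ∃ C : ℝ, 0 ≤ C ∧
    ∀ (p : ℕ) [hp : Fact p.Prime] (f : (ZMod p)[X]), f ≠ 0 → f.natDegree ≤ D →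
    (∀ j, j ≠ 0 → |S p l j f| ≤ B * Real.sqrt p ^ j) →
      |S p l k f - k * G p l k f - eta p l k * Real.sqrt p ^ k| ≤ C * Real.sqrt p ^ (k - 1) ∧
      |k * G p l k f| ≤ C * Real.sqrt p ^ k := by
  classical
  induction k using Nat.strong_induction_on with
  | _ k ih =>
    have hch : ∀ j : ℕ, ∃ C : ℝ, 0 ≤ C ∧ (j ≠ 0 → j < k → ∀ (p : ℕ) [hp : Fact p.Prime] (f : (ZMod p)[X]), f ≠ 0 → f.natDegree ≤ D →
        (∀ j, j ≠ 0 → |S p l j f| ≤ B * Real.sqrt p ^ j) → |j * G p l j f| ≤ C * Real.sqrt p ^ j) := by
      intro j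
      by_cases hj : j ≠ 0 ∧ j < k
      · obtain ⟨C, hC0, hC⟩ := ih j hj.2 hj.1
        exact ⟨C, hC0, fun _ _ p _ f hf hfD hS => (hC p f hf hfD hS).2⟩
      · exact ⟨0, le_rfl, fun h1 h2 => absurd ⟨h1, h2⟩ hj⟩
    choose C hC0 hC using hch
    have hl2 : (2 : ℝ) ≤ l := by exact_mod_cast hl.two_le
    obtain ⟨E, hE⟩ : ∃ E : ℕ → ℝ, E = fun d => (l : ℝ) + (l * (d + d * D) + C d) := ⟨_, rfl⟩
    have hE0 : ∀ d, 0 ≤ E d := by
      intro d
      rw [hE]
      have := hC0 d
      positivity
    obtain ⟨T, hT⟩ : ∃ T : ℝ, T = ∑ d ∈ k.properDivisors, E d := ⟨_, rfl⟩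
    have hT0 : 0 ≤ T := by
      rw [hT]
      exact sum_nonneg fun d _ => hE0 d
    refine ⟨B + l + T, by positivity, fun p hp f hf hfD hS => ?_⟩
    have hs := one_le_s p
    have hs0 : 0 < Real.sqrt p := by linarith
    have hpr := hp.out
    -- the first estimate suffices
    have key : |S p l k f - k * G p l k f - eta p l k * Real.sqrt p ^ k| ≤ T * Real.sqrt p ^ (k - 1) := by
      by_cases hdvd : l ∣ p ^ k - 1
      · rw [S_eq p hl k hk hdvd f, ← Nat.insert_self_properDivisors hk, sum_insert (by simp)]
        have h1 : ∀ P ∈ Irr p k, vl p l k k f P = nu l (aeval (rt p k P) f) := by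
          intro P _
          unfold vl
          rw [Nat.div_self (Nat.pos_of_ne_zero hk), range_one, sum_singleton, pow_zero, if_neg]
          exact hl.one_lt.ne' ∘ Nat.dvd_one.1
        rw [sum_congr rfl h1]
        -- the shift as a sum over the proper divisors
        have h2 : eta p l k * Real.sqrt p ^ k = ∑ d ∈ k.properDivisors, if 2 * d = k then eta p l k * Real.sqrt p ^ k else 0 := by
          by_cases hk2 : Even k
          · obtain ⟨j, hj⟩ := hk2
            have hjm : j ∈ k.properDivisors := by
              rw [Nat.mem_properDivisors]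
              exact ⟨⟨2, by omega⟩, by omega⟩
            rw [sum_eq_single j]
            · rw [if_pos (by omega)]
            · intro d _ hdj
              rw [if_neg (by omega)]
            · exact fun h => absurd hjm h
          · have e1 : eta p l k = 0 := by
              unfold eta
              rw [if_neg (fun h => hk2 h.1)]
            rw [e1, zero_mul]
            symm
            apply sum_eq_zero
            intro d _
            rw [if_neg]
            intro h
            exact hk2 ⟨d, by omega⟩
        have h3 : (k : ℝ) * ∑ P ∈ Irr p k, nu l (aeval (rt p k P) f) + ∑ d ∈ k.properDivisors, (d : ℝ) * ∑ P ∈ Irr p d, vl p l k d f P -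
            k * G p l k f - eta p l k * Real.sqrt p ^ k =
            ∑ d ∈ k.properDivisors, ((d : ℝ) * ∑ P ∈ Irr p d, vl p l k d f P -
              if 2 * d = k then eta p l k * Real.sqrt p ^ k else 0) := by
          rw [sum_sub_distrib, ← h2]
          unfold G
          ring
        rw [h3, hT, sum_mul]
        refine (abs_sum_le_sum_abs _ _).trans (sum_le_sum fun d hd => ?_)
        rw [Nat.mem_properDivisors] at hd
        have hd0 : d ≠ 0 := fun h => hk (by rw [h] at hd; exact Nat.eq_zero_of_zero_dvd hd.1)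
        have hEd : E d = (l : ℝ) + (l * (d + d * D) + C d) := by rw [hE]
        by_cases h2d : 2 * d = k
        · rw [if_pos h2d]
          have hkd : k / d = 2 := by
            rw [← h2d]
            exact Nat.mul_div_cancel _ (Nat.pos_of_ne_zero hd0)
          have hk2' : k / 2 = d := by omega
          have hsum : ∑ i ∈ range (k / d), (p ^ d) ^ i = p ^ d + 1 := by
            rw [hkd, sum_range_succ, range_one, sum_singleton, pow_zero, pow_one, add_comm]
          have hsk : Real.sqrt p ^ d ≤ Real.sqrt p ^ (k - 1) := pow_le_pow_right₀ hs (by omega)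
          have h1k : (1 : ℝ) ≤ Real.sqrt p ^ (k - 1) := one_le_pow₀ hs
          by_cases hM : l ∣ p ^ d + 1
          · have e1 : eta p l k = (l : ℝ) - 1 := by
              unfold eta
              rw [if_pos ⟨⟨d, by omega⟩, by rw [hk2']; exact hM⟩]
            have e2 : ∑ P ∈ Irr p d, vl p l k d f P =
                ((l : ℝ) - 1) * ((Irr p d).card : ℝ) - ((l : ℝ) - 1) * (((Irr p d).filter (fun P => aeval (rt p d P) f = 0)).card : ℝ) := by
              have e3 : ∀ P ∈ Irr p d, vl p l k d f P = ((l : ℝ) - 1) - ((l : ℝ) - 1) * (if aeval (rt p d P) f = 0 then 1 else 0) := by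
                intro P _
                unfold vl
                rw [hsum, if_pos hM]
                split_ifs <;> ring
              rw [sum_congr rfl e3, sum_sub_distrib, sum_const, nsmul_eq_mul, ← mul_sum, sum_boole]
              ring
            have e4 := card_Irr_err p d hd0
            have e5 : ((((Irr p d).filter (fun P => aeval (rt p d P) f = 0)).card : ℕ) : ℝ) ≤ D := by
              exact_mod_cast (card_zeros p d f hf).trans hfD
            obtain ⟨Z, hZ⟩ : ∃ Z : ℝ, Z = (((Irr p d).filter (fun P => aeval (rt p d P) f = 0)).card : ℝ) := ⟨_, rfl⟩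
            have hZ0 : 0 ≤ Z := by rw [hZ]; exact Nat.cast_nonneg _
            rw [e1, e2, ← hZ, ← h2d, ← s_pow]
            rw [← hZ] at e5
            have e6 : (d : ℝ) * (((l : ℝ) - 1) * ((Irr p d).card : ℝ) - ((l : ℝ) - 1) * Z) - ((l : ℝ) - 1) * (p : ℝ) ^ d =
                ((l : ℝ) - 1) * ((d : ℝ) * ((Irr p d).card : ℝ) - (p : ℝ) ^ d) - ((l : ℝ) - 1) * d * Z := by ring
            rw [e6, h2d]
            have e7 : |((l : ℝ) - 1) * ((d : ℝ) * ((Irr p d).card : ℝ) - (p : ℝ) ^ d) - ((l : ℝ) - 1) * d * Z| ≤
                ((l : ℝ) - 1) * |(d : ℝ) * ((Irr p d).card : ℝ) - (p : ℝ) ^ d| + ((l : ℝ) - 1) * d * Z := by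
              refine (abs_sub _ _).trans (le_of_eq ?_)
              rw [abs_mul, abs_of_nonneg (by linarith : (0 : ℝ) ≤ (l : ℝ) - 1), abs_of_nonneg (by
                have : (0 : ℝ) ≤ (l : ℝ) - 1 := by linarith
                positivity : (0 : ℝ) ≤ ((l : ℝ) - 1) * d * Z)]
            refine e7.trans ?_
            have e8 : ((l : ℝ) - 1) * |(d : ℝ) * ((Irr p d).card : ℝ) - (p : ℝ) ^ d| ≤ l * (d * Real.sqrt p ^ (k - 1)) := by
              apply mul_le_mul (by linarith) (e4.trans ?_) (abs_nonneg _) (by linarith)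
              exact mul_le_mul_of_nonneg_left hsk (by positivity)
            have e9 : ((l : ℝ) - 1) * d * Z ≤ l * (d * D * Real.sqrt p ^ (k - 1)) := by
              have e10 : (d : ℝ) * Z ≤ d * D * Real.sqrt p ^ (k - 1) := by
                have e11 : (d : ℝ) * Z ≤ d * D := mul_le_mul_of_nonneg_left e5 (by positivity)
                have e12 : (d : ℝ) * D ≤ d * D * Real.sqrt p ^ (k - 1) := le_mul_of_one_le_right (by positivity) h1k
                linarith
              rw [mul_assoc]
              exact mul_le_mul (by linarith) e10 (by positivity) (by linarith)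
            rw [hEd]
            have e13 : 0 ≤ ((l : ℝ) + C d) * Real.sqrt p ^ (k - 1) := by
              have := hC0 d
              positivity
            have e14 : ((l : ℝ) + (l * (d + d * D) + C d)) * Real.sqrt p ^ (k - 1) =
                ((l : ℝ) + C d) * Real.sqrt p ^ (k - 1) + (l * (d * Real.sqrt p ^ (k - 1)) + l * (d * D * Real.sqrt p ^ (k - 1))) := by ring
            rw [e14]
            linarith
          · have e1 : eta p l k = 0 := by
              unfold eta
              rw [if_neg]
              rw [hk2']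
              exact fun h => hM h.2
            have e2 : ∑ P ∈ Irr p d, vl p l k d f P = G p l d f := by
              unfold G
              refine sum_congr rfl fun P _ => ?_
              unfold vl
              rw [hsum, if_neg hM]
            rw [e1, zero_mul, sub_zero, e2]
            refine (hC d hd0 hd.2 p f hf hfD hS).trans ?_
            refine (mul_le_mul_of_nonneg_left hsk (hC0 d)).trans ?_
            apply mul_le_mul_of_nonneg_right _ (by positivity)
            rw [hEd]
            have : 0 ≤ (l : ℝ) + l * (d + d * D) := by positivity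
            linarith
        · rw [if_neg h2d, sub_zero, abs_mul, Nat.abs_cast]
          have h3d : 3 * d ≤ k := by
            obtain ⟨c, hc⟩ := hd.1
            have hc3 : 3 ≤ c := by
              by_contra hcon
              have : c = 0 ∨ c = 1 ∨ c = 2 := by omega
              rcases this with h | h | h
              · rw [h] at hc
                omega
              · rw [h] at hc
                omega
              · rw [h] at hc
                omega
            calc 3 * d = d * 3 := mul_comm _ _
              _ ≤ d * c := Nat.mul_le_mul_left d hc3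
              _ = k := hc.symm
          have e1 : |∑ P ∈ Irr p d, vl p l k d f P| ≤ ((Irr p d).card : ℝ) * l := by
            refine (abs_sum_le_sum_abs _ _).trans ((sum_le_sum fun P _ => abs_vl_le p hl k d f P).trans (le_of_eq ?_))
            rw [sum_const, nsmul_eq_mul]
          have e2 := card_Irr_le p d hd0
          calc (d : ℝ) * |∑ P ∈ Irr p d, vl p l k d f P| ≤ (d : ℝ) * (((Irr p d).card : ℝ) * l) :=
                mul_le_mul_of_nonneg_left e1 (by positivity)
            _ = l * ((d : ℝ) * ((Irr p d).card : ℝ)) := by ring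
            _ ≤ l * (p : ℝ) ^ d := mul_le_mul_of_nonneg_left e2 (by positivity)
            _ = l * Real.sqrt p ^ (2 * d) := by rw [s_pow]
            _ ≤ l * Real.sqrt p ^ (k - 1) := by
                apply mul_le_mul_of_nonneg_left _ (by positivity)
                exact pow_le_pow_right₀ hs (by omega)
            _ ≤ E d * Real.sqrt p ^ (k - 1) := by
                apply mul_le_mul_of_nonneg_right _ (by positivity)
                rw [hEd]
                have := hC0 d
                have : 0 ≤ (l * (d + d * D) + C d : ℝ) := by positivity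
                linarith
      · rw [S_zero p hl k hk hdvd, G_zero p hl k hk hdvd, eta_zero p k hdvd]
        simp only [mul_zero, zero_mul, sub_zero, abs_zero]
        positivity
    have hpow : Real.sqrt p ^ (k - 1) ≤ Real.sqrt p ^ k := pow_le_pow_right₀ hs (by omega)
    constructor
    · refine key.trans ?_
      apply mul_le_mul_of_nonneg_right _ (by positivity)
      linarith
    · have h1 := hS k hk
      have h2 : |eta p l k * Real.sqrt p ^ k| ≤ l * Real.sqrt p ^ k := by
        rw [abs_of_nonneg (mul_nonneg (eta_nonneg p hl k) (by positivity))]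
        exact mul_le_mul_of_nonneg_right (eta_le p hl k) (by positivity)
      have h3 : |(k : ℝ) * G p l k f| ≤ |S p l k f| + |S p l k f - k * G p l k f - eta p l k * Real.sqrt p ^ k| +
          |eta p l k * Real.sqrt p ^ k| := by
        have e1 : (k : ℝ) * G p l k f = S p l k f - (S p l k f - k * G p l k f - eta p l k * Real.sqrt p ^ k) -
            eta p l k * Real.sqrt p ^ k := by ring
        calc |(k : ℝ) * G p l k f| = |S p l k f - (S p l k f - k * G p l k f - eta p l k * Real.sqrt p ^ k) -
            eta p l k * Real.sqrt p ^ k| := congrArg _ e1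
          _ ≤ _ := (abs_sub _ _).trans (add_le_add (abs_sub _ _) le_rfl)
      have h4 : T * Real.sqrt p ^ (k - 1) ≤ T * Real.sqrt p ^ k := mul_le_mul_of_nonneg_left hpow hT0
      have h5 : (B + l + T) * Real.sqrt p ^ k = B * Real.sqrt p ^ k + l * Real.sqrt p ^ k + T * Real.sqrt p ^ k := by ring
      rw [h5]
      linarith

end Pool.Agent.N842.ST
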