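import Pool.Agent.N842.ST.Sep
import Pool.Agent.Y57.FD.Tup0

/-!
# The joint moments of several curves at several consecutive primes, for almost all vectors obtained by changing few digits
-/

set_option autoImplicit false

namespace Pool.Agent.N842.ST

open Finset
open Pool.Agent.TH894.NE (mean box mem_box)
open Pool.Agent.TH894.NF (pr pr_prime)
open Pool.Agent.Y57.FD (digit exceptions)

/-- the coefficients of the polynomial number `c` -/
def block {N D d : ℕ} (σ : Fin N × Fin D ≃ Fin d) (m : Fin d → ℕ) (c : Fin N) : Fin D → ℕ := fun i => m (σ (c, i))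

lemma card_sigma {N D d : ℕ} (σ : Fin N × Fin D ≃ Fin d) : N * D = d := by
  have h := Fintype.card_congr σ
  rw [Fintype.card_prod, Fintype.card_fin, Fintype.card_fin, Fintype.card_fin] at h
  exact h

/-- the means over the blocks -/
lemma mean_block (N D p : ℕ) {d : ℕ} (σ : Fin N × Fin D ≃ Fin d) (F : Fin N → (Fin D → ℕ) → ℝ) :
    mean d p (fun m => ∏ c, F c (block σ m c)) = ∏ c, mean D p (F c) := by
  classical
  unfold mean
  rw [prod_mul_distrib, prod_const, card_univ, Fintype.card_fin]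
  have h1 : (1 / (p : ℝ) ^ D) ^ N = 1 / (p : ℝ) ^ d := by
    rw [div_pow, one_pow, ← pow_mul, mul_comm D N, card_sigma σ]
  rw [h1]
  congr 1
  rw [prod_univ_sum (fun _ : Fin N => box D p) F]
  refine sum_nbij' (fun m c => block σ m c) (fun v i => v (σ.symm i).1 (σ.symm i).2) ?_ ?_ ?_ ?_ ?_
  · intro m hm
    rw [mem_box] at hm
    rw [Fintype.mem_piFinset]
    intro c
    rw [mem_box]
    intro i
    exact hm _
  · intro v hv
    rw [Fintype.mem_piFinset] at hv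
    rw [mem_box]
    intro i
    have h2 := hv (σ.symm i).1
    rw [mem_box] at h2
    exact h2 _
  · intro m _
    funext i
    show m (σ ((σ.symm i).1, (σ.symm i).2)) = m i
    rw [Prod.mk.eta, Equiv.apply_symm_apply]
  · intro v _
    funext c i
    show v (σ.symm (σ (c, i))).1 (σ.symm (σ (c, i))).2 = v c i
    rw [Equiv.symm_apply_apply]
  · intro m _
    rfl

/-- the products over the curves -/
noncomputable def QA (l D p : ℕ) {N n d : ℕ} (σ : Fin N × Fin D ≃ Fin d) (r : Fin N → Fin n → ℕ) (m : Fin d → ℕ) : ℝ :=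
  ∏ c, PA l D p (r c) (block σ m c)

/-- the main terms -/
noncomputable def QM (l p : ℕ) {N n : ℕ} (r : Fin N → Fin n → ℕ) : ℝ := ∏ c, PM l p (r c)

lemma QA_mod (l D p : ℕ) {N n d : ℕ} (σ : Fin N × Fin D ≃ Fin d) (r : Fin N → Fin n → ℕ) (m : Fin d → ℕ) :
    QA l D p σ r m = QA l D p σ r (fun i => m i % p) := by
  unfold QA
  refine prod_congr rfl fun c _ => ?_
  rw [PA_mod]
  rfl

/-- the bound of one factor -/
noncomputable def bd (l D : ℕ) {n : ℕ} (r : Fin n → ℕ) : ℝ := 1 + ((l * (D + l + 1) : ℕ) : ℝ) ^ (∑ j, r j) + ∏ j : Fin n, mu (j + 1) l l (r j)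

lemma bd_one (l D : ℕ) {n : ℕ} (r : Fin n → ℕ) : 1 ≤ bd l D r := by
  unfold bd
  have h1 : 0 ≤ ∏ j : Fin n, mu (j + 1) l l (r j) := prod_nonneg fun j _ => mu_nonneg _ _ _ (by positivity) (by positivity) _
  have h2 : (0 : ℝ) ≤ ((l * (D + l + 1) : ℕ) : ℝ) ^ (∑ j, r j) := by positivity
  linarith

lemma PA_bd (l : ℕ) (hl : l.Prime) (D : ℕ) (hD : Nat.Coprime D l) (p : ℕ) {n : ℕ} (r : Fin n → ℕ) (m : Fin D → ℕ) :
    |PA l D p r m| ≤ bd l D r := by
  have h := PA_le l hl D hD p r m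
  have h1 : 0 ≤ ∏ j : Fin n, mu (j + 1) l l (r j) := prod_nonneg fun j _ => mu_nonneg _ _ _ (by positivity) (by positivity) _
  unfold bd
  linarith

lemma PM_bd (l : ℕ) (hl : l.Prime) (D : ℕ) (p : ℕ) {n : ℕ} (r : Fin n → ℕ) : |PM l p r| ≤ bd l D r := by
  have h := PM_le l hl p r
  have h2 : (0 : ℝ) ≤ ((l * (D + l + 1) : ℕ) : ℝ) ^ (∑ j, r j) := by positivity
  unfold bd
  linarith

lemma QA_bd (l : ℕ) (hl : l.Prime) (D : ℕ) (hD : Nat.Coprime D l) (p : ℕ) {N n d : ℕ} (σ : Fin N × Fin D ≃ Fin d)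
    (r : Fin N → Fin n → ℕ) (m : Fin d → ℕ) : |QA l D p σ r m| ≤ ∏ c, bd l D (r c) := by
  unfold QA
  rw [abs_prod]
  exact prod_le_prod (fun c _ => abs_nonneg _) fun c _ => PA_bd l hl D hD p (r c) _

lemma QM_bd (l : ℕ) (hl : l.Prime) (D : ℕ) (p : ℕ) {N n : ℕ} (r : Fin N → Fin n → ℕ) : |QM l p r| ≤ ∏ c, bd l D (r c) := by
  unfold QM
  rw [abs_prod]
  exact prod_le_prod (fun c _ => abs_nonneg _) fun c _ => PM_bd l hl D p (r c)

/-- the local means for several curves -/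
theorem local_mean2 (l : ℕ) (hl : l.Prime) (D : ℕ) (hD : Nat.Coprime D l) {N n d : ℕ} (σ : Fin N × Fin D ≃ Fin d) (r : Fin N → Fin n → ℕ)
    (hr : ∀ c, ∑ j : Fin n, (j + 1 : ℕ) * r c j ≤ D) : ∃ C : ℝ, 0 ≤ C ∧ ∀ p : ℕ, p.Prime →
      |mean d p (QA l D p σ r) - QM l p r| ≤ C / Real.sqrt p := by
  have hch : ∀ c : Fin N, ∃ C : ℝ, 0 ≤ C ∧ ∀ p : ℕ, p.Prime → |mean D p (PA l D p (r c)) - PM l p (r c)| ≤ C / Real.sqrt p :=
    fun c => local_mean l hl D hD (r c) (hr c)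
  choose C hC0 hC using hch
  obtain ⟨M, hM⟩ : ∃ M : ℝ, M = 1 + ∑ c, bd l D (r c) := ⟨_, rfl⟩
  have hb0 : ∀ c, 0 ≤ bd l D (r c) := fun c => zero_le_one.trans (bd_one l D (r c))
  have hM1 : 1 ≤ M := by
    rw [hM]
    have := sum_nonneg (fun c (_ : c ∈ (univ : Finset (Fin N))) => hb0 c)
    linarith
  have hbM : ∀ c, bd l D (r c) ≤ M := by
    intro c
    have := single_le_sum (f := fun c => bd l D (r c)) (fun c _ => hb0 c) (mem_univ c)
    rw [hM]
    linarith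
  refine ⟨M ^ N * ∑ c, C c, mul_nonneg (by positivity) (sum_nonneg fun c _ => hC0 c), fun p hp => ?_⟩
  have h1 : mean d p (QA l D p σ r) = ∏ c, mean D p (PA l D p (r c)) := mean_block N D p σ (fun c => PA l D p (r c))
  rw [h1]
  unfold QM
  have h2 := prod_diff univ (fun c => mean D p (PA l D p (r c))) (fun c => PM l p (r c)) M hM1
    (fun c _ => (mean_abs_le' hp.one_lt.le _ _ (fun m => PA_bd l hl D hD p (r c) m)).trans (hbM c))
    (fun c _ => (PM_bd l hl D p (r c)).trans (hbM c))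
  rw [card_univ, Fintype.card_fin] at h2
  refine h2.trans ?_
  rw [mul_div_assoc, sum_div]
  apply mul_le_mul_of_nonneg_left _ (by positivity)
  exact sum_le_sum fun c _ => hC c p hp

open Classical in
/-- **The joint moments of several curves at several consecutive primes.** -/
theorem master (b l D N n s : ℕ) {d : ℕ} (σ : Fin N × Fin D ≃ Fin d) (hb : 2 ≤ b) (hl : l.Prime) (hD : Nat.Coprime D l) (hN : 1 ≤ N) (hs : 1 ≤ s) (δ : ℝ) (hδ : 0 < δ)
    (A B : ℕ) : ∃ c : ℝ, 0 < c ∧ ∃ y₀ : ℕ, ∀ (K r : Fin d → ℕ) (y : ℕ), (∀ i, 2 * r i ≤ K i) → y₀ ≤ y →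
    ∀ N' : Fin d → ℕ, (∀ i, N' i < b ^ K i) →
    ∀ f : Fin d → ℕ → ℕ, (∀ i j, f i j < b ∧ f i j ≠ digit b j (N' i)) →
    ∀ W : ℕ → Set (ℕ → ℝ), (∀ x, (W x).Finite ∧ (W x).ncard ≤ x ^ B) → (∀ x, ∀ w ∈ W x, ∀ k, |w k| ≤ 1) →
    ∀ E : (Fin d → ℕ) → Prop,
    (∀ m : Fin d → ℕ, (∀ x : ℕ, y ≤ x → (∀ i, (x : ℝ) ≤ Real.exp (c * r i)) → ∀ w ∈ W x, ∀ q : Fin s → Fin N → Fin n → ℕ,
      (∀ e c, ∑ j : Fin n, (j + 1 : ℕ) * q e c j ≤ D) →
      |∑ k ∈ range x, w k * ∏ e : Fin s, QA l D (pr (k + e)) σ (q e) m - ∑ k ∈ range x, w k * ∏ e : Fin s, QM l (pr (k + e)) (q e)| ≤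
        Real.sqrt (max 1 (∑ k ∈ range x, w k ^ 2)) * (x : ℝ) ^ δ) → E m) →
    (exceptions b K r N' f E : ℝ) ≤ 1 / (y : ℝ) ^ A * ∏ i, ((K i).choose (r i) : ℝ) := by
  have hD0 : D ≠ 0 := by
    rintro rfl
    rw [Nat.coprime_zero_left] at hD
    exact hl.one_lt.ne' hD
  have hd : 1 ≤ d := by
    rw [← card_sigma σ]
    exact Nat.one_le_iff_ne_zero.2 (Nat.mul_ne_zero (by omega) hD0)
  -- the admissible exponents
  obtain ⟨Q, hQ⟩ : ∃ Q : Finset (Fin s → Fin N → Fin n → ℕ), Q = (Fintype.piFinset (fun _ : Fin s => Fintype.piFinset (fun _ : Fin N =>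
    Fintype.piFinset (fun _ : Fin n => range (D + 1))))).filter (fun q => ∀ e c, ∑ j : Fin n, (j + 1 : ℕ) * q e c j ≤ D) := ⟨_, rfl⟩
  have hQm : ∀ q : Fin s → Fin N → Fin n → ℕ, q ∈ Q ↔ ∀ e c, ∑ j : Fin n, (j + 1 : ℕ) * q e c j ≤ D := by
    intro q
    rw [hQ, mem_filter]
    constructor
    · exact fun h => h.2
    · intro h
      refine ⟨?_, h⟩
      rw [Fintype.mem_piFinset]
      intro e
      rw [Fintype.mem_piFinset]
      intro c
      rw [Fintype.mem_piFinset]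
      intro j
      rw [mem_range]
      have h1 := h e c
      have h2 : (j + 1 : ℕ) * q e c j ≤ ∑ j : Fin n, (j + 1 : ℕ) * q e c j :=
        single_le_sum (f := fun j : Fin n => (j + 1 : ℕ) * q e c j) (fun j _ => Nat.zero_le _) (mem_univ j)
      have h3 : q e c j ≤ (j + 1 : ℕ) * q e c j := Nat.le_mul_of_pos_left _ (by omega)
      omega
  -- the constants
  have hch : ∀ (q : Fin s → Fin N → Fin n → ℕ) (e : Fin s), ∃ C : ℝ, 0 ≤ C ∧ (q ∈ Q → ∀ p : ℕ, p.Prime →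
      |mean d p (QA l D p σ (q e)) - QM l p (q e)| ≤ C / Real.sqrt p) := by
    intro q e
    by_cases hq : q ∈ Q
    · obtain ⟨C, hC0, hC⟩ := local_mean2 l hl D hD σ (q e) ((hQm q).1 hq e)
      exact ⟨C, hC0, fun _ => hC⟩
    · exact ⟨0, le_rfl, fun h => absurd h hq⟩
  choose C hC0 hC using hch
  obtain ⟨C', hC'⟩ : ∃ C' : ℝ, C' = ∑ q ∈ Q, ∑ e, C q e := ⟨_, rfl⟩
  have hC'0 : 0 ≤ C' := by
    rw [hC']
    exact sum_nonneg fun q _ => sum_nonneg fun e _ => hC0 q e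
  have hCC' : ∀ q ∈ Q, ∀ e, C q e ≤ C' := by
    intro q hq e
    rw [hC']
    refine (single_le_sum (f := fun e => C q e) (fun e _ => hC0 q e) (mem_univ e)).trans ?_
    exact single_le_sum (f := fun q => ∑ e, C q e) (fun q _ => sum_nonneg fun e _ => hC0 q e) hq
  obtain ⟨β, hβ⟩ : ∃ β : (Fin s → Fin N → Fin n → ℕ) → Fin s → ℝ, β = fun q e => ∏ c, bd l D (q e c) := ⟨_, rfl⟩
  have hβ0 : ∀ q e, 0 ≤ β q e := by
    intro q e
    rw [hβ]
    exact prod_nonneg fun c _ => zero_le_one.trans (bd_one l D _)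
  obtain ⟨B', hB'⟩ : ∃ B' : ℝ, B' = 1 + 2 * ∑ q ∈ Q, ∑ e, β q e := ⟨_, rfl⟩
  have hS0 : 0 ≤ ∑ q ∈ Q, ∑ e, β q e := sum_nonneg fun q _ => sum_nonneg fun e _ => hβ0 q e
  have hB'1 : 1 ≤ B' := by
    rw [hB']
    linarith
  have hβB : ∀ q ∈ Q, ∀ e, 2 * β q e ≤ B' := by
    intro q hq e
    have h1 := (single_le_sum (f := fun e => β q e) (fun e _ => hβ0 q e) (mem_univ e)).trans
      (single_le_sum (f := fun q => ∑ e, β q e) (fun q _ => sum_nonneg fun e _ => hβ0 q e) hq)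
    rw [hB']
    linarith
  obtain ⟨c, hc, y₁, h⟩ := Pool.Agent.Y57.FD.tuples0 b d s hb hd hs (δ / 2) (by positivity) A (B + (Q.card + 2 ^ s)) B' C' hB'1 hC'0
  -- the threshold
  have hev : ∀ᶠ x : ℕ in Filter.atTop, (2 : ℝ) ^ s ≤ (x : ℝ) ^ (δ / 2) :=
    ((tendsto_rpow_atTop (by positivity : 0 < δ / 2)).comp tendsto_natCast_atTop_atTop).eventually (Filter.eventually_ge_atTop _)
  obtain ⟨x₀, hx₀⟩ := Filter.eventually_atTop.1 hev
  refine ⟨c, hc, y₁ + x₀ + 2, fun K r y hrK hy N' hN' f hf W hW hW1 E hE => ?_⟩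
  have hWf : ∀ x, (W x).Finite := fun x => (hW x).1
  obtain ⟨P, hP⟩ : ∃ P : Finset (Finset (Fin s)), P = univ.filter (fun T => T.Nonempty) := ⟨_, rfl⟩
  have hPc : P.card ≤ 2 ^ s := by
    rw [hP]
    refine (card_filter_le _ _).trans ?_
    rw [card_univ, Fintype.card_finset, Fintype.card_fin]
  refine h K r y hrK (by omega) N' hN' f hf
    ((ℕ → ℝ) × ((Fin s → Fin N → Fin n → ℕ) × Finset (Fin s))) (fun x => (hWf x).toFinset ×ˢ (Q ×ˢ P)) ?_ (fun z => z.1) ?_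
    (fun z i p m => if z.2.1 ∈ Q then (if i ∈ z.2.2 then QA l D p σ (z.2.1 i) m - QM l p (z.2.1 i) else QM l p (z.2.1 i)) else 0)
    ?_ ?_ ?_ _ ?_
  · intro x hx
    rw [card_product, card_product, ← Set.ncard_eq_toFinset_card _ (hWf x), pow_add, pow_add]
    apply Nat.mul_le_mul (hW x).2
    have e1 : Q.card ≤ x ^ Q.card := (Nat.lt_pow_self (by omega)).le
    have e2 : P.card ≤ x ^ (2 ^ s) := hPc.trans (Nat.lt_pow_self (by omega)).le
    exact Nat.mul_le_mul e1 e2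
  · intro x z hz k
    rw [mem_product, Set.Finite.mem_toFinset] at hz
    exact hW1 x z.1 hz.1 k
  · intro z i p hp m
    show (if z.2.1 ∈ Q then (if i ∈ z.2.2 then QA l D p σ (z.2.1 i) m - QM l p (z.2.1 i) else QM l p (z.2.1 i)) else 0) =
      (if z.2.1 ∈ Q then (if i ∈ z.2.2 then QA l D p σ (z.2.1 i) (fun j => m j % p) - QM l p (z.2.1 i) else QM l p (z.2.1 i)) else 0)
    rw [← QA_mod]
  · intro z i p hp m
    show |(if z.2.1 ∈ Q then (if i ∈ z.2.2 then QA l D p σ (z.2.1 i) m - QM l p (z.2.1 i) else QM l p (z.2.1 i)) else 0)| ≤ B'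
    split_ifs with h1 h2
    · have e1 := QA_bd l hl D hD p σ (z.2.1 i) m
      have e2 := QM_bd l hl D p (z.2.1 i)
      have e3 := hβB _ h1 i
      rw [hβ] at e3
      refine (abs_sub _ _).trans ?_
      linarith
    · have e2 := QM_bd l hl D p (z.2.1 i)
      have e3 := hβB _ h1 i
      have e4 := hβ0 z.2.1 i
      rw [hβ] at e3 e4
      have e5 : (∏ c, bd l D (z.2.1 i c)) ≤ 2 * ∏ c, bd l D (z.2.1 i c) := by linarith
      linarith
    · rw [abs_zero]
      linarith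
  · intro x z hz
    rw [mem_product, mem_product] at hz
    have hq : z.2.1 ∈ Q := hz.2.1
    have hT : z.2.2.Nonempty := by
      have := hz.2.2
      rw [hP, mem_filter] at this
      exact this.2
    obtain ⟨i, hi⟩ := hT
    refine ⟨i, fun p hp => ?_⟩
    have h2 : (fun m : Fin d → ℕ => if z.2.1 ∈ Q then
        (if i ∈ z.2.2 then QA l D p σ (z.2.1 i) m - QM l p (z.2.1 i) else QM l p (z.2.1 i)) else 0) =
        fun m : Fin d → ℕ => (QA l D p σ (z.2.1 i)) m + (fun _ => - QM l p (z.2.1 i)) m := by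
      funext m
      rw [if_pos hq, if_pos hi]
      ring
    show |mean d p (fun m : Fin d → ℕ => if z.2.1 ∈ Q then
        (if i ∈ z.2.2 then QA l D p σ (z.2.1 i) m - QM l p (z.2.1 i) else QM l p (z.2.1 i)) else 0)| ≤ _
    rw [h2, Pool.Agent.TH894.NE.mean_add, Pool.Agent.TH894.NE.mean_const d p hp.pos, ← sub_eq_add_neg]
    refine (hC z.2.1 i hq p hp).trans ?_
    exact div_le_div_of_nonneg_right (hCC' _ hq i) (Real.sqrt_nonneg _)
  · intro m hm
    refine hE m fun x hyx hxr w hw q hq => ?_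
    have hqQ : q ∈ Q := (hQm q).2 hq
    have h1 : ∀ T ∈ P, |∑ k ∈ range x, w k * ∏ i : Fin s, (if i ∈ T then QA l D (pr (k + i)) σ (q i) m - QM l (pr (k + i)) (q i)
        else QM l (pr (k + i)) (q i))| ≤ Real.sqrt (max 1 (∑ k ∈ range x, w k ^ 2)) * (x : ℝ) ^ (δ / 2) := by
      intro T hT
      have h2 := hm x (by omega) (by omega) hxr (w, (q, T)) (by
        rw [mem_product, mem_product, Set.Finite.mem_toFinset]
        exact ⟨hw, hqQ, hT⟩)
      simp only [if_pos hqQ] at h2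
      exact h2
    have h3 : ∑ k ∈ range x, w k * ∏ e : Fin s, QA l D (pr (k + e)) σ (q e) m - ∑ k ∈ range x, w k * ∏ e : Fin s, QM l (pr (k + e)) (q e) =
        ∑ T ∈ P, ∑ k ∈ range x, w k * ∏ i : Fin s, (if i ∈ T then QA l D (pr (k + i)) σ (q i) m - QM l (pr (k + i)) (q i)
        else QM l (pr (k + i)) (q i)) := by
      rw [sum_comm, ← sum_sub_distrib]
      refine sum_congr rfl fun k _ => ?_
      rw [← mul_sub, ← mul_sum]
      congr 1
      have e1 : ∏ e : Fin s, QA l D (pr (k + e)) σ (q e) m = ∑ T : Finset (Fin s), ∏ i : Fin s,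
          (if i ∈ T then QA l D (pr (k + i)) σ (q i) m - QM l (pr (k + i)) (q i) else QM l (pr (k + i)) (q i)) := by
        have e2 : ∏ e : Fin s, QA l D (pr (k + e)) σ (q e) m =
            ∏ e : Fin s, ((QA l D (pr (k + e)) σ (q e) m - QM l (pr (k + e)) (q e)) + QM l (pr (k + e)) (q e)) :=
          prod_congr rfl fun e _ => by ring
        rw [e2, prod_add, powerset_univ]
        refine sum_congr rfl fun T _ => ?_
        rw [prod_ite, filter_mem_eq_inter, univ_inter]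
        congr 1
        refine prod_congr ?_ fun _ _ => rfl
        ext i
        simp
      rw [e1, hP]
      have e3 : (univ : Finset (Finset (Fin s))) = insert ∅ (univ.filter (fun T => T.Nonempty)) := by
        ext T
        simp only [mem_univ, mem_insert, mem_filter, true_and, true_iff]
        exact T.eq_empty_or_nonempty
      rw [e3, sum_insert (by simp)]
      have e4 : ∏ i : Fin s, (if i ∈ (∅ : Finset (Fin s)) then QA l D (pr (k + i)) σ (q i) m - QM l (pr (k + i)) (q i)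
          else QM l (pr (k + i)) (q i)) = ∏ e : Fin s, QM l (pr (k + e)) (q e) :=
        prod_congr rfl fun i _ => if_neg (notMem_empty i)
      rw [e4, ← e3]
      ring
    rw [h3]
    refine (abs_sum_le_sum_abs _ _).trans ((sum_le_sum h1).trans ?_)
    rw [sum_const, nsmul_eq_mul]
    have hx0 : (0 : ℝ) < x := by exact_mod_cast (by omega : 0 < x)
    have e5 : (x : ℝ) ^ δ = (x : ℝ) ^ (δ / 2) * (x : ℝ) ^ (δ / 2) := by
      rw [← Real.rpow_add hx0]
      congr 1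
      ring
    have e6 : (P.card : ℝ) ≤ (x : ℝ) ^ (δ / 2) := by
      refine le_trans ?_ (hx₀ x (by omega))
      exact_mod_cast hPc
    rw [e5]
    calc (P.card : ℝ) * (Real.sqrt (max 1 (∑ k ∈ range x, w k ^ 2)) * (x : ℝ) ^ (δ / 2)) ≤
        (x : ℝ) ^ (δ / 2) * (Real.sqrt (max 1 (∑ k ∈ range x, w k ^ 2)) * (x : ℝ) ^ (δ / 2)) :=
          mul_le_mul_of_nonneg_right e6 (by positivity)
      _ = _ := by ring

end Pool.Agent.N842.ST
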