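import Pool.Agent.N842.ST.Glob

/-!
# The traces on the cohomology of products of curves
-/

set_option autoImplicit false

namespace Pool.Agent.N842.ST

open Finset Polynomial
open Pool.Agent.TH894.NE (mean box mem_box)

/-- good reduction -/
def Good (l D p : ℕ) (m : Fin D → ℕ) : Prop :=
  p ≠ l ∧ (X ^ D + ∑ i, C (m i : ZMod p) * X ^ (i : ℕ) : (ZMod p)[X]).Separable

open Classical in
/-- the indicator function of the good reduction -/
noncomputable def ind (l D p : ℕ) (m : Fin D → ℕ) : ℝ := if Good l D p m then 1 else 0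

lemma Good_mod (l D p : ℕ) (m : Fin D → ℕ) : Good l D p m ↔ Good l D p (fun i => m i % p) := by
  unfold Good
  have e : (fun i => ((m i % p : ℕ) : ZMod p)) = fun i => ((m i : ℕ) : ZMod p) := by
    funext i
    rw [ZMod.natCast_mod]
  have e1 : (X ^ D + ∑ i, C ((m i % p : ℕ) : ZMod p) * X ^ (i : ℕ) : (ZMod p)[X]) = X ^ D + ∑ i, C (m i : ZMod p) * X ^ (i : ℕ) := by
    congr 1
    refine sum_congr rfl fun i _ => ?_
    rw [congrFun e i]
  rw [e1]

lemma ind_mod (l D p : ℕ) (m : Fin D → ℕ) : ind l D p m = ind l D p (fun i => m i % p) := by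
  unfold ind
  by_cases h : Good l D p m
  · rw [if_pos h, if_pos ((Good_mod l D p m).1 h)]
  · rw [if_neg h, if_neg (fun h' => h ((Good_mod l D p m).2 h'))]

lemma ind_abs (l D p : ℕ) (m : Fin D → ℕ) : |ind l D p m| ≤ 1 := by
  unfold ind
  split_ifs <;> simp

lemma ind_idem (l D p : ℕ) (m : Fin D → ℕ) (q : ℕ) (hq : q ≠ 0) : ind l D p m ^ q = ind l D p m := by
  unfold ind
  split_ifs
  · rw [one_pow]
  · rw [zero_pow hq]

lemma A_bad (l D k p : ℕ) (m : Fin D → ℕ) (h : ¬ Good l D p m) : A l D k p m = 0 := by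
  unfold A
  split_ifs with h1 h2
  · exact absurd ⟨h1.2, h2⟩ h
  · rfl
  · rfl

/-- the products with the indicator function -/
noncomputable def PI (l D p : ℕ) {n : ℕ} (r : Fin n → ℕ) (m : Fin D → ℕ) : ℝ := ind l D p m * PA l D p r m

lemma PI_mod (l D p : ℕ) {n : ℕ} (r : Fin n → ℕ) (m : Fin D → ℕ) : PI l D p r m = PI l D p r (fun i => m i % p) := by
  unfold PI
  rw [ind_mod, PA_mod]

lemma PI_bd (l : ℕ) (hl : l.Prime) (D : ℕ) (hD : Nat.Coprime D l) (p : ℕ) {n : ℕ} (r : Fin n → ℕ) (m : Fin D → ℕ) :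
    |PI l D p r m| ≤ bd l D r := by
  unfold PI
  rw [abs_mul]
  calc |ind l D p m| * |PA l D p r m| ≤ 1 * bd l D r := mul_le_mul (ind_abs _ _ _ _) (PA_bd l hl D hD p r m) (abs_nonneg _) zero_le_one
    _ = _ := one_mul _

theorem local_mean3 (l : ℕ) (hl : l.Prime) (D : ℕ) (hD : Nat.Coprime D l) {n : ℕ} (r : Fin n → ℕ)
    (hr : ∑ j : Fin n, (j + 1 : ℕ) * r j ≤ D) : ∃ C : ℝ, 0 ≤ C ∧ ∀ p : ℕ, p.Prime →
      |mean D p (PI l D p r) - PM l p r| ≤ C / Real.sqrt p := by
  classical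
  by_cases h0 : ∀ j, r j = 0
  · have hD0 : D ≠ 0 := by
      rintro rfl
      rw [Nat.coprime_zero_left] at hD
      exact hl.one_lt.ne' hD
    obtain ⟨d, rfl⟩ : ∃ d, D = d + 1 := ⟨D - 1, by omega⟩
    refine ⟨(d + 1) + 2 * (d + 1 + l + 1), by positivity, fun p hp => ?_⟩
    have : Fact p.Prime := ⟨hp⟩
    have hs := one_le_s p
    have hs0 : 0 < Real.sqrt p := by linarith
    have hp0 : (0 : ℝ) < p := by exact_mod_cast hp.pos
    have hp1 : (1 : ℝ) ≤ p := by exact_mod_cast hp.one_lt.le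
    have hsp : Real.sqrt p ≤ p := by
      rw [Real.sqrt_le_left hp0.le]
      nlinarith
    have e1 : PM l p r = 1 := by
      unfold PM
      exact prod_eq_one fun j _ => by rw [h0 j, mu_zero]
    have e2 : PI l (d + 1) p r = ind l (d + 1) p := by
      funext m
      unfold PI PA
      rw [prod_eq_one fun j _ => by rw [h0 j, pow_zero], mul_one]
    rw [e1, e2]
    by_cases hbig : d + 1 < p ∧ p ≠ l
    · obtain ⟨hpd, hpl⟩ := hbig
      have h2 : mean (d + 1) p (ind l (d + 1) p) = av p (fun u : Fin (d + 1) → ZMod p => if (fp p u).Separable then 1 else 0) := by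
        rw [← mean_eq_av]
        congr 1
        funext m
        unfold ind
        have e3 : Good l (d + 1) p m ↔ (fp p (fun i => ((m i : ℕ) : ZMod p))).Separable := by
          constructor
          · exact fun h => h.2
          · exact fun h => ⟨hpl, h⟩
        simp only [e3]
      have h3 : av p (fun u : Fin (d + 1) → ZMod p => if (fp p u).Separable then 1 else 0) - 1 =
          - ((((univ : Finset (Fin (d + 1) → ZMod p)).filter (fun u => ¬ (fp p u).Separable)).card : ℝ) / (p : ℝ) ^ (d + 1)) := by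
        unfold av
        have e4 : (∑ u : Fin (d + 1) → ZMod p, (if (fp p u).Separable then (1 : ℝ) else 0)) =
            (p : ℝ) ^ (d + 1) - ((univ : Finset (Fin (d + 1) → ZMod p)).filter (fun u => ¬ (fp p u).Separable)).card := by
          rw [sum_boole]
          have e5 := card_filter_add_card_filter_not (s := (univ : Finset (Fin (d + 1) → ZMod p))) (fun u => (fp p u).Separable)
          rw [card_univ, Fintype.card_pi_const, ZMod.card] at e5
          have e6 : ((((univ : Finset (Fin (d + 1) → ZMod p)).filter (fun u => (fp p u).Separable)).card : ℕ) : ℝ) +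
              ((((univ : Finset (Fin (d + 1) → ZMod p)).filter (fun u => ¬ (fp p u).Separable)).card : ℕ) : ℝ) = ((p ^ (d + 1) : ℕ) : ℝ) := by
            exact_mod_cast e5
          push_cast at e6
          linarith
        rw [e4]
        field_simp
        ring
      rw [h2, h3, abs_neg, abs_of_nonneg (by positivity)]
      have h4 : ((((univ : Finset (Fin (d + 1) → ZMod p)).filter (fun u => ¬ (fp p u).Separable)).card : ℕ) : ℝ) ≤ (d + 1) * (p : ℝ) ^ d := by
        exact_mod_cast bad_card p hpd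
      have h5 : ((((univ : Finset (Fin (d + 1) → ZMod p)).filter (fun u => ¬ (fp p u).Separable)).card : ℕ) : ℝ) / (p : ℝ) ^ (d + 1) ≤
          (d + 1) / Real.sqrt p := by
        rw [div_le_div_iff₀ (by positivity) hs0]
        calc ((((univ : Finset (Fin (d + 1) → ZMod p)).filter (fun u => ¬ (fp p u).Separable)).card : ℕ) : ℝ) * Real.sqrt p ≤
            ((d + 1) * (p : ℝ) ^ d) * p := mul_le_mul h4 hsp hs0.le (by positivity)
          _ = (d + 1) * (p : ℝ) ^ (d + 1) := by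
              rw [pow_succ]
              ring
      refine h5.trans ?_
      apply div_le_div_of_nonneg_right _ hs0.le
      have : (0 : ℝ) ≤ 2 * (d + 1 + l + 1) := by positivity
      linarith
    · have hsmall : (p : ℝ) ≤ d + 1 + l + 1 := by
        have : p ≤ d + 1 + l + 1 := by
          by_contra hcon
          apply hbig
          omega
        exact_mod_cast this
      have h1 : |mean (d + 1) p (ind l (d + 1) p)| ≤ 1 := mean_abs_le' hp.one_lt.le _ _ (ind_abs l (d + 1) p)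
      have h3 : |mean (d + 1) p (ind l (d + 1) p) - 1| ≤ 1 + 1 := (abs_sub _ _).trans (add_le_add h1 (by rw [abs_one]))
      refine h3.trans ?_
      rw [le_div_iff₀ hs0]
      have h4 : (1 + 1) * Real.sqrt p ≤ 2 * (d + 1 + l + 1) := by
        have := hsp.trans hsmall
        linarith
      have h5 : (0 : ℝ) ≤ d + 1 := by positivity
      linarith
  · obtain ⟨C, hC0, hC⟩ := local_mean l hl D hD r hr
    refine ⟨C, hC0, fun p hp => ?_⟩
    have e : PI l D p r = PA l D p r := by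
      funext m
      unfold PI
      by_cases h : Good l D p m
      · unfold ind
        rw [if_pos h, one_mul]
      · push Not at h0
        obtain ⟨j, hj⟩ := h0
        have : PA l D p r m = 0 := by
          unfold PA
          exact prod_eq_zero (mem_univ j) (by rw [A_bad l D _ p m h, zero_pow hj])
        rw [this, mul_zero]
    rw [e]
    exact hC p hp

/-- the local means for several curves -/
theorem local_mean4 (l : ℕ) (hl : l.Prime) (D : ℕ) (hD : Nat.Coprime D l) {N n d : ℕ} (σ : Fin N × Fin D ≃ Fin d) (r : Fin N → Fin n → ℕ)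
    (hr : ∀ c, ∑ j : Fin n, (j + 1 : ℕ) * r c j ≤ D) : ∃ C : ℝ, 0 ≤ C ∧ ∀ p : ℕ, p.Prime →
      |mean d p (fun m => ∏ c, PI l D p (r c) (block σ m c)) - QM l p r| ≤ C / Real.sqrt p := by
  have hch : ∀ c : Fin N, ∃ C : ℝ, 0 ≤ C ∧ ∀ p : ℕ, p.Prime → |mean D p (PI l D p (r c)) - PM l p (r c)| ≤ C / Real.sqrt p :=
    fun c => local_mean3 l hl D hD (r c) (hr c)
  choose C hC0 hC using hch
  obtain ⟨M, hM⟩ : ∃ M : ℝ, M = 1 + ∑ c, bd l D (r c) := ⟨_, rfl⟩
  have hb0 : ∀ c, 0 ≤ bd l D (r c) := fun c => zero_le_one.trans (bd_one l D (r c))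
  have hM1 : 1 ≤ M := by
    rw [hM]
    have := sum_nonneg (fun c (_ : c ∈ (univ : Finset (Fin N))) => hb0 c)
    linarith
  have hbM : ∀ c, bd l D (r c) ≤ M := by
    intro c
    have := single_le_sum (f := fun c => bd l D (r c)) (fun c _ => hb0 c) (mem_univ c)
    rw [hM]
    linarith
  refine ⟨M ^ N * ∑ c, C c, mul_nonneg (by positivity) (sum_nonneg fun c _ => hC0 c), fun p hp => ?_⟩
  rw [mean_block N D p σ (fun c => PI l D p (r c))]
  unfold QM
  have h2 := prod_diff univ (fun c => mean D p (PI l D p (r c))) (fun c => PM l p (r c)) M hM1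
    (fun c _ => (mean_abs_le' hp.one_lt.le _ _ (fun m => PI_bd l hl D hD p (r c) m)).trans (hbM c))
    (fun c _ => (PM_bd l hl D p (r c)).trans (hbM c))
  rw [card_univ, Fintype.card_fin] at h2
  refine h2.trans ?_
  rw [mul_div_assoc, sum_div]
  apply mul_le_mul_of_nonneg_left _ (by positivity)
  exact sum_le_sum fun c _ => hC c p hp

/-- the number of the sets of a tuple which contain `c` -/
def cnt {N q : ℕ} (T : Fin q → Finset (Fin N)) (c : Fin N) : ℕ := (univ.filter (fun j => c ∈ T j)).card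

lemma cnt_le {N q : ℕ} (T : Fin q → Finset (Fin N)) (c : Fin N) : cnt T c ≤ q := by
  unfold cnt
  refine (card_filter_le _ _).trans ?_
  rw [card_univ, Fintype.card_fin]

lemma pow_expand {N : ℕ} (q : ℕ) (β : Finset (Fin N) → ℝ) (x : Fin N → ℝ) :
    (∑ S : Finset (Fin N), β S * ∏ c ∈ S, x c) ^ q = ∑ T : Fin q → Finset (Fin N), (∏ j, β (T j)) * ∏ c, x c ^ cnt T c := by
  classical
  rw [Fintype.sum_pow]
  refine sum_congr rfl fun T _ => ?_
  rw [prod_mul_distrib]
  congr 1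
  have h1 : ∀ j : Fin q, ∏ c ∈ T j, x c = ∏ c, if c ∈ T j then x c else 1 := by
    intro j
    rw [prod_ite_mem, univ_inter]
  rw [prod_congr rfl (fun j _ => h1 j), prod_comm]
  refine prod_congr rfl fun c _ => ?_
  rw [prod_ite, prod_const, prod_const_one, mul_one]
  rfl

/-- the traces -/
noncomputable def tc (l D N k p : ℕ) (β : Finset (Fin N) → ℝ) (v : Fin N → Fin D → ℕ) : ℝ :=
  (∏ c, ind l D p (v c)) * ∑ S : Finset (Fin N), β S * ∏ c ∈ S, -A l D k p (v c)

/-- the main terms -/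
noncomputable def mk (l N k p : ℕ) (β : Finset (Fin N) → ℝ) (q : ℕ) : ℝ :=
  ∑ T : Fin q → Finset (Fin N), (∏ j, β (T j)) * ∏ c, ((-1) ^ cnt T c * mu k (kap p l k) (eta p l k) (cnt T c))

/-- the products of the powers of the traces -/
noncomputable def TP (l D N p : ℕ) {n d : ℕ} (σ : Fin N × Fin D ≃ Fin d) (β : Finset (Fin N) → ℝ) (q : Fin n → ℕ) (m : Fin d → ℕ) : ℝ :=
  ∏ k : Fin n, tc l D N (k + 1) p β (block σ m) ^ q k

lemma tc_mod (l D N k p : ℕ) (β : Finset (Fin N) → ℝ) (v : Fin N → Fin D → ℕ) :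
    tc l D N k p β v = tc l D N k p β (fun c i => v c i % p) := by
  have h1 : ∏ c, ind l D p (v c) = ∏ c, ind l D p (fun i => v c i % p) := prod_congr rfl fun c _ => ind_mod l D p (v c)
  have h2 : ∑ S : Finset (Fin N), β S * ∏ c ∈ S, -A l D k p (v c) = ∑ S : Finset (Fin N), β S * ∏ c ∈ S, -A l D k p (fun i => v c i % p) := by
    refine sum_congr rfl fun S _ => ?_
    rw [prod_congr rfl (fun c _ => by rw [A_mod l D k p (v c)])]
  unfold tc
  rw [h1, h2]

lemma TP_mod (l D N p : ℕ) {n d : ℕ} (σ : Fin N × Fin D ≃ Fin d) (β : Finset (Fin N) → ℝ) (q : Fin n → ℕ) (m : Fin d → ℕ) :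
    TP l D N p σ β q m = TP l D N p σ β q (fun i => m i % p) := by
  unfold TP
  refine prod_congr rfl fun k _ => ?_
  rw [tc_mod l D N (k + 1) p β (block σ m)]
  rfl

/-- the expansion -/
lemma TP_expand (l D N p : ℕ) {n d : ℕ} (σ : Fin N × Fin D ≃ Fin d) (β : Finset (Fin N) → ℝ) (q : Fin n → ℕ) (hq : ∃ k, q k ≠ 0)
    (m : Fin d → ℕ) : TP l D N p σ β q m = ∑ T : (k : Fin n) → Fin (q k) → Finset (Fin N),
      ((∏ k, ∏ j, β (T k j)) * ∏ c, (-1 : ℝ) ^ (∑ k, cnt (T k) c)) * ∏ c, PI l D p (fun k => cnt (T k) c) (block σ m c) := by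
  classical
  obtain ⟨v, hv⟩ : ∃ v : Fin N → Fin D → ℕ, v = block σ m := ⟨_, rfl⟩
  unfold TP
  rw [← hv]
  obtain ⟨I, hI⟩ : ∃ I : ℝ, I = ∏ c, ind l D p (v c) := ⟨_, rfl⟩
  have hIq : ∀ r : ℕ, r ≠ 0 → I ^ r = I := by
    intro r hr
    rw [hI, ← prod_pow]
    exact prod_congr rfl fun c _ => ind_idem l D p (v c) r hr
  have h1 : ∏ k : Fin n, tc l D N (k + 1) p β v ^ q k = I * ∏ k : Fin n, (∑ S : Finset (Fin N), β S * ∏ c ∈ S, -A l D (k + 1) p (v c)) ^ q k := by
    unfold tc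
    rw [← hI]
    simp only [mul_pow]
    rw [prod_mul_distrib, prod_pow_eq_pow_sum, hIq]
    obtain ⟨k, hk⟩ := hq
    intro h
    exact hk ((sum_eq_zero_iff.1 h) k (mem_univ k))
  rw [h1, prod_congr rfl (fun k _ => pow_expand (q k) β (fun c => -A l D (k + 1) p (v c)))]
  have e2 := prod_univ_sum (fun k : Fin n => (univ : Finset (Fin (q k) → Finset (Fin N))))
    (fun k T => (∏ j, β (T j)) * ∏ c, (-A l D (k + 1) p (v c)) ^ cnt T c)
  rw [Fintype.piFinset_univ] at e2
  rw [e2, mul_sum]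
  refine sum_congr rfl fun T _ => ?_
  rw [prod_mul_distrib, hI]
  have e3 : ∏ k : Fin n, ∏ c, (-A l D (k + 1) p (v c)) ^ cnt (T k) c = (∏ c, (-1 : ℝ) ^ (∑ k, cnt (T k) c)) * ∏ c, PA l D p (fun k => cnt (T k) c) (v c) := by
    rw [prod_comm, ← prod_mul_distrib]
    refine prod_congr rfl fun c _ => ?_
    unfold PA
    rw [← prod_pow_eq_pow_sum, ← prod_mul_distrib]
    refine prod_congr rfl fun k _ => ?_
    rw [← mul_pow, neg_one_mul]
  rw [e3]
  have e4 : ∏ c, PI l D p (fun k => cnt (T k) c) (v c) = (∏ c, ind l D p (v c)) * ∏ c, PA l D p (fun k => cnt (T k) c) (v c) := by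
    rw [← prod_mul_distrib]
    rfl
  rw [e4]
  ring

lemma mk_expand (l N p : ℕ) {n : ℕ} (β : Finset (Fin N) → ℝ) (q : Fin n → ℕ) : ∏ k : Fin n, mk l N (k + 1) p β (q k) =
    ∑ T : (k : Fin n) → Fin (q k) → Finset (Fin N),
      ((∏ k, ∏ j, β (T k j)) * ∏ c, (-1 : ℝ) ^ (∑ k, cnt (T k) c)) * QM l p (fun c k => cnt (T k) c) := by
  classical
  unfold mk
  have e2 := prod_univ_sum (fun k : Fin n => (univ : Finset (Fin (q k) → Finset (Fin N))))
    (fun (k : Fin n) T => (∏ j, β (T j)) * ∏ c, ((-1) ^ cnt T c * mu (k + 1) (kap p l (k + 1)) (eta p l (k + 1)) (cnt T c)))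
  rw [Fintype.piFinset_univ] at e2
  rw [e2]
  refine sum_congr rfl fun T _ => ?_
  rw [prod_mul_distrib, mul_assoc]
  congr 1
  unfold QM PM
  rw [prod_comm, ← prod_mul_distrib]
  refine prod_congr rfl fun c _ => ?_
  rw [prod_mul_distrib, prod_pow_eq_pow_sum]

lemma tc_bd (l : ℕ) (hl : l.Prime) (D : ℕ) (hD : Nat.Coprime D l) (N k : ℕ) (hk : k ≠ 0) (β : Finset (Fin N) → ℝ) : ∃ C : ℝ, 1 ≤ C ∧
    ∀ (p : ℕ) (v : Fin N → Fin D → ℕ), |tc l D N k p β v| ≤ C := by
  obtain ⟨B, hB⟩ : ∃ B : ℝ, B = 1 + ((l * (D + l + 1) : ℕ) : ℝ) := ⟨_, rfl⟩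
  have hB1 : 1 ≤ B := by
    rw [hB]
    have : (0 : ℝ) ≤ ((l * (D + l + 1) : ℕ) : ℝ) := by positivity
    linarith
  have h0 : 0 ≤ ∑ S : Finset (Fin N), |β S| * B ^ N := sum_nonneg fun S _ => mul_nonneg (abs_nonneg _) (by positivity)
  refine ⟨1 + ∑ S : Finset (Fin N), |β S| * B ^ N, by linarith, fun p v => ?_⟩
  unfold tc
  rw [abs_mul]
  have h1 : |∏ c, ind l D p (v c)| ≤ 1 := by
    rw [abs_prod]
    exact prod_le_one (fun c _ => abs_nonneg _) fun c _ => ind_abs _ _ _ _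
  have h2 : |∑ S : Finset (Fin N), β S * ∏ c ∈ S, -A l D k p (v c)| ≤ ∑ S : Finset (Fin N), |β S| * B ^ N := by
    refine (abs_sum_le_sum_abs _ _).trans (sum_le_sum fun S _ => ?_)
    rw [abs_mul]
    apply mul_le_mul_of_nonneg_left _ (abs_nonneg _)
    rw [abs_prod]
    calc ∏ c ∈ S, |-A l D k p (v c)| ≤ ∏ _c ∈ S, B := by
          apply prod_le_prod (fun c _ => abs_nonneg _)
          intro c _
          rw [abs_neg, hB]
          have := A_le l hl D hD k hk p (v c)
          linarith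
      _ = B ^ S.card := prod_const _
      _ ≤ B ^ N := by
          apply pow_le_pow_right₀ hB1
          have := card_le_univ S
          rwa [Fintype.card_fin] at this
  calc |∏ c, ind l D p (v c)| * |∑ S : Finset (Fin N), β S * ∏ c ∈ S, -A l D k p (v c)| ≤ 1 * ∑ S : Finset (Fin N), |β S| * B ^ N :=
        mul_le_mul h1 h2 (abs_nonneg _) zero_le_one
    _ ≤ _ := by linarith

lemma TP_bd (l : ℕ) (hl : l.Prime) (D : ℕ) (hD : Nat.Coprime D l) (N : ℕ) {n d : ℕ} (σ : Fin N × Fin D ≃ Fin d) (β : Finset (Fin N) → ℝ)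
    (q : Fin n → ℕ) : ∃ C : ℝ, ∀ (p : ℕ) (m : Fin d → ℕ), |TP l D N p σ β q m| ≤ C := by
  have hch := fun k : Fin n => tc_bd l hl D hD N (k + 1) (by omega) β
  choose C hC1 hC using hch
  refine ⟨∏ k, C k ^ q k, fun p m => ?_⟩
  unfold TP
  rw [abs_prod]
  apply prod_le_prod (fun k _ => abs_nonneg _)
  intro k _
  rw [abs_pow]
  exact pow_le_pow_left₀ (abs_nonneg _) (hC k p _) _

lemma mk_bd (l : ℕ) (hl : l.Prime) (D : ℕ) (N : ℕ) {n : ℕ} (β : Finset (Fin N) → ℝ)
    (q : Fin n → ℕ) : ∃ C : ℝ, ∀ (p : ℕ), |∏ k : Fin n, mk l N (k + 1) p β (q k)| ≤ C := by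
  refine ⟨∑ T : (k : Fin n) → Fin (q k) → Finset (Fin N), |(∏ k, ∏ j, β (T k j)) * ∏ c, (-1 : ℝ) ^ (∑ k, cnt (T k) c)| *
    ∏ c, bd l D (fun k => cnt (T k) c), fun p => ?_⟩
  rw [mk_expand]
  refine (abs_sum_le_sum_abs _ _).trans (sum_le_sum fun T _ => ?_)
  rw [abs_mul]
  exact mul_le_mul_of_nonneg_left (QM_bd l hl D p _) (abs_nonneg _)

/-- **the local means of the products of the traces** -/
theorem local_mean5 (l : ℕ) (hl : l.Prime) (D : ℕ) (hD : Nat.Coprime D l) (N : ℕ) {n d : ℕ} (σ : Fin N × Fin D ≃ Fin d)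
    (β : Finset (Fin N) → ℝ) (q : Fin n → ℕ) (hr : ∑ k : Fin n, (k + 1 : ℕ) * q k ≤ D) : ∃ C : ℝ, 0 ≤ C ∧ ∀ p : ℕ, p.Prime →
      |mean d p (TP l D N p σ β q) - ∏ k : Fin n, mk l N (k + 1) p β (q k)| ≤ C / Real.sqrt p := by
  classical
  by_cases hq : ∃ k, q k ≠ 0
  · have hch : ∀ T : (k : Fin n) → Fin (q k) → Finset (Fin N), ∃ C : ℝ, 0 ≤ C ∧ ∀ p : ℕ, p.Prime →
        |mean d p (fun m => ∏ c, PI l D p (fun k => cnt (T k) c) (block σ m c)) - QM l p (fun c k => cnt (T k) c)| ≤ C / Real.sqrt p := by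
      intro T
      apply local_mean4 l hl D hD σ
      intro c
      exact (sum_le_sum fun k _ => Nat.mul_le_mul_left _ (cnt_le _ _)).trans hr
    choose C hC0 hC using hch
    refine ⟨∑ T : (k : Fin n) → Fin (q k) → Finset (Fin N), |(∏ k, ∏ j, β (T k j)) * ∏ c, (-1 : ℝ) ^ (∑ k, cnt (T k) c)| * C T,
      sum_nonneg fun T _ => mul_nonneg (abs_nonneg _) (hC0 T), fun p hp => ?_⟩
    have h1 : mean d p (TP l D N p σ β q) = ∑ T : (k : Fin n) → Fin (q k) → Finset (Fin N),
        ((∏ k, ∏ j, β (T k j)) * ∏ c, (-1 : ℝ) ^ (∑ k, cnt (T k) c)) *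
          mean d p (fun m => ∏ c, PI l D p (fun k => cnt (T k) c) (block σ m c)) := by
      have e1 : TP l D N p σ β q = fun m => ∑ T : (k : Fin n) → Fin (q k) → Finset (Fin N),
          ((∏ k, ∏ j, β (T k j)) * ∏ c, (-1 : ℝ) ^ (∑ k, cnt (T k) c)) * ∏ c, PI l D p (fun k => cnt (T k) c) (block σ m c) := by
        funext m
        exact TP_expand l D N p σ β q hq m
      rw [e1]
      unfold mean
      rw [sum_comm, mul_sum]
      refine sum_congr rfl fun T _ => ?_
      rw [← mul_sum]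
      ring
    rw [h1, mk_expand, ← sum_sub_distrib, sum_div]
    refine (abs_sum_le_sum_abs _ _).trans (sum_le_sum fun T _ => ?_)
    rw [← mul_sub, abs_mul, mul_div_assoc]
    exact mul_le_mul_of_nonneg_left (hC T p hp) (abs_nonneg _)
  · push Not at hq
    refine ⟨0, le_rfl, fun p hp => ?_⟩
    have e1 : TP l D N p σ β q = fun _ => 1 := by
      funext m
      unfold TP
      exact prod_eq_one fun k _ => by rw [hq k, pow_zero]
    have e2 : ∏ k : Fin n, mk l N (k + 1) p β (q k) = 1 := by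
      apply prod_eq_one
      intro k _
      rw [hq k]
      unfold mk cnt
      simp [mu_zero]
    rw [e1, e2, Pool.Agent.TH894.NE.mean_const d p hp.pos]
    simp

end Pool.Agent.N842.ST
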