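import Pool.Agent.N842.ST.Fld

/-!
# The closed points of the affine line over the field with `p` elements
-/

set_option autoImplicit false

namespace Pool.Agent.N842.ST

open Finset Polynomial

/-- the finite type structure of the Galois fields -/
@[reducible] noncomputable def gfFin (p : ℕ) [Fact p.Prime] (k : ℕ) : Fintype (GaloisField p k) := Fintype.ofFinite _

attribute [local instance] gfFin

variable (p : ℕ) [hp : Fact p.Prime]

lemma card_gf (k : ℕ) (hk : k ≠ 0) : Fintype.card (GaloisField p k) = p ^ k := by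
  rw [← Nat.card_eq_fintype_card, GaloisField.card p k hk]

open Classical in
/-- the monic irreducible polynomials of degree `k` -/
noncomputable def Irr (k : ℕ) : Finset (ZMod p)[X] :=
  ((univ : Finset (GaloisField p k)).image (fun y => minpoly (ZMod p) y)).filter (fun P => P.natDegree = k)

lemma mem_Irr (k : ℕ) (hk : k ≠ 0) (P : (ZMod p)[X]) : P ∈ Irr p k ↔ P.Monic ∧ Irreducible P ∧ P.natDegree = k := by
  classical
  unfold Irr
  rw [mem_filter, mem_image]
  constructor
  · rintro ⟨⟨y, _, rfl⟩, h⟩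
    have hy : IsIntegral (ZMod p) y := Algebra.IsIntegral.isIntegral y
    exact ⟨minpoly.monic hy, minpoly.irreducible hy, h⟩
  · rintro ⟨hm, hi, hd⟩
    refine ⟨?_, hd⟩
    have : Fact (Irreducible P) := ⟨hi⟩
    have : Module.Finite (ZMod p) (AdjoinRoot P) := Module.Finite.of_basis (AdjoinRoot.powerBasis hi.ne_zero).basis
    have hf : Module.finrank (ZMod p) (AdjoinRoot P) = k := by
      rw [(AdjoinRoot.powerBasis hi.ne_zero).finrank, AdjoinRoot.powerBasis_dim, hd]
    have hc : Nat.card (AdjoinRoot P) = p ^ k := by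
      rw [Module.natCard_eq_pow_finrank (K := ZMod p), Nat.card_zmod, hf]
    obtain ⟨φ⟩ : Nonempty (AdjoinRoot P →ₐ[ZMod p] GaloisField p k) := by
      apply FiniteField.nonempty_algHom_of_finrank_dvd
      rw [hf, GaloisField.finrank p hk]
    refine ⟨φ (AdjoinRoot.root P), mem_univ _, ?_⟩
    rw [minpoly.algHom_eq φ φ.injective, AdjoinRoot.minpoly_root hi.ne_zero, hm.leadingCoeff]
    simp

lemma exists_root (k : ℕ) (P : (ZMod p)[X]) (hP : P ∈ Irr p k) : ∃ y : GaloisField p k, minpoly (ZMod p) y = P := by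
  classical
  unfold Irr at hP
  rw [mem_filter, mem_image] at hP
  obtain ⟨⟨y, _, h⟩, _⟩ := hP
  exact ⟨y, h⟩

open Classical in
/-- a root of `P` in the field with `p ^ k` elements -/
noncomputable def rt (k : ℕ) (P : (ZMod p)[X]) : GaloisField p k :=
  if h : ∃ y : GaloisField p k, minpoly (ZMod p) y = P then h.choose else 0

lemma minpoly_rt (k : ℕ) (P : (ZMod p)[X]) (hP : P ∈ Irr p k) : minpoly (ZMod p) (rt p k P) = P := by
  unfold rt
  rw [dif_pos (exists_root p k P hP)]
  exact (exists_root p k P hP).choose_spec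

lemma natDegree_dvd (k : ℕ) (hk : k ≠ 0) (y : GaloisField p k) : (minpoly (ZMod p) y).natDegree ∈ k.divisors := by
  rw [Nat.mem_divisors]
  refine ⟨?_, hk⟩
  have h := minpoly.degree_dvd (K := ZMod p) (x := y) (Algebra.IsIntegral.isIntegral y)
  rwa [GaloisField.finrank p hk] at h

lemma minpoly_mem (k : ℕ) (y : GaloisField p k) :
    minpoly (ZMod p) y ∈ Irr p (minpoly (ZMod p) y).natDegree := by
  have hy : IsIntegral (ZMod p) y := Algebra.IsIntegral.isIntegral y
  rw [mem_Irr]
  · exact ⟨minpoly.monic hy, minpoly.irreducible hy, rfl⟩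
  · exact (minpoly.irreducible hy).natDegree_pos.ne'

/-- every element with the minimal polynomial `P` is the image of `rt P` -/
lemma exists_hom (k d : ℕ) (hk : k ≠ 0) (hd : d ∣ k) (P : (ZMod p)[X]) (hP : P ∈ Irr p d) (y : GaloisField p k)
    (hy : minpoly (ZMod p) y = P) : ∃ φ : GaloisField p d →ₐ[ZMod p] GaloisField p k, φ (rt p d P) = y := by
  have hd0 : d ≠ 0 := fun h => hk (by rw [h] at hd; exact Nat.eq_zero_of_zero_dvd hd)
  obtain ⟨φ₀⟩ : Nonempty (GaloisField p d →ₐ[ZMod p] GaloisField p k) := by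
    apply FiniteField.nonempty_algHom_of_finrank_dvd
    rw [GaloisField.finrank p hk, GaloisField.finrank p hd0]
    exact hd
  refine IntermediateField.exists_algHom_of_splits_of_aeval (fun s => ⟨Algebra.IsIntegral.isIntegral s, ?_⟩) ?_
  · rw [← minpoly.algHom_eq φ₀ φ₀.injective s]
    exact Normal.splits inferInstance _
  · rw [minpoly_rt p d P hP, ← hy]
    exact minpoly.aeval _ _

open Classical in
lemma card_fiber (k d : ℕ) (hk : k ≠ 0) (hd : d ∣ k) (P : (ZMod p)[X]) (hP : P ∈ Irr p d) :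
    ((univ : Finset (GaloisField p k)).filter (fun y => minpoly (ZMod p) y = P)).card = d := by
  have hd0 : d ≠ 0 := fun h => hk (by rw [h] at hd; exact Nat.eq_zero_of_zero_dvd hd)
  obtain ⟨hm, hi, hn⟩ := (mem_Irr p d hd0 P).1 hP
  obtain ⟨φ₀⟩ : Nonempty (GaloisField p d →ₐ[ZMod p] GaloisField p k) := by
    apply FiniteField.nonempty_algHom_of_finrank_dvd
    rw [GaloisField.finrank p hk, GaloisField.finrank p hd0]
    exact hd
  have hsp : Splits (P.map (algebraMap (ZMod p) (GaloisField p k))) := by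
    have h1 : minpoly (ZMod p) (φ₀ (rt p d P)) = P := by
      rw [minpoly.algHom_eq φ₀ φ₀.injective, minpoly_rt p d P hP]
    rw [← h1]
    exact Normal.splits inferInstance _
  have hsep : P.Separable := PerfectField.separable_of_irreducible hi
  have h2 := card_rootSet_eq_natDegree hsep hsp
  rw [hn] at h2
  rw [← h2, ← Set.toFinset_card]
  congr 1
  ext y
  rw [mem_filter, Set.mem_toFinset, mem_rootSet]
  constructor
  · rintro ⟨_, rfl⟩
    exact ⟨hi.ne_zero, minpoly.aeval _ _⟩
  · rintro ⟨_, h⟩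
    exact ⟨mem_univ _, (minpoly.eq_of_irreducible_of_monic hi h hm).symm⟩

/-- **sums over a finite field as sums over the closed points** -/
theorem sum_points (k : ℕ) (hk : k ≠ 0) (ψ : GaloisField p k → ℝ) (Ψ : ℕ → (ZMod p)[X] → ℝ)
    (h : ∀ d ∈ k.divisors, ∀ P ∈ Irr p d, ∀ y : GaloisField p k, minpoly (ZMod p) y = P → ψ y = Ψ d P) :
    ∑ y : GaloisField p k, ψ y = ∑ d ∈ k.divisors, (d : ℝ) * ∑ P ∈ Irr p d, Ψ d P := by
  classical
  rw [← sum_fiberwise_of_maps_to (s := univ) (t := k.divisors) (g := fun y : GaloisField p k => (minpoly (ZMod p) y).natDegree)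
    (fun y _ => natDegree_dvd p k hk y)]
  refine sum_congr rfl fun d hd => ?_
  rw [← sum_fiberwise_of_maps_to (t := Irr p d) (g := fun y : GaloisField p k => minpoly (ZMod p) y) (by
    intro y hy
    rw [mem_filter] at hy
    rw [← hy.2]
    exact minpoly_mem p k y), mul_sum]
  refine sum_congr rfl fun P hP => ?_
  have hd' := (Nat.mem_divisors.1 hd).1
  rw [sum_congr rfl (g := fun _ => Ψ d P) (fun y hy => h d hd P hP y (mem_filter.1 hy).2), sum_const, nsmul_eq_mul]
  have hd0 : d ≠ 0 := fun h => hk (by rw [h] at hd'; exact Nat.eq_zero_of_zero_dvd hd')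
  have e : (((univ : Finset (GaloisField p k)).filter (fun y => (minpoly (ZMod p) y).natDegree = d)).filter
      (fun y => minpoly (ZMod p) y = P)).card = d := by
    refine Eq.trans ?_ (card_fiber p k d hk hd' P hP)
    congr 1
    ext y
    simp only [mem_filter, mem_univ, true_and]
    constructor
    · exact fun h => h.2
    · intro h
      refine ⟨?_, h⟩
      rw [h]
      exact ((mem_Irr p d hd0 P).1 hP).2.2
  rw [e]

/-- the number of the closed points of degree `k` -/
theorem sum_card (k : ℕ) (hk : k ≠ 0) : ∑ d ∈ k.divisors, (d : ℝ) * ((Irr p d).card : ℝ) = (p : ℝ) ^ k := by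
  have h := sum_points p k hk (fun _ => 1) (fun _ _ => 1) (fun _ _ _ _ _ _ => rfl)
  simp only [sum_const, nsmul_eq_mul, mul_one, card_univ] at h
  rw [← h, card_gf p k hk]
  push_cast
  rfl

lemma card_Irr_le (k : ℕ) (hk : k ≠ 0) : (k : ℝ) * ((Irr p k).card : ℝ) ≤ (p : ℝ) ^ k := by
  rw [← sum_card p k hk]
  exact single_le_sum (f := fun d : ℕ => (d : ℝ) * ((Irr p d).card : ℝ)) (fun d _ => by positivity)
    (Nat.mem_divisors.2 ⟨dvd_rfl, hk⟩)

lemma card_Irr_le' (k : ℕ) (hk : k ≠ 0) : (Irr p k).card ≤ p ^ k := by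
  have h := card_Irr_le p k hk
  have h1 : (1 : ℝ) ≤ k := by exact_mod_cast Nat.one_le_iff_ne_zero.2 hk
  have h2 : ((Irr p k).card : ℝ) ≤ (k : ℝ) * ((Irr p k).card : ℝ) := le_mul_of_one_le_left (by positivity) h1
  have h3 := h2.trans h
  exact_mod_cast h3

end Pool.Agent.N842.ST
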