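import Pool.Agent.N842.ST.Amom
import Pool.Agent.H435R3.Weil.Main

/-!
# Weil's bound for the sums over the points
-/

set_option autoImplicit false

namespace Pool.Agent.N842.ST

open Finset Polynomial

section
variable {F : Type} [Field F] [Fintype F] [DecidableEq F]

omit [Fintype F] [DecidableEq F] in
lemma eval_reverse (P : F[X]) (x : F) (hx : x ≠ 0) : P.eval x = x ^ P.natDegree * P.reverse.eval x⁻¹ := by
  let _ := invertibleOfNonzero hx
  have h := eval₂_reverse_mul_pow (RingHom.id F) x P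
  rw [invOf_eq_inv] at h
  rw [mul_comm]
  exact h.symm

omit [Fintype F] [DecidableEq F] in
lemma char_norm (l : ℕ) (hl : l ≠ 0) (χ : MulChar F ℂ) (hχ : χ ^ l = 1) (z : F) : ‖χ z‖ ≤ 1 := by
  by_cases hz : z = 0
  · rw [hz, MulChar.map_zero, norm_zero]
    exact zero_le_one
  · have h1 : χ z ^ l = 1 := by
      rw [← MulChar.pow_apply' χ hl, hχ, MulChar.one_apply (isUnit_iff_ne_zero.2 hz)]
    exact (Complex.norm_eq_one_of_pow_eq_one h1 hl).le

theorem weil_cop (l : ℕ) (hl : l.Prime) (hlF : l ∣ Fintype.card F - 1) (χ : MulChar F ℂ) (hχ1 : χ ≠ 1) (hχ : χ ^ l = 1)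
    (P : F[X]) (hP : P.Monic) (hD : Nat.Coprime P.natDegree l) :
    ‖∑ x : F, χ (P.eval x)‖ ≤ (P.natDegree + l + 1 : ℕ) * Real.sqrt (Fintype.card F) := by
  obtain ⟨D, hDd⟩ : ∃ D : ℕ, D = P.natDegree := ⟨_, rfl⟩
  rw [← hDd] at hD ⊢
  obtain ⟨N, hN⟩ : ∃ N : ℕ, N = l * (D / l + 1) := ⟨_, rfl⟩
  have hN1 : D < N := by
    rw [hN, mul_comm]
    have := Nat.lt_mul_div_succ D hl.pos
    rw [mul_comm] at this
    exact this
  have hN2 : N ≤ D + l := by
    rw [hN, mul_add, mul_one]
    have := Nat.mul_div_le D l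
    omega
  obtain ⟨e, he⟩ : ∃ e : ℕ, e = N - D := ⟨_, rfl⟩
  have heN : e + D = N := by omega
  have he1 : e ≠ 0 := by omega
  have hecop : Nat.Coprime e l := by
    rw [Nat.coprime_comm, Nat.Prime.coprime_iff_not_dvd hl]
    intro h
    have h1 : l ∣ N := ⟨_, hN⟩
    have h2 : l ∣ D := by
      rw [← heN] at h1
      exact (Nat.dvd_add_right h).1 h1
    rw [Nat.coprime_comm, Nat.Prime.coprime_iff_not_dvd hl] at hD
    exact hD h2
  obtain ⟨Q, hQ⟩ : ∃ Q : F[X], Q = P.reverse := ⟨_, rfl⟩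
  have hQ0 : Q ≠ 0 := by
    rw [hQ, Ne, reverse_eq_zero]
    exact hP.ne_zero
  obtain ⟨c, hc⟩ : ∃ c : F, c = Q.leadingCoeff := ⟨_, rfl⟩
  have hc0 : c ≠ 0 := by
    rw [hc]
    exact leadingCoeff_ne_zero.2 hQ0
  have hQz : Q.eval 0 = 1 := by
    rw [← coeff_zero_eq_eval_zero, hQ, coeff_zero_reverse, hP.leadingCoeff]
  obtain ⟨Q₁, hQ₁⟩ : ∃ Q₁ : F[X], Q₁ = C c⁻¹ * Q := ⟨_, rfl⟩
  have hQ₁m : Q₁.Monic := by
    rw [hQ₁, hc]
    unfold Monic
    rw [leadingCoeff_mul, leadingCoeff_C, inv_mul_cancel₀ (leadingCoeff_ne_zero.2 hQ0)]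
  have hQ₁z : Q₁.eval 0 ≠ 0 := by
    rw [hQ₁, eval_mul, eval_C, hQz, mul_one]
    exact inv_ne_zero hc0
  obtain ⟨R, hR⟩ : ∃ R : F[X], R = X ^ e * Q₁ := ⟨_, rfl⟩
  have hRm : R.Monic := by
    rw [hR]
    exact (monic_X_pow e).mul hQ₁m
  have hRd : R.natDegree ≤ D + l := by
    rw [hR, (monic_X_pow e).natDegree_mul hQ₁m, natDegree_X_pow, hQ₁, natDegree_C_mul (inv_ne_zero hc0), hQ]
    have := reverse_natDegree_le P
    omega
  have hRmul : rootMultiplicity 0 R = e := by
    rw [hR, rootMultiplicity_mul (by rw [← hR]; exact hRm.ne_zero)]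
    have h1 : rootMultiplicity 0 (X ^ e : F[X]) = e := by
      have h2 := rootMultiplicity_X_sub_C_pow (0 : F) e
      rwa [C_0, sub_zero] at h2
    have h3 : rootMultiplicity 0 Q₁ = 0 := rootMultiplicity_eq_zero hQ₁z
    rw [h1, h3, add_zero]
  have hR0 : R.eval 0 = 0 := by
    rw [hR, eval_mul, eval_pow, eval_X, zero_pow he1, zero_mul]
  have hkey : ∀ x : F, x ≠ 0 → P.eval x = c * (x ^ N * R.eval x⁻¹) := by
    intro x hx
    rw [eval_reverse P x hx, ← hDd, ← hQ, hR, hQ₁, eval_mul, eval_mul, eval_pow, eval_X, eval_C, ← heN, pow_add, inv_pow]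
    field_simp
  have hterm : ∀ x : F, χ (P.eval x) = (if x = 0 then χ (P.eval 0) else 0) + χ c * χ (R.eval x⁻¹) := by
    intro x
    by_cases hx : x = 0
    · rw [if_pos hx, hx, inv_zero, hR0, MulChar.map_zero, mul_zero, add_zero]
    · have h1 : χ x ^ l = 1 := by
        rw [← MulChar.pow_apply' χ hl.ne_zero, hχ, MulChar.one_apply (isUnit_iff_ne_zero.2 hx)]
      rw [if_neg hx, zero_add, hkey x hx, map_mul, map_mul, map_pow, hN, pow_mul, h1, one_pow, one_mul]
  have hsum : ∑ x : F, χ (P.eval x) = χ (P.eval 0) + χ c * ∑ x : F, χ (R.eval x) := by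
    rw [sum_congr rfl (fun x _ => hterm x), sum_add_distrib, sum_ite_eq' univ (0 : F) (fun _ => χ (P.eval 0)), if_pos (mem_univ _),
      ← mul_sum]
    congr 2
    exact Fintype.sum_equiv (Equiv.inv F) _ _ (fun x => rfl)
  have hw := Pool.Agent.H435R3.Weil.weil l hl.two_le hlF χ hχ1 hχ R 1 hRm monic_one (by
    refine ⟨0, ?_⟩
    rw [one_pow, mul_one, hRmul]
    exact hecop)
  simp only [eval_one, map_one, mul_one, natDegree_one, add_zero] at hw
  have hq1 : 1 ≤ Real.sqrt (Fintype.card F) := by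
    rw [Real.one_le_sqrt]
    exact_mod_cast Fintype.card_pos
  rw [hsum]
  have h1 := char_norm l hl.ne_zero χ hχ (P.eval 0)
  have h2 := char_norm l hl.ne_zero χ hχ c
  have h3 : ‖χ c * ∑ x : F, χ (R.eval x)‖ ≤ ((D + l : ℕ) : ℝ) * Real.sqrt (Fintype.card F) := by
    rw [norm_mul]
    calc ‖χ c‖ * ‖∑ x : F, χ (R.eval x)‖ ≤ 1 * ‖∑ x : F, χ (R.eval x)‖ := mul_le_mul_of_nonneg_right h2 (norm_nonneg _)
      _ = ‖∑ x : F, χ (R.eval x)‖ := one_mul _
      _ ≤ _ := hw
      _ ≤ _ := by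
        apply mul_le_mul_of_nonneg_right _ (by positivity)
        exact_mod_cast hRd
  refine (norm_add_le _ _).trans ?_
  have h4 : ((D + l + 1 : ℕ) : ℝ) * Real.sqrt (Fintype.card F) = Real.sqrt (Fintype.card F) +
      ((D + l : ℕ) : ℝ) * Real.sqrt (Fintype.card F) := by
    push_cast
    ring
  rw [h4]
  linarith

/-- `nu` as a sum of characters -/
lemma nu_char (l : ℕ) (hl : l.Prime) (hlF : l ∣ Fintype.card F - 1) : ∃ χ : MulChar F ℂ, (∀ j, 1 ≤ j → j < l → χ ^ j ≠ 1) ∧
    χ ^ l = 1 ∧ ∀ z : F, (nu l z : ℂ) = ∑ j ∈ range (l - 1), (χ ^ (j + 1)) z := by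
  obtain ⟨χ, hχ⟩ := MulChar.exists_mulChar_orderOf F hlF (Complex.isPrimitiveRoot_exp l hl.ne_zero)
  have hχl : χ ^ l = 1 := by
    rw [← hχ]
    exact pow_orderOf_eq_one χ
  have hl2 := hl.two_le
  have hχj : ∀ j, 1 ≤ j → j < l → χ ^ j ≠ 1 := by
    intro j hj1 hj2 h
    have := orderOf_dvd_of_pow_eq_one h
    rw [hχ] at this
    have := Nat.le_of_dvd (by omega) this
    omega
  refine ⟨χ, hχj, hχl, fun z => ?_⟩
  by_cases hz : z = 0
  · rw [hz, nu_zero hl.ne_zero]
    simp only [MulChar.map_zero, sum_const_zero, Complex.ofReal_zero]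
  · have hzl : χ z ^ l = 1 := by
      rw [← MulChar.pow_apply' χ hl.ne_zero, hχl, MulChar.one_apply (isUnit_iff_ne_zero.2 hz)]
    have hsum : ∑ j ∈ range (l - 1), (χ ^ (j + 1)) z = ∑ j ∈ range (l - 1), χ z ^ (j + 1) :=
      sum_congr rfl fun j _ => MulChar.pow_apply' χ (by omega) z
    have hgeo : ∑ j ∈ range (l - 1), χ z ^ (j + 1) = ∑ j ∈ range l, χ z ^ j - 1 := by
      have h1 := sum_range_succ' (fun j => χ z ^ j) (l - 1)
      rw [Nat.sub_add_cancel (by omega : 1 ≤ l), pow_zero] at h1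
      rw [h1]
      ring
    rw [hsum, hgeo]
    by_cases h1 : χ z = 1
    · -- then `z` is a power
      have hν : nu l z = l - 1 := by
        rcases nu_of_dvd hl hlF z hz with ⟨_, h2⟩ | ⟨_, h2⟩
        · exact h2
        · exfalso
          obtain ⟨g, hg⟩ := IsCyclic.exists_generator (α := Fˣ)
          have hχg1 : χ (g : F) ≠ 1 := by
            intro h3
            apply hχj 1 le_rfl (by omega)
            rw [pow_one, MulChar.eq_iff hg, h3, MulChar.one_apply_coe]
          have hχgl : χ (g : F) ^ l = 1 := by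
            rw [← MulChar.pow_apply' χ hl.ne_zero, hχl, MulChar.one_apply_coe]
          have hord : orderOf (χ (g : F)) = l := by
            have := Fact.mk hl
            exact orderOf_eq_prime hχgl hχg1
          obtain ⟨a, ha⟩ := (mem_powers_iff_mem_zpowers (x := g) (y := Units.mk0 z hz)).2 (hg _)
          have ha' : (g : F) ^ a = z := by
            have := congrArg Units.val ha
            simpa using this
          have h3 : χ (g : F) ^ a = 1 := by
            rw [← map_pow, ha', h1]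
          have h4 := orderOf_dvd_of_pow_eq_one h3
          rw [hord] at h4
          obtain ⟨b, hb⟩ := h4
          have h5 : (1 : ℝ) ≤ Nat.card {w : F // w ^ l = z} := by
            have : 0 < Nat.card {w : F // w ^ l = z} := by
              rw [Nat.card_pos_iff]
              refine ⟨⟨⟨(g : F) ^ b, ?_⟩⟩, inferInstance⟩
              rw [← pow_mul, mul_comm, ← hb, ha']
            exact_mod_cast this
          unfold nu at h2
          linarith
      rw [hν, h1]
      simp
    · have hν : nu l z = -1 := by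
        rcases nu_of_dvd hl hlF z hz with ⟨h3, h2⟩ | ⟨_, h2⟩
        · exfalso
          apply h1
          have hpos : 0 < Nat.card {w : F // w ^ l = z} := by
            have h4 : (Nat.card {w : F // w ^ l = z} : ℝ) = l := by
              unfold nu at h2
              linarith
            have h5 : Nat.card {w : F // w ^ l = z} = l := by exact_mod_cast h4
            omega
          obtain ⟨⟨w, hw⟩⟩ := (Nat.card_pos_iff.1 hpos).1
          have hw0 : w ≠ 0 := by
            intro h0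
            rw [h0, zero_pow hl.ne_zero] at hw
            exact hz hw.symm
          rw [← hw, map_pow, ← MulChar.pow_apply' χ hl.ne_zero, hχl, MulChar.one_apply (isUnit_iff_ne_zero.2 hw0)]
        · exact h2
      have h2 := geom_sum_eq h1 l
      rw [h2, hzl, sub_self, zero_div, hν]
      simp

/-- **Weil's bound** -/
theorem weil_nu (l : ℕ) (hl : l.Prime) (hlF : l ∣ Fintype.card F - 1) (P : F[X]) (hP : P.Monic) (hD : Nat.Coprime P.natDegree l) :
    |∑ x : F, nu l (P.eval x)| ≤ (l * (P.natDegree + l + 1) : ℕ) * Real.sqrt (Fintype.card F) := by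
  obtain ⟨χ, hχj, hχl, hχ⟩ := nu_char (F := F) l hl hlF
  have h1 : ((∑ x : F, nu l (P.eval x) : ℝ) : ℂ) = ∑ j ∈ range (l - 1), ∑ x : F, (χ ^ (j + 1)) (P.eval x) := by
    rw [sum_comm]
    push_cast
    exact sum_congr rfl fun x _ => hχ _
  have h2 : ‖((∑ x : F, nu l (P.eval x) : ℝ) : ℂ)‖ ≤ ((l - 1 : ℕ) : ℝ) * ((P.natDegree + l + 1 : ℕ) * Real.sqrt (Fintype.card F)) := by
    rw [h1]
    refine (norm_sum_le _ _).trans ((sum_le_sum (g := fun _ => ((P.natDegree + l + 1 : ℕ) : ℝ) * Real.sqrt (Fintype.card F))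
      fun j hj => ?_).trans (le_of_eq ?_))
    · rw [mem_range] at hj
      refine weil_cop l hl hlF (χ ^ (j + 1)) (hχj (j + 1) (by omega) (by omega)) ?_ P hP hD
      rw [← pow_mul, mul_comm, pow_mul, hχl, one_pow]
    · rw [sum_const, card_range, nsmul_eq_mul]
  rw [Complex.norm_real, Real.norm_eq_abs] at h2
  refine h2.trans ?_
  rw [← mul_assoc]
  apply mul_le_mul_of_nonneg_right _ (by positivity)
  have h3 : (l - 1) * (P.natDegree + l + 1) ≤ l * (P.natDegree + l + 1) := Nat.mul_le_mul_right _ (by omega)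
  exact_mod_cast h3

end

attribute [local instance] gfFin

theorem weilS (l : ℕ) (hl : l.Prime) (D : ℕ) (hD : Nat.Coprime D l) (p : ℕ) [hp : Fact p.Prime] (u : Fin D → ZMod p) (k : ℕ) (hk : k ≠ 0) :
    |S p l k (fp p u)| ≤ ((l * (D + l + 1) : ℕ) : ℝ) * Real.sqrt p ^ k := by
  classical
  by_cases h : l ∣ p ^ k - 1
  · have h1 := weil_nu (F := GaloisField p k) l hl (by rw [card_gf p k hk]; exact h) ((fp p u).map (algebraMap _ _))
      ((fp_monic p u).map _) (by rw [(fp_monic p u).natDegree_map, fp_natDegree]; exact hD)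
    rw [(fp_monic p u).natDegree_map, fp_natDegree, card_gf p k hk] at h1
    have h2 : Real.sqrt ((p ^ k : ℕ) : ℝ) = Real.sqrt p ^ k := by
      push_cast
      rw [s_pow, mul_comm, pow_mul, Real.sqrt_sq (by positivity)]
    rw [h2] at h1
    unfold S
    refine le_trans (le_of_eq ?_) h1
    congr 1
    refine sum_congr rfl fun y _ => ?_
    rw [eval_map_algebraMap]
  · rw [S_zero p hl k hk h, abs_zero]
    positivity

end Pool.Agent.N842.ST
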